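import Pool.Agent.K3h25.CM.Sec

/-! The second mock part modulo four, combinatorial facts. -/

open PowerSeries Finset Filter Topology
open scoped PowerSeries.WithPiTopology

namespace Pool.Agent.K3h25.CM

theorem summ_nbox4 {f : ℕ × ℕ × ℕ × ℕ → ℤ} (B : ℕ)
    (h : ∀ k i l s, f (k, i, l, s) ≠ 0 → k ≤ B ∧ i ≤ B ∧ l ≤ B ∧ s ≤ B) : Summable f := by
  refine summable_of_ne_finset_zero
    (s := range (B + 1) ×ˢ range (B + 1) ×ˢ range (B + 1) ×ˢ range (B + 1)) fun p hp => ?_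
  by_contra h1
  apply hp
  obtain ⟨k, i, l, s⟩ := p
  have h2 := h k i l s h1
  simp only [Finset.mem_product, Finset.mem_range]
  omega

theorem summ_nbox2 {f : ℕ × ℕ → ℤ} (B : ℕ)
    (h : ∀ k i, f (k, i) ≠ 0 → k ≤ B ∧ i ≤ B) : Summable f := by
  refine summable_of_ne_finset_zero
    (s := range (B + 1) ×ˢ range (B + 1)) fun p hp => ?_
  by_contra h1
  apply hp
  obtain ⟨k, i⟩ := p
  have h2 := h k i h1
  simp only [Finset.mem_product, Finset.mem_range]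
  omega

/-- number of `(k, l)` with `k + (2k+1) l = n` -/
noncomputable def tau (n : ℕ) : ℤ := ∑' q : ℕ × ℕ, if q.1 + (2 * q.1 + 1) * q.2 = n then 1 else 0

/-- number of such pairs with `k < l` -/
noncomputable def tt (n : ℕ) : ℤ :=
  ∑' q : ℕ × ℕ, if q.1 < q.2 ∧ q.1 + (2 * q.1 + 1) * q.2 = n then 1 else 0

theorem bnd2 {k l n : ℕ} (h : k + (2 * k + 1) * l = n) : k ≤ n ∧ l ≤ n := by
  constructor
  · omega
  · nlinarith [Nat.zero_le (k * l)]

theorem tau_tt {n : ℕ} (hn : ¬ 4 ∣ n) : tau n = 2 * tt n := by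
  have hs1 : Summable (fun q : ℕ × ℕ => if q.1 < q.2 ∧ q.1 + (2 * q.1 + 1) * q.2 = n then (1 : ℤ)
      else 0) := by
    refine summ_nbox2 n fun k l h => ?_
    simp only at h
    split_ifs at h with hc
    · exact bnd2 hc.2
    · exact absurd rfl h
  have hs2 : Summable (fun q : ℕ × ℕ => if q.2 < q.1 ∧ q.1 + (2 * q.1 + 1) * q.2 = n then (1 : ℤ)
      else 0) := by
    refine summ_nbox2 n fun k l h => ?_
    simp only at h
    split_ifs at h with hc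
    · exact bnd2 hc.2
    · exact absurd rfl h
  have h1 : tau n = tt n + ∑' q : ℕ × ℕ,
      (if q.2 < q.1 ∧ q.1 + (2 * q.1 + 1) * q.2 = n then (1 : ℤ) else 0) := by
    unfold tau tt
    rw [← hs1.tsum_add hs2]
    refine tsum_congr fun q => ?_
    obtain ⟨k, l⟩ := q
    simp only
    by_cases h : k + (2 * k + 1) * l = n
    · rcases lt_trichotomy k l with h' | h' | h'
      · rw [if_pos h, if_pos ⟨h', h⟩, if_neg (by omega)]; norm_num
      · exfalso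
        apply hn
        subst h'
        obtain ⟨c, hc⟩ := (Nat.even_mul_succ_self k).two_dvd
        refine ⟨c, ?_⟩
        rw [← h]
        nlinarith [hc]
      · rw [if_pos h, if_neg (by omega), if_pos ⟨h', h⟩]; norm_num
    · rw [if_neg h, if_neg (fun h' => h h'.2), if_neg (fun h' => h h'.2)]; norm_num
  have h2 : ∑' q : ℕ × ℕ, (if q.2 < q.1 ∧ q.1 + (2 * q.1 + 1) * q.2 = n then (1 : ℤ) else 0) =
      tt n := by
    unfold tt
    have key : ∀ k l : ℕ, k + (2 * k + 1) * l = l + (2 * l + 1) * k := fun k l => by ring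
    refine tsum_pb _ _ (fun p => (p.2, p.1)) (fun p => (p.2, p.1)) ?_ ?_
    · rintro ⟨k, l⟩ _
      refine ⟨?_, rfl⟩
      simp only
      refine if_congr ?_ rfl rfl
      rw [key]
    · rintro ⟨k, l⟩ _
      refine ⟨?_, rfl⟩
      simp only
      refine if_congr ?_ rfl rfl
      rw [key]
  rw [h1, h2]
  ring

/-- the condition on the quadruples `(k, i, l, s)` -/
def Cd (n : ℕ) (q : ℕ × ℕ × ℕ × ℕ) : Prop :=
  q.2.1 < q.1 ∧ q.1 + (2 * q.1 + 1) * q.2.2.1 + (2 * q.2.1 + 1) * (q.2.2.2 + 1) = n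

instance (n : ℕ) : DecidablePred (Cd n) := fun q => by unfold Cd; infer_instance

theorem bnd4 {n k i l s : ℕ} (h : Cd n (k, i, l, s)) : k ≤ n ∧ i ≤ n ∧ l ≤ n ∧ s ≤ n := by
  obtain ⟨h1, h2⟩ := h
  simp only at h1 h2
  refine ⟨by omega, by omega, ?_, ?_⟩
  · nlinarith [Nat.zero_le (k * l), Nat.zero_le (i * s)]
  · nlinarith [Nat.zero_le (k * l), Nat.zero_le (i * s)]

/-- weighted count of quadruples -/
noncomputable def M4 (P : ℕ × ℕ × ℕ × ℕ → Prop) [DecidablePred P] (n : ℕ) : ℤ :=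
  ∑' q : ℕ × ℕ × ℕ × ℕ, if Cd n q ∧ P q then 1 else 0

theorem summ_M4 (P : ℕ × ℕ × ℕ × ℕ → Prop) [DecidablePred P] (n : ℕ) :
    Summable (fun q : ℕ × ℕ × ℕ × ℕ => if Cd n q ∧ P q then (1 : ℤ) else 0) := by
  refine summ_nbox4 n fun k i l s h => ?_
  split_ifs at h with hc
  · exact bnd4 hc.1
  · exact absurd rfl h

/-- positive quadruples -/
def Pp (q : ℕ × ℕ × ℕ × ℕ) : Prop :=
  q.2.1 < q.2.2.1 ∨ (q.2.1 = q.2.2.1 ∧ q.2.2.1 + q.2.2.2 + 1 < q.1)

/-- negative quadruples -/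
def Pn (q : ℕ × ℕ × ℕ × ℕ) : Prop :=
  q.2.2.1 < q.2.1 ∨ (q.2.1 = q.2.2.1 ∧ q.1 < q.2.2.1 + q.2.2.2 + 1)

/-- fixed quadruples -/
def Pf (q : ℕ × ℕ × ℕ × ℕ) : Prop :=
  q.2.1 = q.2.2.1 ∧ q.1 = q.2.2.1 + q.2.2.2 + 1

instance : DecidablePred Pp := fun q => by unfold Pp; infer_instance
instance : DecidablePred Pn := fun q => by unfold Pn; infer_instance
instance : DecidablePred Pf := fun q => by unfold Pf; infer_instance

/-- the involution -/
def sg (q : ℕ × ℕ × ℕ × ℕ) : ℕ × ℕ × ℕ × ℕ :=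
  (q.2.2.1 + q.2.2.2 + 1, q.2.2.1, q.2.1, q.1 - q.2.1 - 1)

theorem sg_Cd {n : ℕ} {q : ℕ × ℕ × ℕ × ℕ} (h : Cd n q) : Cd n (sg q) := by
  obtain ⟨k, i, l, s⟩ := q
  obtain ⟨h1, h2⟩ := h
  simp only at h1 h2
  obtain ⟨c, rfl⟩ : ∃ c, k = i + c + 1 := ⟨k - i - 1, by omega⟩
  unfold Cd sg
  simp only
  refine ⟨by omega, ?_⟩
  rw [show i + c + 1 - i - 1 = c by omega, ← h2]
  ring

theorem sg_sg {n : ℕ} {q : ℕ × ℕ × ℕ × ℕ} (h : Cd n q) : sg (sg q) = q := by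
  obtain ⟨k, i, l, s⟩ := q
  obtain ⟨h1, h2⟩ := h
  simp only at h1
  unfold sg
  simp only
  refine Prod.ext ?_ (Prod.ext ?_ (Prod.ext ?_ ?_)) <;> simp only <;> omega

theorem sg_Pp {n : ℕ} {q : ℕ × ℕ × ℕ × ℕ} (h : Cd n q) : Pp (sg q) ↔ Pn q := by
  obtain ⟨k, i, l, s⟩ := q
  obtain ⟨h1, h2⟩ := h
  simp only at h1
  unfold sg Pp Pn
  simp only
  omega

theorem sg_Pn {n : ℕ} {q : ℕ × ℕ × ℕ × ℕ} (h : Cd n q) : Pn (sg q) ↔ Pp q := by
  obtain ⟨k, i, l, s⟩ := q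
  obtain ⟨h1, h2⟩ := h
  simp only at h1
  unfold sg Pp Pn
  simp only
  omega

theorem M4_swap (n : ℕ) : M4 Pp n = M4 Pn n := by
  unfold M4
  refine tsum_pb _ _ sg sg ?_ ?_
  · intro q hq
    have hc : Cd n q ∧ Pp q := by
      by_contra hc
      exact hq (if_neg hc)
    refine ⟨?_, sg_sg hc.1⟩
    rw [if_pos hc, if_pos ⟨sg_Cd hc.1, (sg_Pn hc.1).2 hc.2⟩]
  · intro q hq
    have hc : Cd n q ∧ Pn q := by
      by_contra hc
      exact hq (if_neg hc)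
    refine ⟨?_, sg_sg hc.1⟩
    rw [if_pos hc, if_pos ⟨sg_Cd hc.1, (sg_Pp hc.1).2 hc.2⟩]

theorem M4_split (n : ℕ) : M4 (fun _ => True) n = M4 Pp n + (M4 Pn n + M4 Pf n) := by
  unfold M4
  rw [← (summ_M4 Pn n).tsum_add (summ_M4 Pf n), ← (summ_M4 Pp n).tsum_add
    ((summ_M4 Pn n).add (summ_M4 Pf n))]
  refine tsum_congr fun q => ?_
  obtain ⟨k, i, l, s⟩ := q
  by_cases h : Cd n (k, i, l, s)
  · simp only [h, true_and, if_true, Pp, Pn, Pf]
    split_ifs <;> omega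
  · simp only [h, false_and, if_false]
    norm_num

theorem M4_fixed {n : ℕ} (hn : n % 4 = 2) : M4 Pf n = tt n := by
  unfold M4 tt
  refine tsum_pb _ _ (fun q => (q.2.2.1, q.2.2.1 + 2 * q.2.2.2 + 2))
    (fun p => ((p.1 + p.2) / 2, p.1, p.1, (p.2 - p.1 - 2) / 2)) ?_ ?_
  · rintro ⟨k, i, l, s⟩ hq
    have hc : Cd n (k, i, l, s) ∧ Pf (k, i, l, s) := by
      by_contra hc
      exact hq (if_neg hc)
    rw [if_pos hc]
    obtain ⟨⟨h1, h2⟩, h3, h4⟩ := hc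
    simp only at h1 h2 h3 h4
    subst h3 h4
    simp only
    constructor
    · rw [if_pos]
      refine ⟨by omega, ?_⟩
      rw [← h2]
      ring
    · refine Prod.ext ?_ (Prod.ext ?_ (Prod.ext ?_ ?_)) <;> simp only <;> omega
  · rintro ⟨a, b⟩ hq
    have hc : a < b ∧ a + (2 * a + 1) * b = n := by
      by_contra hc
      exact hq (if_neg hc)
    rw [if_pos hc]
    obtain ⟨h1, h2⟩ := hc
    obtain ⟨s, rfl⟩ : ∃ s, b = a + 2 * s + 2 := by
      have h3 : (a + b) % 2 = 0 := by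
        have : a + (2 * a + 1) * b = 2 * (a * b) + (a + b) := by ring
        omega
      exact ⟨(b - a - 2) / 2, by omega⟩
    simp only
    rw [show (a + (a + 2 * s + 2)) / 2 = a + s + 1 by omega,
      show (a + 2 * s + 2 - a - 2) / 2 = s by omega]
    constructor
    · rw [if_pos]
      refine ⟨⟨?_, ?_⟩, rfl, rfl⟩
      · simp only; omega
      · simp only
        rw [← h2]
        ring
    · rfl

theorem M4_parity {n : ℕ} (hn : n % 4 = 2) : (2 : ℤ) ∣ M4 (fun _ => True) n - tt n := by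
  rw [M4_split, M4_swap, M4_fixed hn]
  exact ⟨M4 Pn n, by ring⟩

end Pool.Agent.K3h25.CM
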