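import Pool.Agent.K3h25.CM.BSer

/-! The second mock part modulo four, conclusion. -/

open PowerSeries Finset Filter Topology
open scoped PowerSeries.WithPiTopology

namespace Pool.Agent.K3h25.CM

/-- the ratio of the products in the second mock part -/
noncomputable def rr (k : ℕ) : R :=
  I (-X) * Q (-X ^ (2 * k + 3)) * (Q X * I (X ^ (2 * k + 1)))

/-- the ratio without the last factor -/
noncomputable def ss (k : ℕ) : R := (1 + X ^ (2 * k + 1)) * rr k

theorem rr_v (k : ℕ) : rr k = vv k * ss k := by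
  unfold ss
  have := vv_mul k
  linear_combination (-rr k) * this

theorem ss_zero : ss 0 = 1 := by
  unfold ss rr
  have h1 := Q_mul_I (a := (X : R)) (dvd_refl _)
  have h2 := Q_mul_I (a := (-X : R)) X_dvd_negX
  have h3 := Q_succ (-X : R)
  rw [show (-X : R) * X ^ 2 = -X ^ (2 * 0 + 3) by ring] at h3
  rw [h3] at h2
  rw [show 2 * 0 + 1 = 1 by norm_num, pow_one]
  linear_combination Q X * I X * h2 + h1

theorem ss_succ (k : ℕ) : ss (k + 1) = (1 - X ^ (2 * k + 1)) * (vv k * ss k) := by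
  rw [← rr_v]
  unfold ss rr
  have h3 := Q_succ (-X ^ (2 * k + 3) : R)
  rw [show (-X ^ (2 * k + 3) : R) * X ^ 2 = -X ^ (2 * (k + 1) + 3) by ring] at h3
  have h4 : I (X ^ (2 * (k + 1) + 1)) = (1 - X ^ (2 * k + 1)) * I (X ^ (2 * k + 1) : R) := by
    rw [I_succ (X_dvd_pow (2 * k))]
    congr 1
    ring
  rw [h4, h3, show 2 * (k + 1) + 1 = 2 * k + 3 by ring]
  ring

theorem sgm_succ (k : ℕ) : sgm (k + 1) = sgm k + vv k * X ^ (2 * k + 1) := by
  unfold sgm; rw [Finset.sum_range_succ]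

theorem ss_mod (k : ℕ) : ∃ e : R, ss k = 1 - 2 * sgm k + 4 * e := by
  induction k with
  | zero => exact ⟨0, by rw [ss_zero]; simp [sgm]⟩
  | succ k ih =>
    obtain ⟨e, he⟩ := ih
    refine ⟨X ^ (2 * k + 1) * vv k * sgm k + e - 2 * X ^ (2 * k + 1) * vv k * e, ?_⟩
    rw [ss_succ, he, sgm_succ]
    have := vv_mul k
    linear_combination (1 - 2 * sgm k + 4 * e) * this

/-- the second mock part without its product -/
noncomputable def Bm : R := Q X * BB

theorem Bm_eq : Bm = ∑' k : ℕ, (-X) ^ k * (vv k * ss k) := by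
  unfold Bm BB G
  have hs : Summable fun k : ℕ => (-X : R) ^ k * (I (-X ^ (2 * 0 + 1)) *
      Q (-X ^ (2 * (0 + k) + 3)) * I (X ^ (2 * (0 + k) + 1))) := summ fun k => negX_dvd k _
  rw [← hs.tsum_mul_left]
  refine tsum_congr fun k => ?_
  rw [← rr_v]
  unfold rr
  rw [zero_add, show 2 * 0 + 1 = 1 by norm_num, pow_one]
  ring

theorem Bm_mod : ∃ L2 : R, Bm = L0 - 2 * L1 + 4 * L2 := by
  choose e he using ss_mod
  refine ⟨∑' k : ℕ, (-X) ^ k * (vv k * e k), ?_⟩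
  have h0 : Summable fun k : ℕ => (-X : R) ^ k * vv k := summ fun k => negX_dvd k _
  have h1 : Summable fun k : ℕ => (-X : R) ^ k * (vv k * sgm k) := summ fun k => negX_dvd k _
  have h2 : Summable fun k : ℕ => (-X : R) ^ k * (vv k * e k) := summ fun k => negX_dvd k _
  rw [Bm_eq]
  unfold L0 L1
  rw [← h1.tsum_mul_left, ← h2.tsum_mul_left, ← h0.tsum_sub (h1.mul_left _),
    ← (h0.sub (h1.mul_left _)).tsum_add (h2.mul_left _)]
  refine tsum_congr fun k => ?_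
  rw [he]
  ring

theorem Bm_two {n : ℕ} (hn : n % 4 = 2) : (4 : ℤ) ∣ coeff n Bm := by
  obtain ⟨L2, h⟩ := Bm_mod
  rw [h, map_add, map_sub, coeff_nat2, coeff_nat4, coeff_L0, tau_tt (by omega)]
  have h1 : ((-1 : ℤ)) ^ n = 1 := Even.neg_one_pow (Nat.even_iff.2 (by omega))
  have h2 := L1_parity n
  have h3 := M4_parity hn
  rw [h1]
  omega

theorem Bm_odd {n : ℕ} (hn : ¬ 4 ∣ n) : (2 : ℤ) ∣ coeff n Bm := by
  obtain ⟨L2, h⟩ := Bm_mod
  rw [h, map_add, map_sub, coeff_nat2, coeff_nat4, coeff_L0, tau_tt hn]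
  exact dvd_add (dvd_sub (Dvd.dvd.mul_left (dvd_mul_right _ _) _) (dvd_mul_right _ _))
    (Dvd.dvd.mul_right (by norm_num) _)

/-- the series `D` -/
noncomputable def dd : R := X * Q (-X ^ 2) * I X * BB

theorem dd_eq : phm * dd = X * (ex4 E1 * Bm) := by
  have h1 := Q_mul_I (a := (X : R)) (dvd_refl _)
  rw [phm_eq, ex4_E1]
  unfold dd E4 Bm
  linear_combination (Q (X ^ 2) * Q X * X * Q (-X ^ 2) * BB) * h1

theorem phm_theta : ∃ θ : R, phm = 1 + 2 * θ ∧ ∀ n, n % 4 = 2 ∨ n % 4 = 3 → coeff n θ = 0 := by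
  refine ⟨_, rfl, fun n hn => ?_⟩
  have e : ∀ r : ℕ, ((-1 : R)) ^ (r + 1) * X ^ ((r + 1) ^ 2) =
      X ^ ((r + 1) ^ 2) * (((-1) ^ (r + 1) : ℤ) : R) := by
    intro r; push_cast; ring
  rw [tsum_congr e, coeff_tsum (summ fun k => Dvd.dvd.mul_right (pow_dvd_pow _ (by nlinarith)) _)]
  rw [tsum_congr (g := fun _ => (0 : ℤ)), tsum_zero]
  intro k
  rw [coeff_cast_X, if_neg]
  intro h
  rw [← h, pow_two] at hn
  have h3 : (k + 1) % 4 = 0 ∨ (k + 1) % 4 = 1 ∨ (k + 1) % 4 = 2 ∨ (k + 1) % 4 = 3 := by omega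
  rcases h3 with h3 | h3 | h3 | h3 <;> rw [Nat.mul_mod, h3] at hn <;> norm_num at hn

theorem phB (m : ℕ) : (4 : ℤ) ∣ coeff (4 * m + 2) (phm * Bm) := by
  obtain ⟨θ, h1, h2⟩ := phm_theta
  rw [h1, show (1 + 2 * θ) * Bm = Bm + 2 * (θ * Bm) by ring, map_add, coeff_nat2]
  have h3 : (2 : ℤ) ∣ coeff (4 * m + 2) (θ * Bm) := by
    rw [coeff_mul]
    refine Finset.dvd_sum fun p hp => ?_
    rw [HasAntidiagonal.mem_antidiagonal] at hp
    by_cases h : p.1 % 4 = 2 ∨ p.1 % 4 = 3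
    · rw [h2 _ h, zero_mul]; exact dvd_zero 2
    · exact Dvd.dvd.mul_left (Bm_odd (by omega)) _
  have h4 := Bm_two (n := 4 * m + 2) (by omega)
  omega

theorem dd_three (m : ℕ) : (4 : ℤ) ∣ coeff (4 * m + 3) dd := by
  obtain ⟨κ, hκ⟩ := phm_sq
  have h1 : dd = X * (ex4 E1 * (phm * Bm)) + 4 * (-κ * dd) := by
    have := dd_eq
    linear_combination phm * this - dd * hκ
  rw [h1, map_add, coeff_nat4]
  refine dvd_add ?_ (dvd_mul_right _ _)
  rw [show 4 * m + 3 = (4 * m + 2) + 1 by ring, coeff_succ_X_mul, ← coeff_sect,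
    sect_mul (by norm_num), coeff_mul]
  refine Finset.dvd_sum fun p _ => ?_
  rw [coeff_sect]
  exact Dvd.dvd.mul_left (phB _) _

end Pool.Agent.K3h25.CM
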