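import Pool.Agent.K3h25.CM.BComb

/-! The second mock part modulo four. -/

open PowerSeries Finset Filter Topology
open scoped PowerSeries.WithPiTopology

namespace Pool.Agent.K3h25.CM

/-- `1 / (1 + q^(2k+1))` -/
noncomputable def vv (k : ℕ) : R := Iv (1 + X ^ (2 * k + 1))

theorem vv_mul (k : ℕ) : (1 + X ^ (2 * k + 1)) * vv k = 1 := mul_Iv (one_add_cc k)

theorem vv_series (k : ℕ) : vv k = ∑' l : ℕ, X ^ ((2 * k + 1) * l) * (((-1) ^ l : ℤ) : R) := by
  have hs : Summable fun l : ℕ => X ^ ((2 * k + 1) * l) * (((-1) ^ l : ℤ) : R) :=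
    summ fun l => Dvd.dvd.mul_right (pow_dvd_pow _ (by nlinarith [Nat.zero_le (k * l)])) _
  have h2 : (1 + X ^ (2 * k + 1)) * ∑' l : ℕ, X ^ ((2 * k + 1) * l) * (((-1) ^ l : ℤ) : R) = 1 := by
    rw [add_mul, one_mul, ← hs.tsum_mul_left, hs.tsum_eq_zero_add]
    have : ∀ l : ℕ, (X : R) ^ (2 * k + 1) * (X ^ ((2 * k + 1) * l) * (((-1) ^ l : ℤ) : R)) =
        - (X ^ ((2 * k + 1) * (l + 1)) * (((-1) ^ (l + 1) : ℤ) : R)) := by
      intro l
      push_cast
      ring
    rw [tsum_congr this, tsum_neg]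
    simp
  have h1 := vv_mul k
  linear_combination (∑' l : ℕ, X ^ ((2 * k + 1) * l) * (((-1) ^ l : ℤ) : R)) * h1 - vv k * h2

theorem cf_Xpow (a : ℕ) (m : ℤ) : cf (X ^ a) m = if (a : ℤ) = m then 1 else 0 := by
  unfold cf
  split_ifs with h1 h2 h2
  · rw [coeff_X_pow, if_pos (by omega)]
  · rw [coeff_X_pow, if_neg (by omega)]
  · omega
  · rfl

theorem coeff_v (a k n : ℕ) : coeff n (vv k * X ^ a) = ∑' l : ℕ,
    if a + (2 * k + 1) * l = n then (-1) ^ l else 0 := by
  rw [vv_series, theta_coeff (fun l => (2 * k + 1) * l)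
    (fun l => by nlinarith [Nat.zero_le (k * l)]) (fun l => (-1) ^ l)]
  refine tsum_congr fun l => ?_
  rw [cf_Xpow, mul_ite, mul_one, mul_zero]
  refine if_congr ?_ rfl rfl
  constructor
  · intro h
    have : ((a + (2 * k + 1) * l : ℕ) : ℤ) = n := by push_cast at h ⊢; linarith
    exact_mod_cast this
  · intro h
    rw [← h]
    push_cast
    ring

theorem coeff_vv (a k i n : ℕ) : coeff n (vv k * (vv i * X ^ a)) = ∑' l : ℕ, ∑' s : ℕ,
    if a + (2 * k + 1) * l + (2 * i + 1) * s = n then (-1) ^ l * (-1) ^ s else 0 := by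
  rw [vv_series k, theta_coeff (fun l => (2 * k + 1) * l)
    (fun l => by nlinarith [Nat.zero_le (k * l)]) (fun l => (-1) ^ l)]
  refine tsum_congr fun l => ?_
  by_cases h : (2 * k + 1) * l ≤ n
  · obtain ⟨m, rfl⟩ := Nat.exists_eq_add_of_le h
    rw [show (((2 * k + 1) * l + m : ℕ) : ℤ) - (((2 * k + 1) * l : ℕ) : ℤ) = ((m : ℕ) : ℤ) by
      push_cast; ring, cf_nat, coeff_v]
    rw [← Summable.tsum_mul_left]
    · refine tsum_congr fun s => ?_
      rw [mul_ite, mul_zero]
      refine if_congr ?_ rfl rfl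
      constructor <;> intro h <;> linarith
    · refine summable_of_ne_finset_zero (s := range (m + 1)) fun s hs => ?_
      rw [if_neg]
      intro h
      apply hs
      rw [Finset.mem_range]
      nlinarith [Nat.zero_le (i * s)]
  · have h' : (n : ℤ) < (((2 * k + 1) * l : ℕ) : ℤ) := by exact_mod_cast (not_le.1 h)
    rw [cf_neg _ (by linarith), mul_zero]
    symm
    have : ∀ s : ℕ, (if a + (2 * k + 1) * l + (2 * i + 1) * s = n then
        ((-1 : ℤ)) ^ l * (-1) ^ s else 0) = 0 := by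
      intro s
      rw [if_neg]
      intro h2
      apply h
      rw [← h2]
      nlinarith [Nat.zero_le ((2 * i + 1) * s)]
    rw [tsum_congr this, tsum_zero]

/-- the leading part -/
noncomputable def L0 : R := ∑' k : ℕ, (-X) ^ k * vv k

/-- `σ_k` -/
noncomputable def sgm (k : ℕ) : R := ∑ i ∈ range k, vv i * X ^ (2 * i + 1)

/-- the second part -/
noncomputable def L1 : R := ∑' k : ℕ, (-X) ^ k * (vv k * sgm k)

theorem neg_one_pow_add (k l : ℕ) : ((-1 : ℤ)) ^ k * (-1) ^ l = (-1) ^ (k + (2 * k + 1) * l) := by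
  rw [pow_add, pow_mul, Odd.neg_one_pow ⟨k, rfl⟩]

theorem coeff_negX (n k : ℕ) (F : R) : coeff n ((-X) ^ k * F) = (-1) ^ k * coeff n (F * X ^ k) := by
  have : (-X : R) ^ k * F = (((-1) ^ k : ℤ) : R) * (F * X ^ k) := by
    rw [neg_pow]; push_cast; ring
  rw [this, coeff_int_mul]

theorem coeff_L0 (n : ℕ) : coeff n L0 = (-1) ^ n * tau n := by
  unfold L0
  rw [coeff_tsum (summ fun k => negX_dvd k _)]
  have h1 : ∀ k : ℕ, coeff n ((-X : R) ^ k * vv k) = ∑' l : ℕ,
      (-1) ^ n * (if k + (2 * k + 1) * l = n then 1 else 0) := by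
    intro k
    rw [coeff_negX, coeff_v, ← Summable.tsum_mul_left]
    · refine tsum_congr fun l => ?_
      split_ifs with h
      · rw [neg_one_pow_add, h, mul_one]
      · simp
    · refine summable_of_ne_finset_zero (s := range (n + 1)) fun s hs => ?_
      rw [if_neg]
      intro h
      apply hs
      rw [Finset.mem_range]
      nlinarith [Nat.zero_le (k * s)]
  rw [tsum_congr h1]
  unfold tau
  have hs : Summable (fun q : ℕ × ℕ => if q.1 + (2 * q.1 + 1) * q.2 = n then (1 : ℤ) else 0) := by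
    refine summ_nbox2 n fun k l h => ?_
    simp only at h
    split_ifs at h with hc
    · exact bnd2 hc
    · exact absurd rfl h
  rw [← hs.tsum_mul_left]
  symm
  refine (hs.mul_left _).tsum_prod' fun k => ?_
  refine summable_of_ne_finset_zero (s := range (n + 1)) fun s hs => ?_
  simp only
  rw [if_neg, mul_zero]
  intro h
  apply hs
  rw [Finset.mem_range]
  nlinarith [Nat.zero_le (k * s)]

theorem tsum4 {g : ℕ → ℕ → ℕ → ℕ → ℤ} (B : ℕ)
    (h : ∀ k i l s, g k i l s ≠ 0 → k ≤ B ∧ i ≤ B ∧ l ≤ B ∧ s ≤ B) :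
    ∑' k, ∑' i, ∑' l, ∑' s, g k i l s =
      ∑' q : ℕ × ℕ × ℕ × ℕ, g q.1 q.2.1 q.2.2.1 q.2.2.2 := by
  have hs : Summable (fun q : ℕ × ℕ × ℕ × ℕ => g q.1 q.2.1 q.2.2.1 q.2.2.2) :=
    summ_nbox4 B fun k i l s h' => h k i l s h'
  symm
  have h3 : ∀ k, Summable (fun q : ℕ × ℕ × ℕ => g k q.1 q.2.1 q.2.2) := by
    intro k
    refine summable_of_ne_finset_zero
      (s := range (B + 1) ×ˢ range (B + 1) ×ˢ range (B + 1)) fun p hp => ?_
    by_contra h1
    apply hp
    have h2 := h k _ _ _ h1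
    simp only [Finset.mem_product, Finset.mem_range]
    omega
  have h2 : ∀ k i, Summable (fun q : ℕ × ℕ => g k i q.1 q.2) := by
    intro k i
    refine summ_nbox2 B fun l s h' => ?_
    have := h k i l s h'
    omega
  have h1 : ∀ k i l, Summable (fun s : ℕ => g k i l s) := by
    intro k i l
    refine summable_of_ne_finset_zero (s := range (B + 1)) fun s hs => ?_
    by_contra h1
    apply hs
    have h2 := h k i l s h1
    rw [Finset.mem_range]
    omega
  rw [hs.tsum_prod' h3]
  refine tsum_congr fun k => ?_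
  rw [(h3 k).tsum_prod' (h2 k)]
  refine tsum_congr fun i => ?_
  exact (h2 k i).tsum_prod' (h1 k i)

theorem coeff_L1 (n : ℕ) : coeff n L1 = ∑' q : ℕ × ℕ × ℕ × ℕ,
    if Cd n q then (-1) ^ q.1 * ((-1) ^ q.2.2.1 * (-1) ^ q.2.2.2) else 0 := by
  unfold L1
  rw [coeff_tsum (summ fun k => negX_dvd k _)]
  have h1 : ∀ k : ℕ, coeff n ((-X : R) ^ k * (vv k * sgm k)) = ∑' i : ℕ, ∑' l : ℕ, ∑' s : ℕ,
      if Cd n (k, i, l, s) then (-1) ^ k * ((-1) ^ l * (-1) ^ s) else 0 := by
    intro k
    rw [coeff_negX]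
    unfold sgm
    rw [Finset.mul_sum, Finset.sum_mul, map_sum, Finset.mul_sum]
    symm
    rw [tsum_eq_sum (s := range k)]
    · refine Finset.sum_congr rfl fun i hi => ?_
      rw [Finset.mem_range] at hi
      rw [show vv k * (vv i * X ^ (2 * i + 1)) * X ^ k = vv k * (vv i * X ^ (k + 2 * i + 1)) by
        rw [mul_assoc, mul_assoc, ← pow_add]; congr 3; ring, coeff_vv]
      rw [← Summable.tsum_mul_left]
      · refine tsum_congr fun l => ?_
        rw [← Summable.tsum_mul_left]
        · refine tsum_congr fun s => ?_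
          rw [mul_ite, mul_zero]
          refine if_congr ?_ rfl rfl
          unfold Cd
          simp only
          constructor
          · rintro ⟨_, h⟩
            rw [← h]; ring
          · intro h
            refine ⟨hi, ?_⟩
            rw [← h]; ring
        · refine summable_of_ne_finset_zero (s := range (n + 1)) fun s hs => ?_
          rw [if_neg]
          intro h
          apply hs
          rw [Finset.mem_range]
          nlinarith [Nat.zero_le (i * s), Nat.zero_le (k * l)]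
      · refine summable_of_ne_finset_zero (s := range (n + 1)) fun l hl => ?_
        have : ∀ s : ℕ, (if k + 2 * i + 1 + (2 * k + 1) * l + (2 * i + 1) * s = n then
            ((-1 : ℤ)) ^ l * (-1) ^ s else 0) = 0 := by
          intro s
          rw [if_neg]
          intro h
          apply hl
          rw [Finset.mem_range]
          nlinarith [Nat.zero_le (i * s), Nat.zero_le (k * l)]
        rw [tsum_congr this, tsum_zero]
    · intro i hi
      rw [Finset.mem_range] at hi
      have : ∀ l s : ℕ, (if Cd n (k, i, l, s) then ((-1 : ℤ)) ^ k * ((-1) ^ l * (-1) ^ s)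
          else 0) = 0 := by
        intro l s
        rw [if_neg]
        rintro ⟨h, _⟩
        exact hi h
      simp only [this, tsum_zero]
  rw [tsum_congr h1, tsum4 (g := fun k i l s => if Cd n (k, i, l, s) then
    (-1) ^ k * ((-1) ^ l * (-1) ^ s) else 0) n]
  intro k i l s h
  refine bnd4 (n := n) ?_
  by_contra hc
  exact h (if_neg hc)

theorem neg_one_pow_odd (k : ℕ) : ((-1 : ℤ)) ^ k = 1 ∨ ((-1 : ℤ)) ^ k = -1 := neg_one_pow_eq_or ℤ k

theorem L1_parity (n : ℕ) : (2 : ℤ) ∣ coeff n L1 - M4 (fun _ => True) n := by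
  rw [coeff_L1]
  unfold M4
  have hs : Summable (fun q : ℕ × ℕ × ℕ × ℕ => if Cd n q then
      ((-1 : ℤ)) ^ q.1 * ((-1) ^ q.2.2.1 * (-1) ^ q.2.2.2) else 0) := by
    refine summ_nbox4 n fun k i l s h => bnd4 (n := n) ?_
    by_contra hc
    exact h (if_neg hc)
  rw [← hs.tsum_sub (summ_M4 _ n)]
  refine dvd_tsum_int fun q => ?_
  by_cases h : Cd n q
  · rw [if_pos h, if_pos ⟨h, trivial⟩]
    rcases neg_one_pow_odd q.1 with h1 | h1 <;> rcases neg_one_pow_odd q.2.2.1 with h2 | h2 <;>
      rcases neg_one_pow_odd q.2.2.2 with h3 | h3 <;> rw [h1, h2, h3] <;> norm_num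
  · rw [if_neg h, if_neg (fun h' => h h'.1)]
    norm_num

end Pool.Agent.K3h25.CM
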