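import Mathlib

/-! Adic lemmas for power series over the integers; infinite products in base `X^2`. -/

open PowerSeries Finset Filter Topology
open scoped PowerSeries.WithPiTopology

namespace Pool.Agent.K3h25.CM

abbrev R := PowerSeries ℤ

theorem ext_dvd {a b : R} (h : ∀ N : ℕ, (X : R) ^ N ∣ a - b) : a = b := by
  rw [← sub_eq_zero]
  ext n
  have := (X_pow_dvd_iff.1 (h (n + 1))) n (Nat.lt_succ_self n)
  simpa using this

theorem lim_dvd {u : ℕ → R} {L : R} (hu : Tendsto u atTop (𝓝 L)) {N : ℕ}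
    (h : ∀ M, N ≤ M → (X : R) ^ N ∣ u M - u N) : (X : R) ^ N ∣ L - u N := by
  rw [X_pow_dvd_iff]
  intro m hm
  have h1 : Tendsto (fun M => coeff m (u M)) atTop (𝓝 (coeff m L)) :=
    ((WithPiTopology.continuous_coeff ℤ m).tendsto L).comp hu
  have h2 : ∀ᶠ M in atTop, coeff m (u M) = coeff m (u N) := by
    filter_upwards [eventually_ge_atTop N] with M hM
    have := (X_pow_dvd_iff.1 (h M hM)) m hm
    rw [map_sub] at this
    linarith
  have h3 : Tendsto (fun M => coeff m (u M)) atTop (𝓝 (coeff m (u N))) :=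
    tendsto_const_nhds.congr' (by filter_upwards [h2] with M hM using hM.symm)
  have h4 := tendsto_nhds_unique h1 h3
  rw [map_sub, h4, sub_self]

theorem order_top {f : ℕ → R} (hf : ∀ m, (X : R) ^ m ∣ f m) :
    Tendsto (fun n => (f n).order) atTop (𝓝 ⊤) := by
  refine ENat.tendsto_nhds_top_iff_natCast_lt.mpr fun n ↦ eventually_atTop.mpr ⟨n + 1, ?_⟩
  intro m hm
  have h1 : (m : ℕ∞) ≤ (f m).order := by
    refine le_order _ _ fun i hi => ?_
    exact (X_pow_dvd_iff.1 (hf m)) i (by exact_mod_cast hi)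
  refine lt_of_lt_of_le ?_ h1
  exact_mod_cast hm

theorem summ {f : ℕ → R} (hf : ∀ m, (X : R) ^ m ∣ f m) : Summable f :=
  WithPiTopology.summable_of_tendsto_order_atTop_nhds_top ℤ (order_top hf)

theorem sum_range_dvd {f : ℕ → R} (hf : ∀ m, (X : R) ^ m ∣ f m) {N M : ℕ} (h : N ≤ M) :
    (X : R) ^ N ∣ (∑ m ∈ range M, f m) - ∑ m ∈ range N, f m := by
  rw [← Finset.sum_range_add_sum_Ico _ h, add_sub_cancel_left]
  refine Finset.dvd_sum fun i hi => ?_
  exact (pow_dvd_pow _ (Finset.mem_Ico.1 hi).1).trans (hf i)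

theorem tsum_dvd {f : ℕ → R} (hf : ∀ m, (X : R) ^ m ∣ f m) (N : ℕ) :
    (X : R) ^ N ∣ (∑' m, f m) - ∑ m ∈ range N, f m :=
  lim_dvd (u := fun N => ∑ m ∈ range N, f m) (summ hf).hasSum.tendsto_sum_nat
    fun _ hM => sum_range_dvd hf hM

theorem tele {f V : ℕ → R} {L : R} (h : ∀ m, f m = V m - V (m + 1))
    (hV : ∀ m, (X : R) ^ m ∣ V m - L) : ∑' m, f m = V 0 - L := by
  have hf : ∀ m, (X : R) ^ m ∣ f m := by
    intro m
    have : f m = (V m - L) - (V (m + 1) - L) := by rw [h]; ring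
    rw [this]
    exact dvd_sub (hV m) ((pow_dvd_pow _ (Nat.le_succ m)).trans (hV (m + 1)))
  refine ext_dvd fun N => ?_
  have h1 := tsum_dvd hf N
  have h2 : ∑ m ∈ range N, f m = V 0 - V N := by
    rw [Finset.sum_congr rfl (fun m _ => h m)]
    exact Finset.sum_range_sub' V N
  rw [h2] at h1
  have : ∑' m, f m - (V 0 - L) = (∑' m, f m - (V 0 - V N)) - (V N - L) := by ring
  rw [this]
  exact dvd_sub h1 (hV N)

theorem tsum_small {f : ℕ → R} (hf : ∀ m, (X : R) ^ m ∣ f m) {N : ℕ}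
    (h : ∀ m, (X : R) ^ N ∣ f m) : (X : R) ^ N ∣ ∑' m, f m := by
  have h1 := tsum_dvd hf N
  have h2 : (X : R) ^ N ∣ ∑ m ∈ range N, f m := Finset.dvd_sum fun i _ => h i
  have := dvd_add h1 h2
  simpa using this

theorem mult {g : ℕ → R} (hg : ∀ m, (X : R) ^ m ∣ g m - 1) : Multipliable g := by
  have := WithPiTopology.multipliable_one_add_of_tendsto_order_atTop_nhds_top ℤ (order_top hg)
  simpa using this

theorem prod_range_dvd {g : ℕ → R} (hg : ∀ m, (X : R) ^ m ∣ g m - 1) {N M : ℕ} (h : N ≤ M) :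
    (X : R) ^ N ∣ (∏ m ∈ range M, g m) - ∏ m ∈ range N, g m := by
  induction M, h using Nat.le_induction with
  | base => simp
  | succ M hM ih =>
    rw [Finset.prod_range_succ]
    have : (∏ m ∈ range M, g m) * g M - ∏ m ∈ range N, g m =
      ((∏ m ∈ range M, g m) - ∏ m ∈ range N, g m) + (∏ m ∈ range M, g m) * (g M - 1) := by ring
    rw [this]
    exact dvd_add ih (Dvd.dvd.mul_left ((pow_dvd_pow _ hM).trans (hg M)) _)

theorem tprod_dvd {g : ℕ → R} (hg : ∀ m, (X : R) ^ m ∣ g m - 1) (N : ℕ) :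
    (X : R) ^ N ∣ (∏' m, g m) - ∏ m ∈ range N, g m :=
  lim_dvd (u := fun N => ∏ m ∈ range N, g m) (mult hg).hasProd.tendsto_prod_nat
    fun _ hM => prod_range_dvd hg hM

/-- `(a;X^2)_∞` -/
noncomputable def Q (a : R) : R := ∏' i : ℕ, (1 - a * X ^ (2 * i))

theorem Q_aux (a : R) (m : ℕ) : (X : R) ^ m ∣ (1 - a * X ^ (2 * m)) - 1 := by
  have : (1 - a * X ^ (2 * m)) - 1 = X ^ m * (- a * X ^ m) := by
    rw [two_mul, pow_add]; ring
  rw [this]
  exact dvd_mul_right _ _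

theorem Q_dvd (a : R) (N : ℕ) : (X : R) ^ N ∣ Q a - ∏ i ∈ range N, (1 - a * X ^ (2 * i)) :=
  tprod_dvd (Q_aux a) N

theorem Q_succ (a : R) : Q a = (1 - a) * Q (a * X ^ 2) := by
  refine ext_dvd fun N => ?_
  have h1 := (pow_dvd_pow (X : R) (Nat.le_succ N)).trans (Q_dvd a (N + 1))
  have h2 := Q_dvd (a * X ^ 2) N
  rw [Finset.prod_range_succ'] at h1
  have e : ∀ k ∈ range N, (1 - a * X ^ (2 * (k + 1))) = (1 - a * (X : R) ^ 2 * X ^ (2 * k)) := by
    intro k _
    rw [mul_assoc, ← pow_add]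
    congr 3
    ring
  rw [Finset.prod_congr rfl e] at h1
  simp only [mul_zero, pow_zero, mul_one] at h1
  have : Q a - (1 - a) * Q (a * X ^ 2) =
    (Q a - (∏ k ∈ range N, (1 - a * (X : R) ^ 2 * X ^ (2 * k))) * (1 - a)) -
      (1 - a) * (Q (a * X ^ 2) - ∏ k ∈ range N, (1 - a * (X : R) ^ 2 * X ^ (2 * k))) := by ring
  rw [this]
  exact dvd_sub h1 (Dvd.dvd.mul_left h2 _)

theorem Q_small {a : R} {N : ℕ} (h : (X : R) ^ N ∣ a) : (X : R) ^ N ∣ Q a - 1 := by
  have h1 := Q_dvd a N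
  have h2 : (X : R) ^ N ∣ ∏ i ∈ range N, (1 - a * X ^ (2 * i)) - 1 := by
    have : ∀ M : ℕ, (X : R) ^ N ∣ ∏ i ∈ range M, (1 - a * X ^ (2 * i)) - 1 := by
      intro M
      induction M with
      | zero => simp
      | succ M ih =>
        rw [Finset.prod_range_succ]
        have : (∏ i ∈ range M, (1 - a * (X : R) ^ (2 * i))) * (1 - a * X ^ (2 * M)) - 1 =
          ((∏ i ∈ range M, (1 - a * (X : R) ^ (2 * i))) - 1) -
            a * ((∏ i ∈ range M, (1 - a * (X : R) ^ (2 * i))) * X ^ (2 * M)) := by ring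
        rw [this]
        exact dvd_sub ih (Dvd.dvd.mul_right h _)
    exact this N
  have : Q a - 1 = (Q a - ∏ i ∈ range N, (1 - a * X ^ (2 * i))) +
    (∏ i ∈ range N, (1 - a * X ^ (2 * i)) - 1) := by ring
  rw [this]
  exact dvd_add h1 h2

theorem Q_cc {a : R} (h : (X : R) ∣ a) : constantCoeff (Q a) = 1 := by
  have h1 : (X : R) ^ 1 ∣ Q a - 1 := Q_small (by simpa using h)
  rw [pow_one, X_dvd_iff, map_sub, map_one] at h1
  linarith

/-- inverse of a series with constant coefficient one -/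
noncomputable def Iv (f : R) : R := invOfUnit f 1

theorem mul_Iv {f : R} (h : constantCoeff f = 1) : f * Iv f = 1 := by
  unfold Iv
  exact mul_invOfUnit f 1 (by simpa using h)

theorem Iv_cc {f : R} (h : constantCoeff f = 1) : constantCoeff (Iv f) = 1 := by
  have := congrArg (constantCoeff (R := ℤ)) (mul_Iv h)
  rw [map_mul, h, one_mul, map_one] at this
  exact this

theorem Iv_small {f : R} (h : constantCoeff f = 1) {N : ℕ} (h1 : (X : R) ^ N ∣ f - 1) :
    (X : R) ^ N ∣ Iv f - 1 := by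
  have : Iv f - 1 = - (f - 1) * Iv f := by
    have := mul_Iv h
    linear_combination this
  rw [this]
  exact Dvd.dvd.mul_right (by rw [dvd_neg]; exact h1) _

/-- `1/(a;X^2)_∞` -/
noncomputable def I (a : R) : R := Iv (Q a)

theorem Q_mul_I {a : R} (h : (X : R) ∣ a) : Q a * I a = 1 := mul_Iv (Q_cc h)

theorem I_succ {a : R} (h : (X : R) ∣ a) : (1 - a) * I a = I (a * X ^ 2) := by
  have h1 := Q_mul_I h
  have h2 := Q_mul_I (a := a * X ^ 2) (Dvd.dvd.mul_right h _)
  rw [Q_succ] at h1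
  calc (1 - a) * I a = (1 - a) * I a * (Q (a * X ^ 2) * I (a * X ^ 2)) := by rw [h2, mul_one]
    _ = ((1 - a) * Q (a * X ^ 2) * I a) * I (a * X ^ 2) := by ring
    _ = _ := by rw [h1, one_mul]

theorem I_small {a : R} {N : ℕ} (h : (X : R) ^ (N + 1) ∣ a) : (X : R) ^ N ∣ I a - 1 := by
  have h0 : (X : R) ∣ a := (dvd_pow_self _ (Nat.succ_ne_zero N)).trans h
  exact Iv_small (Q_cc h0) (Q_small ((pow_dvd_pow _ (Nat.le_succ N)).trans h))

end Pool.Agent.K3h25.CM
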