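import Pool.Agent.K3h25.CM.Base

/-! The identity `C = -q ω(-q) + 2 D`. -/

open PowerSeries Finset Filter Topology
open scoped PowerSeries.WithPiTopology

namespace Pool.Agent.K3h25.CM

/-- solution of `(1+q^(2j+1)) G_j + q G_(j+1) = y_j` -/
noncomputable def G (y : ℕ → R) (j : ℕ) : R :=
  ∑' k : ℕ, (-X) ^ k * (I (-X ^ (2 * j + 1)) * Q (-X ^ (2 * (j + k) + 3)) * y (j + k))

theorem negX_dvd (k : ℕ) (a : R) : (X : R) ^ k ∣ (-X) ^ k * a := by
  rw [neg_pow, mul_comm ((-1 : R) ^ k), mul_assoc]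
  exact dvd_mul_right _ _

theorem X_dvd_pow (k : ℕ) : (X : R) ∣ X ^ (k + 1) := dvd_pow_self _ (Nat.succ_ne_zero k)

theorem X_dvd_npow (k : ℕ) : (X : R) ∣ -X ^ (k + 1) := by
  rw [dvd_neg]; exact X_dvd_pow k

theorem G_rec (y : ℕ → R) (j : ℕ) :
    (1 + X ^ (2 * j + 1)) * G y j + X * G y (j + 1) = y j := by
  unfold G
  have hs : ∀ j, Summable fun k : ℕ => (-X : R) ^ k *
      (I (-X ^ (2 * j + 1)) * Q (-X ^ (2 * (j + k) + 3)) * y (j + k)) :=
    fun j => summ fun k => negX_dvd k _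
  rw [← (hs j).tsum_mul_left, ← (hs (j + 1)).tsum_mul_left]
  have e1 : (1 + X ^ (2 * j + 1)) * I (-X ^ (2 * j + 1)) = I (-X ^ (2 * j + 3)) := by
    have := I_succ (X_dvd_npow (2 * j))
    rw [sub_neg_eq_add] at this
    rw [this]
    congr 1
    ring
  have h2 : ∀ k, (1 + (X : R) ^ (2 * j + 1)) * ((-X : R) ^ k *
      (I (-X ^ (2 * j + 1)) * Q (-X ^ (2 * (j + k) + 3)) * y (j + k))) =
      (-X : R) ^ k * (I (-X ^ (2 * j + 3)) * Q (-X ^ (2 * (j + k) + 3)) * y (j + k)) := by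
    intro k
    rw [← e1]; ring
  have hs2 : Summable fun k : ℕ => (-X : R) ^ k *
      (I (-X ^ (2 * j + 3)) * Q (-X ^ (2 * (j + k) + 3)) * y (j + k)) :=
    summ fun k => negX_dvd k _
  rw [tsum_congr h2, hs2.tsum_eq_zero_add]
  have e0 : I (-X ^ (2 * j + 3)) * Q (-X ^ (2 * (j + 0) + 3)) = 1 := by
    rw [mul_comm, add_zero]
    exact Q_mul_I (X_dvd_npow (2 * j + 2))
  rw [e0, pow_zero, one_mul, one_mul, add_zero, add_assoc]
  have : (∑' b : ℕ, (-X : R) ^ (b + 1) *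
      (I (-X ^ (2 * j + 3)) * Q (-X ^ (2 * (j + (b + 1)) + 3)) * y (j + (b + 1)))) =
      - ∑' i : ℕ, X * ((-X : R) ^ i * (I (-X ^ (2 * (j + 1) + 1)) *
        Q (-X ^ (2 * (j + 1 + i) + 3)) * y (j + 1 + i))) := by
    rw [← tsum_neg]
    refine tsum_congr fun b => ?_
    rw [show j + (b + 1) = j + 1 + b by ring, show 2 * (j + 1) + 1 = 2 * j + 3 by ring]
    ring
  rw [this, neg_add_cancel, add_zero]

theorem one_add_cc (j : ℕ) : constantCoeff (1 + X ^ (2 * j + 1) : R) = 1 := by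
  simp

theorem uniq {u v y : ℕ → R}
    (hu : ∀ j, (1 + X ^ (2 * j + 1)) * u j + X * u (j + 1) = y j)
    (hv : ∀ j, (1 + X ^ (2 * j + 1)) * v j + X * v (j + 1) = y j) (j : ℕ) : u j = v j := by
  refine ext_dvd fun N => ?_
  induction N generalizing j with
  | zero => simp
  | succ N ih =>
    obtain ⟨w, hw⟩ := ih (j + 1)
    have h1 := mul_Iv (one_add_cc j)
    refine ⟨- (Iv (1 + X ^ (2 * j + 1)) * w), ?_⟩
    have e : (1 + X ^ (2 * j + 1)) * (u j - v j) = - (X * (X ^ N * w)) := by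
      rw [← hw]
      linear_combination hu j - hv j
    calc u j - v j = ((1 + X ^ (2 * j + 1)) * Iv (1 + X ^ (2 * j + 1))) * (u j - v j) := by
          rw [h1, one_mul]
      _ = Iv (1 + X ^ (2 * j + 1)) * ((1 + X ^ (2 * j + 1)) * (u j - v j)) := by ring
      _ = _ := by rw [e]; ring

/-- the family that contains the series `C` -/
noncomputable def CC (j : ℕ) : R :=
  ∑' m : ℕ, X ^ (2 * m + 1) * (Q (-X ^ (2 * m + 2)) * I (X ^ (2 * m + 1)) *
    I (X ^ (2 * (m + j) + 1)))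

theorem X_odd_dvd (m : ℕ) (a : R) : (X : R) ^ m ∣ X ^ (2 * m + 1) * a :=
  Dvd.dvd.mul_right (pow_dvd_pow _ (by omega)) _

theorem Q_neg_one : Q (-1) = 2 * Q (-X ^ 2) := by
  rw [Q_succ, sub_neg_eq_add, neg_one_mul]
  norm_num

theorem CC_rec (j : ℕ) : (1 + X ^ (2 * j + 1)) * CC j + X * CC (j + 1) =
    2 * X * Q (-X ^ 2) * I X * I (X ^ (2 * j + 1)) - X := by
  unfold CC
  have hs : ∀ j, Summable fun m : ℕ => (X : R) ^ (2 * m + 1) * (Q (-X ^ (2 * m + 2)) *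
      I (X ^ (2 * m + 1)) * I (X ^ (2 * (m + j) + 1))) :=
    fun j => summ fun k => X_odd_dvd k _
  rw [← (hs j).tsum_mul_left, ← (hs (j + 1)).tsum_mul_left,
    ← ((hs j).mul_left _).tsum_add ((hs (j + 1)).mul_left _)]
  have hI : ∀ n : ℕ, I (X ^ (2 * n + 3)) = (1 - X ^ (2 * n + 1)) * I (X ^ (2 * n + 1) : R) := by
    intro n
    rw [I_succ (X_dvd_pow (2 * n))]
    congr 1
    ring
  have hQ : ∀ n : ℕ, Q (-X ^ (2 * n) : R) = (1 + X ^ (2 * n)) * Q (-X ^ (2 * n + 2)) := by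
    intro n
    rw [Q_succ, sub_neg_eq_add]
    congr 2
    ring
  rw [tele (V := fun m => X * (Q (-X ^ (2 * m)) * I (X ^ (2 * m + 1)) *
    I (X ^ (2 * (m + j) + 1)))) (L := X)]
  · simp only [mul_zero, pow_zero, zero_add, pow_one]
    rw [Q_neg_one]
    ring
  · intro m
    rw [show 2 * (m + 1) + 1 = 2 * m + 3 by ring, show 2 * (m + 1 + j) + 1 = 2 * (m + j) + 3 by ring,
      show 2 * (m + (j + 1)) + 1 = 2 * (m + j) + 3 by ring, show 2 * (m + 1) = 2 * m + 2 by ring,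
      hI m, hI (m + j), hQ m]
    ring
  · intro m
    have h1 : (X : R) ^ m ∣ Q (-X ^ (2 * m)) - 1 :=
      Q_small (by rw [dvd_neg]; exact pow_dvd_pow _ (by omega))
    have h2 : (X : R) ^ m ∣ I (X ^ (2 * m + 1)) - 1 :=
      I_small (pow_dvd_pow _ (by omega))
    have h3 : (X : R) ^ m ∣ I (X ^ (2 * (m + j) + 1)) - 1 :=
      I_small (pow_dvd_pow _ (by omega))
    have : X * (Q (-X ^ (2 * m)) * I (X ^ (2 * m + 1)) * I (X ^ (2 * (m + j) + 1))) - (X : R) =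
      X * I (X ^ (2 * m + 1)) * I (X ^ (2 * (m + j) + 1)) * (Q (-X ^ (2 * m)) - 1) +
      X * I (X ^ (2 * (m + j) + 1)) * (I (X ^ (2 * m + 1)) - 1) +
      X * (I (X ^ (2 * (m + j) + 1)) - 1) := by ring
    rw [this]
    exact dvd_add (dvd_add (Dvd.dvd.mul_left h1 _) (Dvd.dvd.mul_left h2 _))
      (Dvd.dvd.mul_left h3 _)

/-- `ω(-q)` -/
noncomputable def W : R := G (fun _ => 1) 0

/-- the second mock part -/
noncomputable def BB : R := G (fun j => I (X ^ (2 * j + 1))) 0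

theorem CC_zero : CC 0 = - (X * W) + 2 * (X * Q (-X ^ 2) * I X * BB) := by
  have h := uniq (u := CC) (v := fun j => 2 * X * Q (-X ^ 2) * I X *
    G (fun j => I (X ^ (2 * j + 1))) j - X * G (fun _ => 1) j)
    (y := fun j => 2 * X * Q (-X ^ 2) * I X * I (X ^ (2 * j + 1)) - X) CC_rec ?_ 0
  · rw [h]
    unfold W BB
    ring
  · intro j
    have h1 := G_rec (fun j => I (X ^ (2 * j + 1))) j
    have h2 := G_rec (fun _ => 1) j
    linear_combination (2 * X * Q (-X ^ 2) * I X) * h1 - X * h2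

end Pool.Agent.K3h25.CM
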