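import Pool.Agent.K3h25.CM.Gauss

/-! Coefficients of the Lerch sums. -/

open PowerSeries Finset Filter Topology
open scoped PowerSeries.WithPiTopology

namespace Pool.Agent.K3h25.CM

theorem coeff_tsum {ι : Type*} {f : ι → R} (hf : Summable f) (n : ℕ) :
    coeff n (∑' i, f i) = ∑' i, coeff n (f i) :=
  ((hf.hasSum.map (coeff (R := ℤ) n) (WithPiTopology.continuous_coeff ℤ n)).tsum_eq).symm

/-- partial bijections and sums -/
theorem tsum_pb {α β : Type*} (f1 : α → ℤ) (f2 : β → ℤ) (F : α → β) (G : β → α)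
    (h1 : ∀ p, f1 p ≠ 0 → f2 (F p) = f1 p ∧ G (F p) = p)
    (h2 : ∀ q, f2 q ≠ 0 → f1 (G q) = f2 q ∧ F (G q) = q) :
    ∑' p, f1 p = ∑' q, f2 q := by
  symm
  refine tsum_eq_tsum_of_ne_zero_bij (fun p : Function.support f1 => F p.1) ?_ ?_ ?_
  · rintro ⟨p, hp⟩ ⟨p', hp'⟩ h
    simp only at h
    have e1 := (h1 p hp).2
    have e2 := (h1 p' hp').2
    rw [Subtype.mk.injEq, ← e1, ← e2, h]
  · intro q hq
    have h := h2 q hq
    exact ⟨⟨G q, by rw [Function.mem_support, h.1]; exact hq⟩, h.2⟩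
  · rintro ⟨p, hp⟩
    exact (h1 p hp).1

/-- weight `1, 2, 2, 2, ...` -/
def wtN (u : ℕ) : ℤ := if u = 0 then 1 else 2

theorem wt_series {y : R} (hy : (X : R) ∣ y) :
    (1 + y) * Iv (1 - y) = ∑' u : ℕ, y ^ u * ((wtN u : ℤ) : R) := by
  have hc : constantCoeff (1 - y) = 1 := by
    rw [map_sub, map_one, X_dvd_iff.1 hy, sub_zero]
  have h1 := mul_Iv hc
  have hs : Summable fun u : ℕ => y ^ u := summ fun k => pow_dvd_pow_of_dvd hy k
  have hs2 : Summable fun u : ℕ => y ^ u * ((wtN u : ℤ) : R) := summ fun k => pow_dvd_of hy k _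
  have h2 : (1 - y) * ∑' u : ℕ, y ^ u = 1 := by
    rw [sub_mul, one_mul, ← hs.tsum_mul_left, hs.tsum_eq_zero_add, pow_zero]
    simp only [pow_succ']
    ring
  have h3 : ∑' u : ℕ, y ^ u * ((wtN u : ℤ) : R) = 1 + 2 * y * ∑' u : ℕ, y ^ u := by
    rw [hs2.tsum_eq_zero_add, ← hs.tsum_mul_left]
    congr 1
    · simp [wtN]
    · refine tsum_congr fun u => ?_
      simp only [wtN, Nat.succ_ne_zero, if_false]
      push_cast
      ring
  rw [h3]
  linear_combination (1 + 2 * y * ∑' u : ℕ, y ^ u) * h1 - 2 * y * Iv (1 - y) * h2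

theorem negone_pow_cast (j : ℕ) : ((-1 : R) ^ j) = (((-1) ^ j : ℤ) : R) := by push_cast; rfl

theorem coeff_cast_X (n k : ℕ) (c : ℤ) : coeff n (X ^ k * (c : R)) = if k = n then c else 0 := by
  have : (X ^ k * (c : R)) = monomial k c := by
    rw [X_pow_eq, ← map_intCast (C (R := ℤ)) c, Int.cast_id, ← monomial_zero_eq_C_apply,
      monomial_mul_monomial]
    simp
  rw [this, coeff_monomial]
  by_cases h : k = n
  · subst h; simp
  · rw [if_neg h, if_neg (fun h' => h h'.symm)]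

/-- coefficients of the Lambert series of `al` with a shift -/
theorem coeff_al (m : ℕ) {x : R} {s : ℤ} (hx : x = (s : R) * X) (n : ℕ) :
    coeff n (∑' j : ℕ, X ^ (m * (j * (j + 1))) * al x j) = ∑' p : ℕ × ℕ,
      if (m + 1) * (p.1 * (p.1 + 1)) + (2 * p.1 + 1) * p.2 = n then
        (-1) ^ p.1 * s ^ p.2 * wtN p.2 else 0 := by
  have hX : (X : R) ∣ x := by rw [hx]; exact dvd_mul_left _ _
  have hs : Summable fun j : ℕ => X ^ (m * (j * (j + 1))) * al x j :=
    summ fun j => Dvd.dvd.mul_left (al_dvd x j) _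
  rw [coeff_tsum hs]
  have h1 : ∀ j : ℕ, coeff n (X ^ (m * (j * (j + 1))) * al x j) = ∑' u : ℕ,
      if (m + 1) * (j * (j + 1)) + (2 * j + 1) * u = n then (-1) ^ j * s ^ u * wtN u else 0 := by
    intro j
    have hy : (X : R) ∣ x * X ^ (2 * j) := Dvd.dvd.mul_right hX _
    have hs2 : Summable fun u : ℕ => (x * X ^ (2 * j)) ^ u * ((wtN u : ℤ) : R) :=
      summ fun k => pow_dvd_of hy k _
    unfold al
    rw [wt_series hy, ← mul_assoc, ← hs2.tsum_mul_left, coeff_tsum (hs2.mul_left _)]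
    refine tsum_congr fun u => ?_
    have : X ^ (m * (j * (j + 1))) * ((-1) ^ j * X ^ (j * (j + 1))) *
        ((x * X ^ (2 * j)) ^ u * ((wtN u : ℤ) : R)) =
        X ^ ((m + 1) * (j * (j + 1)) + (2 * j + 1) * u) * (((-1) ^ j * s ^ u * wtN u : ℤ) : R) := by
      rw [hx, pow_add, show (2 * j + 1) * u = 2 * j * u + u by ring, pow_add]
      push_cast
      ring
    rw [this, coeff_cast_X]
  rw [tsum_congr h1]
  symm
  refine Summable.tsum_prod' ?_ ?_
  · refine summable_of_ne_finset_zero (s := range (n + 1) ×ˢ range (n + 1)) fun p hp => ?_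
    rw [if_neg]
    intro h
    apply hp
    rw [Finset.mem_product, Finset.mem_range, Finset.mem_range]
    constructor
    · nlinarith [Nat.zero_le (m * (p.1 * (p.1 + 1))), Nat.zero_le (p.1 * p.1),
        Nat.zero_le ((2 * p.1 + 1) * p.2)]
    · nlinarith [Nat.zero_le (m * (p.1 * (p.1 + 1))), Nat.zero_le (p.1 * p.1),
        Nat.zero_le (p.1 * p.2)]
  · intro j
    refine summable_of_ne_finset_zero (s := range (n + 1)) fun u hu => ?_
    rw [if_neg]
    intro h
    apply hu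
    rw [Finset.mem_range]
    nlinarith [Nat.zero_le (m * (j * (j + 1))), Nat.zero_le (j * j), Nat.zero_le (j * u)]

end Pool.Agent.K3h25.CM
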