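import Pool.Agent.K3h25.CM.Sums

/-! Transformations of sums over lattice points, I. -/

open PowerSeries Finset Filter Topology
open scoped PowerSeries.WithPiTopology

namespace Pool.Agent.K3h25.CM

/-- the character modulo four -/
def chi (n : ℤ) : ℤ := if n % 4 = 1 then 1 else if n % 4 = 3 then -1 else 0

/-- weight `1` at zero, `2` at positive integers -/
def wt (u : ℤ) : ℤ := if 0 < u then 2 else if u = 0 then 1 else 0

theorem wt_nat (u : ℕ) : wt u = wtN u := by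
  unfold wt wtN
  split_ifs <;> omega

theorem wt_add_neg (v : ℤ) : wt v + wt (-v) = 2 := by
  unfold wt
  split_ifs <;> omega

theorem wt_ne {u : ℤ} (h : wt u ≠ 0) : 0 ≤ u := by
  unfold wt at h
  split_ifs at h <;> omega

theorem chi_nat (j : ℕ) : chi (2 * j + 1) = (-1) ^ j := by
  rcases Nat.even_or_odd' j with ⟨k, rfl | rfl⟩
  · rw [pow_mul, neg_one_sq, one_pow]
    unfold chi
    rw [if_pos (by push_cast; omega)]
  · rw [pow_succ, pow_mul, neg_one_sq, one_pow]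
    unfold chi
    rw [if_neg (by push_cast; omega), if_pos (by push_cast; omega)]
    norm_num

theorem emod_key (a b u : ℤ) : ((a + b + u) ^ 2 - a * b) % 4 =
    ((a % 4 + b % 4 + u % 4) ^ 2 - (a % 4) * (b % 4)) % 4 := by
  have ha : a % 4 ≡ a [ZMOD 4] := Int.mod_modEq a 4
  have hb : b % 4 ≡ b [ZMOD 4] := Int.mod_modEq b 4
  have hu : u % 4 ≡ u [ZMOD 4] := Int.mod_modEq u 4
  exact ((((ha.add hb).add hu).pow 2).sub (ha.mul hb)).symm

theorem emod_key2 (t a c : ℤ) : (t ^ 2 + a * c) % 4 =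
    ((t % 4) ^ 2 + (a % 4) * (c % 4)) % 4 := by
  have ha : a % 4 ≡ a [ZMOD 4] := Int.mod_modEq a 4
  have hc : c % 4 ≡ c [ZMOD 4] := Int.mod_modEq c 4
  have ht : t % 4 ≡ t [ZMOD 4] := Int.mod_modEq t 4
  exact ((ht.pow 2).add (ha.mul hc)).symm

/-- residues in the coordinates `(a, b, u)` -/
theorem res_abu {a b u e : ℤ} (ha : a % 2 = 1) (hb : b % 2 = 1)
    (h : (a + b + u) ^ 2 - a * b = e) :
    (u - e - 1) % 2 = 0 ∧ ((e % 4 = 1 ∨ e % 4 = 2) → (a + b) % 4 = 0) ∧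
      ((e % 4 = 0 ∨ e % 4 = 3) → (a - b) % 4 = 0) := by
  have key := emod_key a b u
  rw [h] at key
  have h1 : a % 4 = 1 ∨ a % 4 = 3 := by omega
  have h2 : b % 4 = 1 ∨ b % 4 = 3 := by omega
  have h3 : u % 4 = 0 ∨ u % 4 = 1 ∨ u % 4 = 2 ∨ u % 4 = 3 := by omega
  rcases h1 with h1 | h1 <;> rcases h2 with h2 | h2 <;> rcases h3 with h3 | h3 | h3 | h3 <;>
    rw [h1, h2, h3] at key <;> norm_num at key <;> omega

/-- residues in the coordinates `(t, a, c)` -/
theorem res_tac {t a c e : ℤ} (ha : a % 2 = 1) (hc : c % 2 = 1)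
    (h : t ^ 2 + a * c = e) :
    (t - e - 1) % 2 = 0 ∧ ((e % 4 = 1 ∨ e % 4 = 2) → (a - c) % 4 = 0) ∧
      ((e % 4 = 0 ∨ e % 4 = 3) → (a + c) % 4 = 0) := by
  have key := emod_key2 t a c
  rw [h] at key
  have h1 : a % 4 = 1 ∨ a % 4 = 3 := by omega
  have h2 : c % 4 = 1 ∨ c % 4 = 3 := by omega
  have h3 : t % 4 = 0 ∨ t % 4 = 1 ∨ t % 4 = 2 ∨ t % 4 = 3 := by omega
  rcases h1 with h1 | h1 <;> rcases h2 with h2 | h2 <;> rcases h3 with h3 | h3 | h3 | h3 <;>
    rw [h1, h2, h3] at key <;> norm_num at key <;> omega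

theorem chi_eq {a b : ℤ} (h : (a - b) % 4 = 0) : chi a = chi b := by
  unfold chi
  split_ifs <;> omega

theorem chi_neg {a b : ℤ} (ha : a % 2 = 1) (h : (a + b) % 4 = 0) : chi b = - chi a := by
  unfold chi
  split_ifs <;> omega

/-- summand of `A` -/
def fA (e : ℤ) (p : ℤ × ℤ × ℤ) : ℤ :=
  if p.1 % 2 = 1 ∧ p.2.1 % 2 = 1 ∧ 0 < p.1 ∧ (p.1 + p.2.1 + p.2.2) ^ 2 - p.1 * p.2.1 = e then
    chi p.1 * wt p.2.2 else 0

/-- the basic sum -/
noncomputable def A (e : ℤ) : ℤ := ∑' p : ℤ × ℤ × ℤ, fA e p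

theorem fA_ne {e a b u : ℤ} (h : fA e (a, b, u) ≠ 0) : a % 2 = 1 ∧ b % 2 = 1 ∧ 0 < a ∧ 0 ≤ u ∧
    (a + b + u) ^ 2 - a * b = e := by
  simp only [fA] at h
  split_ifs at h with hc
  · exact ⟨hc.1, hc.2.1, hc.2.2.1, wt_ne (right_ne_zero_of_mul h), hc.2.2.2⟩
  · exact absurd rfl h

theorem bnd_abu {a b u e : ℤ} (ha : 0 < a) (hu : 0 ≤ u) (h : (a + b + u) ^ 2 - a * b = e) :
    a ≤ 4 * e ∧ u ≤ 4 * e ∧ -(16 * e) ≤ b ∧ b ≤ 16 * e ∧ 0 < e := by
  have h1 : (2 * (b + u) + a) ^ 2 + 3 * a ^ 2 + 4 * (u * a) = 4 * e := by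
    rw [← h]; ring
  have h2 : 0 ≤ u * a := by positivity
  have h3 : a ≤ 4 * e := by nlinarith [sq_nonneg (2 * (b + u) + a)]
  have h4 : u ≤ 4 * e := by nlinarith [sq_nonneg (2 * (b + u) + a)]
  have h5 : (2 * (b + u) + a) ^ 2 ≤ 4 * e := by nlinarith
  have h0 : 0 < e := by nlinarith [sq_nonneg (2 * (b + u) + a)]
  have h6 : 2 * (b + u) + a ≤ 4 * e := by
    by_contra hc; push Not at hc; nlinarith
  have h7 : -(4 * e) ≤ 2 * (b + u) + a := by
    by_contra hc; push Not at hc; nlinarith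
  refine ⟨h3, h4, by linarith, by linarith, h0⟩

theorem summ_fA (e : ℤ) : Summable (fA e) := by
  refine summ_box3 (16 * e).natAbs fun a b u h => ?_
  obtain ⟨_, _, h3, h4, h5⟩ := fA_ne h
  have := bnd_abu h3 h4 h5
  omega

/-- the coefficients of `E_4^2 ω(-q)` -/
theorem coeff_A (n : ℕ) : coeff n (psi2 * LL) = (-1) ^ n * A (n + 1) := by
  rw [psi2_LL]
  have h1 : ∀ q : ℕ × ℕ × ℕ, (if (q.1 : ℤ) * (q.1 + 1) + (3 * ((q.2.1 : ℤ) * (q.2.1 + 1)) +
      (2 * q.2.1 + 1) * q.2.2) = n then (-1) ^ q.2.1 * (-1) ^ q.2.2 * wtN q.2.2 else (0 : ℤ)) =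
      (-1) ^ n * (if (q.1 : ℤ) * (q.1 + 1) + (3 * ((q.2.1 : ℤ) * (q.2.1 + 1)) +
      (2 * q.2.1 + 1) * q.2.2) = n then (-1) ^ q.2.1 * wtN q.2.2 else (0 : ℤ)) := by
    rintro ⟨i, j, u⟩
    simp only
    split_ifs with hc
    · obtain ⟨k1, hk1⟩ := Int.even_mul_succ_self (i : ℤ)
      obtain ⟨k2, hk2⟩ := Int.even_mul_succ_self (j : ℤ)
      obtain ⟨m, hm⟩ : ∃ m : ℤ, m = (j : ℤ) * u := ⟨_, rfl⟩
      have hpar : (n : ℤ) = 2 * (k1 + 3 * k2 + m) + u := by
        rw [← hc, hk1, hk2, hm]; ring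
      have e : (-1 : ℤ) ^ u = (-1) ^ n := by
        rcases Nat.even_or_odd' u with ⟨k, hk | hk⟩ <;> rcases Nat.even_or_odd' n with ⟨l, hl | hl⟩
        · rw [hk, hl, pow_mul, pow_mul, neg_one_sq, one_pow, one_pow]
        · omega
        · omega
        · rw [hk, hl, pow_succ, pow_succ, pow_mul, pow_mul, neg_one_sq, one_pow, one_pow]
      rw [e]; ring
    · rw [mul_zero]
  have h2 : ∑' q : ℕ × ℕ × ℕ, (if (q.1 : ℤ) * (q.1 + 1) + (3 * ((q.2.1 : ℤ) * (q.2.1 + 1)) +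
      (2 * q.2.1 + 1) * q.2.2) = n then (-1) ^ q.2.1 * wtN q.2.2 else (0 : ℤ)) = A (n + 1) := by
    unfold A
    refine tsum_pb _ _
      (fun q => (2 * (q.2.1 : ℤ) + 1, (if ((q.1 : ℤ) - q.2.1 - (n + 1)) % 2 = 0 then
        (q.1 : ℤ) - q.2.1 else -(q.1 : ℤ) - q.2.1 - 1) - q.2.2, (q.2.2 : ℤ)))
      (fun p => (if 0 ≤ p.2.1 + p.2.2 + (p.1 - 1) / 2 then (p.2.1 + p.2.2 + (p.1 - 1) / 2).toNat else
        (-(p.2.1 + p.2.2) - (p.1 - 1) / 2 - 1).toNat, ((p.1 - 1) / 2).toNat, p.2.2.toNat)) ?_ ?_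
    · rintro ⟨i, j, u⟩ hq
      simp only at hq
      split_ifs at hq with hc
      · obtain ⟨k1, hk1⟩ := Int.even_mul_succ_self (i : ℤ)
        obtain ⟨k2, hk2⟩ := Int.even_mul_succ_self (j : ℤ)
        obtain ⟨m, hm⟩ : ∃ m : ℤ, m = (j : ℤ) * u := ⟨_, rfl⟩
        have hpar : (n : ℤ) = 2 * (k1 + 3 * k2 + m) + u := by
          rw [← hc, hk1, hk2, hm]; ring
        simp only
        rw [if_pos hc]
        constructor
        · unfold fA
          simp only
          rw [if_pos, chi_nat, wt_nat]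
          refine ⟨by omega, ?_, by omega, ?_⟩
          · split_ifs with h3 <;> omega
          · split_ifs with h3
            · linear_combination hc
            · linear_combination hc
        · split_ifs with h3 h4 h4
          · refine Prod.ext ?_ (Prod.ext ?_ ?_) <;> simp only <;> omega
          · refine Prod.ext ?_ (Prod.ext ?_ ?_) <;> simp only <;> omega
          · refine Prod.ext ?_ (Prod.ext ?_ ?_) <;> simp only <;> omega
          · refine Prod.ext ?_ (Prod.ext ?_ ?_) <;> simp only <;> omega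
      · exact absurd rfl hq
    · rintro ⟨a, b, w⟩ hp
      obtain ⟨ha, hb, ha0, hw, heq⟩ := fA_ne hp
      have hres := (res_abu ha hb heq).1
      obtain ⟨j, hj⟩ : ∃ j : ℕ, a = 2 * j + 1 := ⟨((a - 1) / 2).toNat, by omega⟩
      obtain ⟨u, hu⟩ : ∃ u : ℕ, w = u := ⟨w.toNat, by omega⟩
      subst hj hu
      have e1 : ((2 * (j : ℤ) + 1 - 1) / 2) = j := by omega
      have hval : fA (n + 1) (2 * (j : ℤ) + 1, b, (u : ℤ)) = (-1) ^ j * wtN u := by
        unfold fA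
        simp only
        rw [if_pos ⟨ha, hb, ha0, heq⟩, chi_nat, wt_nat]
      simp only [e1, Int.toNat_natCast]
      rw [hval]
      by_cases h0 : 0 ≤ b + u + j
      · obtain ⟨i, hi⟩ : ∃ i : ℕ, b + u + j = i := ⟨(b + u + j).toNat, by omega⟩
        have hb' : b = (i : ℤ) - j - u := by omega
        subst hb'
        have e2 : (i : ℤ) - j - u + u + j = i := by ring
        simp only [e2, Int.toNat_natCast, if_pos (Int.natCast_nonneg i)]
        constructor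
        · rw [if_pos]
          linear_combination heq
        · rw [if_pos (by omega)]
      · obtain ⟨i, hi⟩ : ∃ i : ℕ, -(b + u) - j - 1 = i := ⟨(-(b + u) - j - 1).toNat, by omega⟩
        have hb' : b = -(i : ℤ) - j - 1 - u := by omega
        subst hb'
        have e2 : -(-(i : ℤ) - j - 1 - u + u) - j - 1 = i := by ring
        rw [if_neg h0]
        simp only [e2, Int.toNat_natCast]
        constructor
        · rw [if_pos]
          linear_combination heq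
        · rw [if_neg (by omega)]
  rw [tsum_congr h1, ← h2]
  rcases Nat.even_or_odd' n with ⟨l, hl | hl⟩
  · have : (-1 : ℤ) ^ n = 1 := by rw [hl, pow_mul, neg_one_sq, one_pow]
    simp only [this, one_mul]
  · have : (-1 : ℤ) ^ n = -1 := by rw [hl, pow_succ, pow_mul, neg_one_sq, one_pow, one_mul]
    simp only [this, neg_one_mul]
    rw [tsum_neg]

end Pool.Agent.K3h25.CM
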