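import Pool.Agent.K3h25.CM.Comb

/-! Transformations of sums over lattice points, II. -/

open PowerSeries Finset Filter Topology
open scoped PowerSeries.WithPiTopology

namespace Pool.Agent.K3h25.CM

/-- positive part of `A` -/
def fAp (e : ℤ) (p : ℤ × ℤ × ℤ) : ℤ := if 0 < p.2.1 then fA e p else 0

/-- summand in the coordinates `(t, a, c)` with a weight -/
def fG (w : ℤ × ℤ × ℤ → ℤ) (e : ℤ) (p : ℤ × ℤ × ℤ) : ℤ :=
  if p.2.1 % 2 = 1 ∧ p.2.2 % 2 = 1 ∧ 0 < p.2.1 ∧ 0 < p.2.2 ∧ p.1 ^ 2 + p.2.1 * p.2.2 = e then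
    chi p.2.1 * w p else 0

theorem fG_ne {w : ℤ × ℤ × ℤ → ℤ} {e t a c : ℤ} (h : fG w e (t, a, c) ≠ 0) :
    a % 2 = 1 ∧ c % 2 = 1 ∧ 0 < a ∧ 0 < c ∧ t ^ 2 + a * c = e ∧ w (t, a, c) ≠ 0 := by
  simp only [fG] at h
  split_ifs at h with hc
  · exact ⟨hc.1, hc.2.1, hc.2.2.1, hc.2.2.2.1, hc.2.2.2.2, right_ne_zero_of_mul h⟩
  · exact absurd rfl h

theorem bnd_tac {t a c e : ℤ} (ha : 0 < a) (hc : 0 < c) (h : t ^ 2 + a * c = e) :
    a ≤ e ∧ c ≤ e ∧ -e ≤ t ∧ t ≤ e ∧ 0 < e := by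
  have h1 : 0 < a * c := by positivity
  have h2 : t ^ 2 ≤ e := by linarith
  have h0 : 0 < e := by nlinarith [sq_nonneg t]
  refine ⟨by nlinarith [sq_nonneg t], by nlinarith [sq_nonneg t], ?_, ?_, h0⟩
  · by_contra hc; push Not at hc; nlinarith
  · by_contra hc; push Not at hc; nlinarith

theorem summ_fG (w : ℤ × ℤ × ℤ → ℤ) (e : ℤ) : Summable (fG w e) := by
  refine summ_box3 e.natAbs fun t a c h => ?_
  obtain ⟨_, _, h3, h4, h5, _⟩ := fG_ne h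
  have := bnd_tac h3 h4 h5
  omega

theorem fG_if {w : ℤ × ℤ × ℤ → ℤ} {e t a c : ℤ} (ha : a % 2 = 1) (hc : c % 2 = 1) (ha0 : 0 < a)
    (hc0 : 0 < c) (h : t ^ 2 + a * c = e) : fG w e (t, a, c) = chi a * w (t, a, c) := by
  unfold fG
  exact if_pos ⟨ha, hc, ha0, hc0, h⟩

theorem fG_add (w w' : ℤ × ℤ × ℤ → ℤ) (e : ℤ) :
    ∑' p, fG w e p + ∑' p, fG w' e p = ∑' p, fG (fun p => w p + w' p) e p := by
  rw [← (summ_fG w e).tsum_add (summ_fG w' e)]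
  refine tsum_congr fun p => ?_
  unfold fG
  split_ifs <;> ring

theorem fG_const (w : ℤ × ℤ × ℤ → ℤ) (k e : ℤ) :
    ∑' p, fG (fun p => k * w p) e p = k * ∑' p, fG w e p := by
  rw [← (summ_fG w e).tsum_mul_left]
  refine tsum_congr fun p => ?_
  unfold fG
  split_ifs <;> ring

theorem fG_congr {w w' : ℤ × ℤ × ℤ → ℤ} {e : ℤ} (h : ∀ t a c : ℤ, a % 2 = 1 → c % 2 = 1 → 0 < a →
    0 < c → t ^ 2 + a * c = e → w (t, a, c) = w' (t, a, c)) :
    ∑' p, fG w e p = ∑' p, fG w' e p := by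
  refine tsum_congr fun p => ?_
  obtain ⟨t, a, c⟩ := p
  unfold fG
  split_ifs with hc
  · rw [h t a c hc.1 hc.2.1 hc.2.2.1 hc.2.2.2.1 hc.2.2.2.2]
  · rfl

/-- reflection `(t, a, c) ↦ (-t, c, a)` -/
theorem fG_refl {w : ℤ × ℤ × ℤ → ℤ} {e : ℤ} (he : e % 4 = 1 ∨ e % 4 = 2) :
    ∑' p, fG w e p = ∑' p, fG (fun p => w (-p.1, p.2.2, p.2.1)) e p := by
  refine tsum_pb _ _ (fun p => (-p.1, p.2.2, p.2.1)) (fun p => (-p.1, p.2.2, p.2.1)) ?_ ?_
  · rintro ⟨t, a, c⟩ h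
    obtain ⟨h1, h2, h3, h4, h5, _⟩ := fG_ne h
    refine ⟨?_, by simp⟩
    simp only
    rw [fG_if h1 h2 h3 h4 h5, fG_if h2 h1 h4 h3 (by rw [← h5]; ring)]
    simp only [neg_neg]
    rw [chi_eq ((res_tac h1 h2 h5).2.1 he)]
  · rintro ⟨t, a, c⟩ h
    obtain ⟨h1, h2, h3, h4, h5, _⟩ := fG_ne h
    refine ⟨?_, by simp⟩
    simp only
    rw [fG_if h1 h2 h3 h4 h5, fG_if h2 h1 h4 h3 (by rw [← h5]; ring)]
    simp only
    rw [chi_eq ((res_tac h1 h2 h5).2.1 he)]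

theorem fG_refl' {w : ℤ × ℤ × ℤ → ℤ} {e : ℤ} (he : e % 4 = 0 ∨ e % 4 = 3) :
    ∑' p, fG w e p = - ∑' p, fG (fun p => w (-p.1, p.2.2, p.2.1)) e p := by
  rw [← tsum_neg]
  refine tsum_pb _ _ (fun p => (-p.1, p.2.2, p.2.1)) (fun p => (-p.1, p.2.2, p.2.1)) ?_ ?_
  · rintro ⟨t, a, c⟩ h
    obtain ⟨h1, h2, h3, h4, h5, _⟩ := fG_ne h
    refine ⟨?_, by simp⟩
    simp only
    rw [fG_if h1 h2 h3 h4 h5, fG_if h2 h1 h4 h3 (by rw [← h5]; ring)]
    simp only [neg_neg]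
    rw [chi_neg h1 ((res_tac h1 h2 h5).2.2 he)]
    ring
  · rintro ⟨t, a, c⟩ h
    obtain ⟨h1, h2, h3, h4, h5, _⟩ := fG_ne (neg_ne_zero.1 h)
    refine ⟨?_, by simp⟩
    simp only
    rw [fG_if h1 h2 h3 h4 h5, fG_if h2 h1 h4 h3 (by rw [← h5]; ring)]
    simp only
    rw [chi_neg h1 ((res_tac h1 h2 h5).2.2 he)]
    ring

/-- swap `(t, a, c) ↦ (t, c, a)` -/
theorem fG_swap {w : ℤ × ℤ × ℤ → ℤ} {e : ℤ} (he : e % 4 = 1 ∨ e % 4 = 2) :
    ∑' p, fG w e p = ∑' p, fG (fun p => w (p.1, p.2.2, p.2.1)) e p := by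
  refine tsum_pb _ _ (fun p => (p.1, p.2.2, p.2.1)) (fun p => (p.1, p.2.2, p.2.1)) ?_ ?_
  · rintro ⟨t, a, c⟩ h
    obtain ⟨h1, h2, h3, h4, h5, _⟩ := fG_ne h
    refine ⟨?_, by simp⟩
    simp only
    rw [fG_if h1 h2 h3 h4 h5, fG_if h2 h1 h4 h3 (by rw [← h5]; ring)]
    rw [chi_eq ((res_tac h1 h2 h5).2.1 he)]
  · rintro ⟨t, a, c⟩ h
    obtain ⟨h1, h2, h3, h4, h5, _⟩ := fG_ne h
    refine ⟨?_, by simp⟩
    simp only
    rw [fG_if h1 h2 h3 h4 h5, fG_if h2 h1 h4 h3 (by rw [← h5]; ring)]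
    simp only
    rw [chi_eq ((res_tac h1 h2 h5).2.1 he)]

theorem fAp_ne {e a b u : ℤ} (h : fAp e (a, b, u) ≠ 0) : a % 2 = 1 ∧ b % 2 = 1 ∧ 0 < a ∧ 0 < b ∧
    0 ≤ u ∧ (a + b + u) ^ 2 - a * b = e := by
  simp only [fAp] at h
  split_ifs at h with hc
  · obtain ⟨h1, h2, h3, h4, h5⟩ := fA_ne h
    exact ⟨h1, h2, h3, hc, h4, h5⟩
  · exact absurd rfl h

theorem summ_fAp (e : ℤ) : Summable (fAp e) := by
  refine summ_box3 (16 * e).natAbs fun a b u h => ?_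
  obtain ⟨_, _, h3, _, h4, h5⟩ := fAp_ne h
  have := bnd_abu h3 h4 h5
  omega

/-- splitting of `A` according to the sign of `b` -/
theorem A_split (e : ℤ) : A e = ∑' p, fAp e p + ∑' p, fG (fun p => wt (p.1 - p.2.1 + p.2.2)) e p := by
  have h1 : A e = ∑' p, fAp e p + ∑' p : ℤ × ℤ × ℤ, (if p.2.1 < 0 then fA e p else 0) := by
    rw [A, ← (summ_fAp e).tsum_add]
    · refine tsum_congr fun p => ?_
      obtain ⟨a, b, u⟩ := p
      unfold fAp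
      simp only
      rcases lt_trichotomy b 0 with h | h | h
      · rw [if_neg (by omega), if_pos h, zero_add]
      · subst h
        simp [fA]
      · rw [if_pos h, if_neg (by omega), add_zero]
    · refine summ_box3 (16 * e).natAbs fun a b u h => ?_
      simp only at h
      split_ifs at h with hc
      · obtain ⟨_, _, h3, h4, h5⟩ := fA_ne h
        have := bnd_abu h3 h4 h5
        omega
      · exact absurd rfl h
  rw [h1]
  congr 1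
  refine tsum_pb _ _ (fun p => (p.1 + p.2.1 + p.2.2, p.1, -p.2.1))
    (fun p => (p.2.1, -p.2.2, p.1 - p.2.1 + p.2.2)) ?_ ?_
  · rintro ⟨a, b, u⟩ h
    simp only at h
    split_ifs at h with hc
    · obtain ⟨h1, h2, h3, h4, h5⟩ := fA_ne h
      simp only
      rw [if_pos hc]
      constructor
      · rw [fG_if h1 (by omega) h3 (by omega) (by rw [← h5]; ring)]
        unfold fA
        simp only
        rw [if_pos ⟨h1, h2, h3, h5⟩]
        congr 2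
        ring
      · refine Prod.ext ?_ (Prod.ext ?_ ?_) <;> simp only <;> ring
    · exact absurd rfl h
  · rintro ⟨t, a, c⟩ h
    obtain ⟨h1, h2, h3, h4, h5, _⟩ := fG_ne h
    simp only
    rw [if_pos (by omega), fG_if h1 h2 h3 h4 h5]
    constructor
    · unfold fA
      simp only
      rw [if_pos]
      exact ⟨h1, by omega, h3, by rw [← h5]; ring⟩
    · refine Prod.ext ?_ (Prod.ext ?_ ?_) <;> simp only <;> ring

theorem A_eq_P {e : ℤ} (he : e % 4 = 1 ∨ e % 4 = 2) : A e = ∑' p, fG (fun _ => 1) e p := by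
  have h1 : ∑' p, fAp e p = - ∑' p, fAp e p := by
    rw [← tsum_neg]
    have hval : ∀ a b u : ℤ, a % 2 = 1 → b % 2 = 1 → 0 < a → 0 < b →
        (a + b + u) ^ 2 - a * b = e → fAp e (b, a, u) = - fAp e (a, b, u) := by
      intro a b u h1 h2 h3 h4 h5
      unfold fAp fA
      simp only
      rw [if_pos h3, if_pos h4, if_pos ⟨h2, h1, h4, by rw [← h5]; ring⟩, if_pos ⟨h1, h2, h3, h5⟩,
        chi_neg h1 ((res_abu h1 h2 h5).2.1 he)]
      ring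
    refine tsum_pb _ _ (fun p => (p.2.1, p.1, p.2.2)) (fun p => (p.2.1, p.1, p.2.2)) ?_ ?_
    · rintro ⟨a, b, u⟩ h
      obtain ⟨h1, h2, h3, h4, h5, h6⟩ := fAp_ne h
      refine ⟨?_, rfl⟩
      simp only
      rw [hval a b u h1 h2 h3 h4 h6, neg_neg]
    · rintro ⟨a, b, u⟩ h
      obtain ⟨h1, h2, h3, h4, h5, h6⟩ := fAp_ne (neg_ne_zero.1 h)
      refine ⟨?_, rfl⟩
      simp only
      rw [hval a b u h1 h2 h3 h4 h6]
  have h2 : ∑' p, fAp e p = 0 := by linarith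
  have h3 := fG_refl (w := fun p => wt (p.1 - p.2.1 + p.2.2)) he
  have h4 := fG_add (fun p => wt (p.1 - p.2.1 + p.2.2))
    (fun p => wt (-p.1 - p.2.2 + p.2.1)) e
  have h5 : ∑' p, fG (fun p => wt (p.1 - p.2.1 + p.2.2) + wt (-p.1 - p.2.2 + p.2.1)) e p =
      2 * ∑' p, fG (fun _ => 1) e p := by
    rw [← fG_const]
    refine fG_congr fun t a c _ _ _ _ _ => ?_
    simp only
    rw [show -t - c + a = -(t - a + c) by ring, wt_add_neg]
    norm_num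
  rw [A_split, h2, zero_add]
  simp only at h3
  linarith

theorem P_eq_P' {e : ℤ} (he : e % 4 = 1 ∨ e % 4 = 2) :
    ∑' p, fG (fun _ => 1) e p = ∑' p, fG (fun p => wt (p.2.2 - p.2.1)) e p := by
  have h3 := fG_swap (w := fun p => wt (p.2.2 - p.2.1)) he
  have h4 := fG_add (fun p => wt (p.2.2 - p.2.1)) (fun p => wt (p.2.1 - p.2.2)) e
  have h5 : ∑' p, fG (fun p => wt (p.2.2 - p.2.1) + wt (p.2.1 - p.2.2)) e p =
      2 * ∑' p, fG (fun _ => 1) e p := by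
    rw [← fG_const]
    refine fG_congr fun t a c _ _ _ _ _ => ?_
    simp only
    rw [show a - c = -(c - a) by ring, wt_add_neg]
    norm_num
  simp only at h3
  linarith

end Pool.Agent.K3h25.CM
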