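import Pool.Agent.K3h25.CM.Comb2

/-! Transformations of sums over lattice points, III: the classes `1` and `2` modulo four. -/

open PowerSeries Finset Filter Topology
open scoped PowerSeries.WithPiTopology

namespace Pool.Agent.K3h25.CM

theorem wt_four (u : ℕ) : wt (4 * (u : ℤ)) = wtN u := by
  unfold wt wtN
  split_ifs <;> omega

/-- class `1` modulo `4` -/
theorem A_one (n : ℕ) : A (4 * n + 1) = coeff n (php * PS) := by
  have he : ((4 : ℤ) * n + 1) % 4 = 1 ∨ ((4 : ℤ) * n + 1) % 4 = 2 := by omega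
  rw [A_eq_P he, P_eq_P' he, php_PS]
  refine tsum_pb _ _ (fun p => (p.1 / 2, ((p.2.1 - 1) / 2).toNat, ((p.2.2 - p.2.1) / 4).toNat))
    (fun q => (2 * q.1, 2 * (q.2.1 : ℤ) + 1, 2 * (q.2.1 : ℤ) + 1 + 4 * q.2.2)) ?_ ?_
  · rintro ⟨t, a, c⟩ h
    obtain ⟨h1, h2, h3, h4, h5, h6⟩ := fG_ne h
    have h7 := wt_ne h6
    simp only at h7
    have hres := res_tac h1 h2 h5
    have hr1 := hres.1
    have hr2 := hres.2.1 he
    obtain ⟨v, hv⟩ : ∃ v : ℤ, t = 2 * v := ⟨t / 2, by omega⟩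
    obtain ⟨j, hj⟩ : ∃ j : ℕ, a = 2 * j + 1 := ⟨((a - 1) / 2).toNat, by omega⟩
    obtain ⟨u, hu⟩ : ∃ u : ℕ, c = a + 4 * u := ⟨((c - a) / 4).toNat, by omega⟩
    subst hv hu hj
    have e1 : 2 * v / 2 = v := by omega
    have e2 : (2 * (j : ℤ) + 1 - 1) / 2 = j := by omega
    have e3 : (2 * (j : ℤ) + 1 + 4 * (u : ℤ) - (2 * (j : ℤ) + 1)) / 4 = u := by omega
    simp only [e1, e2, e3, Int.toNat_natCast]
    refine ⟨?_, trivial⟩
    rw [fG_if h1 h2 h3 h4 h5, if_pos (by nlinarith [h5]), chi_nat]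
    congr 1
    simp only
    rw [show 2 * (j : ℤ) + 1 + 4 * (u : ℤ) - (2 * (j : ℤ) + 1) = 4 * u by ring, wt_four]
  · rintro ⟨v, j, u⟩ h
    simp only at h ⊢
    have h5 : v ^ 2 + (((j : ℤ) * (j + 1)) + (2 * j + 1) * u) = n := by
      by_contra hc
      exact h (if_neg hc)
    rw [if_pos h5]
    have e1 : 2 * v / 2 = v := by omega
    have e2 : (2 * (j : ℤ) + 1 - 1) / 2 = j := by omega
    have e3 : (2 * (j : ℤ) + 1 + 4 * (u : ℤ) - (2 * (j : ℤ) + 1)) / 4 = u := by omega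
    rw [e1, e2, e3, Int.toNat_natCast, Int.toNat_natCast]
    refine ⟨?_, rfl⟩
    rw [fG_if (by omega) (by omega) (by omega) (by omega) (by nlinarith [h5]), chi_nat]
    congr 1
    simp only
    rw [show 2 * (j : ℤ) + 1 + 4 * (u : ℤ) - (2 * (j : ℤ) + 1) = 4 * u by ring, wt_four]

/-- class `2` modulo `4` -/
theorem A_two (n : ℕ) : A (4 * n + 2) = 2 * coeff n (psi2 * PS) := by
  have he : ((4 : ℤ) * n + 2) % 4 = 1 ∨ ((4 : ℤ) * n + 2) % 4 = 2 := by omega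
  rw [A_eq_P he, P_eq_P' he, psi2_PS]
  refine tsum_pb _ _ (fun p => (p.1 / 2, ((p.2.1 - 1) / 2).toNat, ((p.2.2 - p.2.1) / 4).toNat))
    (fun q => (2 * q.1 + 1, 2 * (q.2.1 : ℤ) + 1, 2 * (q.2.1 : ℤ) + 1 + 4 * q.2.2)) ?_ ?_
  · rintro ⟨t, a, c⟩ h
    obtain ⟨h1, h2, h3, h4, h5, h6⟩ := fG_ne h
    have h7 := wt_ne h6
    simp only at h7
    have hres := res_tac h1 h2 h5
    have hr1 := hres.1
    have hr2 := hres.2.1 he
    obtain ⟨v, hv⟩ : ∃ v : ℤ, t = 2 * v + 1 := ⟨t / 2, by omega⟩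
    obtain ⟨j, hj⟩ : ∃ j : ℕ, a = 2 * j + 1 := ⟨((a - 1) / 2).toNat, by omega⟩
    obtain ⟨u, hu⟩ : ∃ u : ℕ, c = a + 4 * u := ⟨((c - a) / 4).toNat, by omega⟩
    subst hv hu hj
    have e1 : (2 * v + 1) / 2 = v := by omega
    have e2 : (2 * (j : ℤ) + 1 - 1) / 2 = j := by omega
    have e3 : (2 * (j : ℤ) + 1 + 4 * (u : ℤ) - (2 * (j : ℤ) + 1)) / 4 = u := by omega
    simp only [e1, e2, e3, Int.toNat_natCast]
    refine ⟨?_, trivial⟩
    rw [fG_if h1 h2 h3 h4 h5, if_pos (by nlinarith [h5]), chi_nat]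
    congr 1
    simp only
    rw [show 2 * (j : ℤ) + 1 + 4 * (u : ℤ) - (2 * (j : ℤ) + 1) = 4 * u by ring, wt_four]
  · rintro ⟨v, j, u⟩ h
    simp only at h ⊢
    have h5 : v * (v + 1) + (((j : ℤ) * (j + 1)) + (2 * j + 1) * u) = n := by
      by_contra hc
      exact h (if_neg hc)
    rw [if_pos h5]
    have e1 : (2 * v + 1) / 2 = v := by omega
    have e2 : (2 * (j : ℤ) + 1 - 1) / 2 = j := by omega
    have e3 : (2 * (j : ℤ) + 1 + 4 * (u : ℤ) - (2 * (j : ℤ) + 1)) / 4 = u := by omega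
    rw [e1, e2, e3, Int.toNat_natCast, Int.toNat_natCast]
    refine ⟨?_, rfl⟩
    rw [fG_if (by omega) (by omega) (by omega) (by omega) (by nlinarith [h5]), chi_nat]
    congr 1
    simp only
    rw [show 2 * (j : ℤ) + 1 + 4 * (u : ℤ) - (2 * (j : ℤ) + 1) = 4 * u by ring, wt_four]

end Pool.Agent.K3h25.CM
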