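import Pool.Agent.K3h25.CM.Comb3

/-! Transformations of sums over lattice points, IV: divisibility in the class `0`. -/

open PowerSeries Finset Filter Topology
open scoped PowerSeries.WithPiTopology

namespace Pool.Agent.K3h25.CM

/-- a sum of multiples is a multiple -/
theorem dvd_tsum_int {α : Type*} {f : α → ℤ} {k : ℤ} (h : ∀ p, k ∣ f p) : k ∣ ∑' p, f p := by
  by_cases hs : Summable f
  · have hc : IsClosed ((AddSubgroup.zmultiples k : AddSubgroup ℤ) : Set ℤ) := isClosed_discrete _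
    have h1 : ∑' p, f p ∈ ((AddSubgroup.zmultiples k : AddSubgroup ℤ) : Set ℤ) := by
      refine hc.mem_of_tendsto hs.hasSum (Eventually.of_forall fun s => ?_)
      simp only [SetLike.mem_coe]
      exact (AddSubgroup.zmultiples k).sum_mem fun p _ => Int.mem_zmultiples_iff.2 (h p)
    exact Int.mem_zmultiples_iff.1 h1
  · rw [tsum_eq_zero_of_not_summable hs]
    exact dvd_zero k

/-- summand in the coordinates `(t, a, c)` with a weight and without character -/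
def fN (w : ℤ × ℤ × ℤ → ℤ) (e : ℤ) (p : ℤ × ℤ × ℤ) : ℤ :=
  if p.2.1 % 2 = 1 ∧ p.2.2 % 2 = 1 ∧ 0 < p.2.1 ∧ 0 < p.2.2 ∧ p.1 ^ 2 + p.2.1 * p.2.2 = e then
    w p else 0

theorem fG_fN (w : ℤ × ℤ × ℤ → ℤ) (e : ℤ) : fG w e = fN (fun p => chi p.2.1 * w p) e := rfl

theorem fN_ne {w : ℤ × ℤ × ℤ → ℤ} {e t a c : ℤ} (h : fN w e (t, a, c) ≠ 0) :
    a % 2 = 1 ∧ c % 2 = 1 ∧ 0 < a ∧ 0 < c ∧ t ^ 2 + a * c = e ∧ w (t, a, c) ≠ 0 := by
  simp only [fN] at h
  split_ifs at h with hc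
  · exact ⟨hc.1, hc.2.1, hc.2.2.1, hc.2.2.2.1, hc.2.2.2.2, h⟩
  · exact absurd rfl h

theorem summ_fN (w : ℤ × ℤ × ℤ → ℤ) (e : ℤ) : Summable (fN w e) := by
  refine summ_box3 e.natAbs fun t a c h => ?_
  obtain ⟨_, _, h3, h4, h5, _⟩ := fN_ne h
  have := bnd_tac h3 h4 h5
  omega

theorem fN_add (w w' : ℤ × ℤ × ℤ → ℤ) (e : ℤ) :
    ∑' p, fN w e p + ∑' p, fN w' e p = ∑' p, fN (fun p => w p + w' p) e p := by
  rw [← (summ_fN w e).tsum_add (summ_fN w' e)]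
  refine tsum_congr fun p => ?_
  unfold fN
  split_ifs <;> ring

theorem fN_const (w : ℤ × ℤ × ℤ → ℤ) (k e : ℤ) :
    ∑' p, fN (fun p => k * w p) e p = k * ∑' p, fN w e p := by
  rw [← (summ_fN w e).tsum_mul_left]
  refine tsum_congr fun p => ?_
  unfold fN
  split_ifs <;> ring

theorem fN_congr {w w' : ℤ × ℤ × ℤ → ℤ} {e : ℤ} (h : ∀ t a c : ℤ, a % 2 = 1 → c % 2 = 1 → 0 < a →
    0 < c → t ^ 2 + a * c = e → w (t, a, c) = w' (t, a, c)) :
    ∑' p, fN w e p = ∑' p, fN w' e p := by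
  refine tsum_congr fun p => ?_
  obtain ⟨t, a, c⟩ := p
  unfold fN
  split_ifs with hc
  · rw [h t a c hc.1 hc.2.1 hc.2.2.1 hc.2.2.2.1 hc.2.2.2.2]
  · rfl

theorem fN_if {w : ℤ × ℤ × ℤ → ℤ} {e t a c : ℤ} (ha : a % 2 = 1) (hc : c % 2 = 1) (ha0 : 0 < a)
    (hc0 : 0 < c) (h : t ^ 2 + a * c = e) : fN w e (t, a, c) = w (t, a, c) := by
  unfold fN
  exact if_pos ⟨ha, hc, ha0, hc0, h⟩

theorem fN_neg (w : ℤ × ℤ × ℤ → ℤ) (e : ℤ) :
    ∑' p, fN w e p = ∑' p, fN (fun p => w (-p.1, p.2.1, p.2.2)) e p := by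
  refine tsum_pb _ _ (fun p => (-p.1, p.2.1, p.2.2)) (fun p => (-p.1, p.2.1, p.2.2)) ?_ ?_
  · rintro ⟨t, a, c⟩ h
    obtain ⟨h1, h2, h3, h4, h5, _⟩ := fN_ne h
    refine ⟨?_, by simp⟩
    simp only
    rw [fN_if h1 h2 h3 h4 h5, fN_if h1 h2 h3 h4 (by rw [← h5]; ring)]
    simp only [neg_neg]
  · rintro ⟨t, a, c⟩ h
    obtain ⟨h1, h2, h3, h4, h5, _⟩ := fN_ne h
    refine ⟨?_, by simp⟩
    simp only
    rw [fN_if h1 h2 h3 h4 h5, fN_if h1 h2 h3 h4 (by rw [← h5]; ring)]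

theorem fN_swap (w : ℤ × ℤ × ℤ → ℤ) (e : ℤ) :
    ∑' p, fN w e p = ∑' p, fN (fun p => w (p.1, p.2.2, p.2.1)) e p := by
  refine tsum_pb _ _ (fun p => (p.1, p.2.2, p.2.1)) (fun p => (p.1, p.2.2, p.2.1)) ?_ ?_
  · rintro ⟨t, a, c⟩ h
    obtain ⟨h1, h2, h3, h4, h5, _⟩ := fN_ne h
    refine ⟨?_, by simp⟩
    simp only
    rw [fN_if h1 h2 h3 h4 h5, fN_if h2 h1 h4 h3 (by rw [← h5]; ring)]
  · rintro ⟨t, a, c⟩ h
    obtain ⟨h1, h2, h3, h4, h5, _⟩ := fN_ne h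
    refine ⟨?_, by simp⟩
    simp only
    rw [fN_if h1 h2 h3 h4 h5, fN_if h2 h1 h4 h3 (by rw [← h5]; ring)]

theorem chi_mod2 {a : ℤ} (ha : a % 2 = 1) : (2 : ℤ) ∣ chi a - 1 := by
  unfold chi
  split_ifs <;> omega

/-- the character disappears modulo two -/
theorem fG_mod2 (w : ℤ × ℤ × ℤ → ℤ) (e : ℤ) :
    (2 : ℤ) ∣ ∑' p, fG w e p - ∑' p, fN w e p := by
  rw [← (summ_fG w e).tsum_sub (summ_fN w e)]
  refine dvd_tsum_int fun p => ?_
  unfold fG fN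
  split_ifs with hc
  · have := chi_mod2 hc.1
    rw [show chi p.2.1 * w p - w p = (chi p.2.1 - 1) * w p by ring]
    exact Dvd.dvd.mul_right this _
  · simp

theorem emod_key4 (t a : ℤ) : (t ^ 2 + a * a) % 4 =
    ((t % 4) ^ 2 + (a % 4) * (a % 4)) % 4 := emod_key2 t a a

/-- the sum over the negative part in the class `0` -/
theorem fG_zero {g : ℤ} : (4 : ℤ) ∣
    ∑' p, fG (fun p => wt (p.1 - p.2.1 + p.2.2)) (4 * g) p := by
  -- the weight is twice an indicator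
  have hodd : ∀ t a c : ℤ, a % 2 = 1 → c % 2 = 1 → t ^ 2 + a * c = 4 * g → t % 2 = 1 := by
    intro t a c h1 h2 h5
    have := (res_tac h1 h2 h5).1
    omega
  have h1 : ∑' p, fG (fun p => wt (p.1 - p.2.1 + p.2.2)) (4 * g) p =
      2 * ∑' p, fG (fun p => if 0 < p.1 - p.2.1 + p.2.2 then 1 else 0) (4 * g) p := by
    rw [← fG_const]
    refine fG_congr fun t a c h1 h2 h3 h4 h5 => ?_
    have := hodd t a c h1 h2 h5
    unfold wt
    simp only
    split_ifs <;> omega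
  rw [h1, show (4 : ℤ) = 2 * 2 by norm_num]
  refine mul_dvd_mul_left 2 ?_
  have h2 := fG_mod2 (fun p => if 0 < p.1 - p.2.1 + p.2.2 then 1 else 0) (2 * 2 * g)
  have h3 : 2 * ∑' p, fN (fun p => if 0 < p.1 - p.2.1 + p.2.2 then 1 else 0) (2 * 2 * g) p =
      ∑' p, fN (fun _ => 1) (2 * 2 * g) p := by
    have e1 := fN_neg (fun p => if 0 < p.1 - p.2.1 + p.2.2 then 1 else 0) (2 * 2 * g)
    have e2 := fN_swap (fun p => (fun p : ℤ × ℤ × ℤ => if 0 < p.1 - p.2.1 + p.2.2 then (1 : ℤ) else 0)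
      (-p.1, p.2.1, p.2.2)) (2 * 2 * g)
    simp only at e1 e2
    rw [two_mul]
    nth_rw 2 [e1]
    rw [e2, fN_add]
    refine fN_congr fun t a c h1 h2 h3 h4 h5 => ?_
    have := hodd t a c h1 h2 (by rw [h5]; ring)
    simp only
    split_ifs <;> omega
  have h4 : ∑' p, fN (fun _ => 1) (2 * 2 * g) p =
      4 * ∑' p, fN (fun p => if 0 < p.1 ∧ p.2.1 < p.2.2 then 1 else 0) (2 * 2 * g) p := by
    have e1 := fN_neg (fun p => if 0 < p.1 ∧ p.2.1 < p.2.2 then 1 else 0) (2 * 2 * g)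
    have e2 := fN_swap (fun p => if 0 < p.1 ∧ p.2.1 < p.2.2 then 1 else 0) (2 * 2 * g)
    have e3 := fN_swap (fun p => (fun p : ℤ × ℤ × ℤ => if 0 < p.1 ∧ p.2.1 < p.2.2 then (1 : ℤ) else 0)
      (-p.1, p.2.1, p.2.2)) (2 * 2 * g)
    simp only at e1 e2 e3
    have e4 : 4 * ∑' p, fN (fun p => if 0 < p.1 ∧ p.2.1 < p.2.2 then 1 else 0) (2 * 2 * g) p =
      (∑' p, fN (fun p => if 0 < p.1 ∧ p.2.1 < p.2.2 then 1 else 0) (2 * 2 * g) p +
      ∑' p, fN (fun p => if 0 < -p.1 ∧ p.2.1 < p.2.2 then 1 else 0) (2 * 2 * g) p) +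
      (∑' p, fN (fun p => if 0 < p.1 ∧ p.2.2 < p.2.1 then 1 else 0) (2 * 2 * g) p +
      ∑' p, fN (fun p => if 0 < -p.1 ∧ p.2.2 < p.2.1 then 1 else 0) (2 * 2 * g) p) := by
      linarith
    rw [e4, fN_add, fN_add, fN_add]
    refine fN_congr fun t a c h1 h2 h3 h4 h5 => ?_
    have h6 := hodd t a c h1 h2 (by rw [h5]; ring)
    have h7 := (res_tac h1 h2 (e := 4 * g) (by rw [h5]; ring)).2.2 (by omega)
    have h8 : a ≠ c := by
      rintro rfl
      omega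
    simp only
    split_ifs <;> omega
  obtain ⟨k, hk⟩ := h2
  refine ⟨k + ∑' p, fN (fun p => if 0 < p.1 ∧ p.2.1 < p.2.2 then 1 else 0) (2 * 2 * g) p, ?_⟩
  linarith

/-- the sum over the positive part in the class `0` -/
theorem fAp_zero2 {g : ℤ} : (2 : ℤ) ∣ ∑' p, fAp (4 * g) p := by
  refine dvd_tsum_int fun p => ?_
  obtain ⟨a, b, u⟩ := p
  by_cases h : fAp (4 * g) (a, b, u) = 0
  · rw [h]; exact dvd_zero 2
  · obtain ⟨h1, h2, h3, h4, h5, h6⟩ := fAp_ne h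
    have := (res_abu h1 h2 h6).1
    unfold fAp fA
    simp only
    rw [if_pos h4, if_pos ⟨h1, h2, h3, h6⟩]
    have : wt u = 2 := by
      unfold wt
      rw [if_pos (by omega)]
    rw [this]
    exact dvd_mul_left _ _

theorem emod8 (a u : ℤ) : ((a + a + u) ^ 2 - a * a) % 8 =
    ((a % 8 + a % 8 + u % 8) ^ 2 - (a % 8) * (a % 8)) % 8 := by
  have ha : a % 8 ≡ a [ZMOD 8] := Int.mod_modEq a 8
  have hu : u % 8 ≡ u [ZMOD 8] := Int.mod_modEq u 8
  exact ((((ha.add ha).add hu).pow 2).sub (ha.mul ha)).symm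

theorem fAp_zero4 {g : ℤ} (hg : g % 2 = 1) : (4 : ℤ) ∣ ∑' p, fAp (4 * g) p := by
  have hsym : ∀ a b u, fAp (4 * g) (a, b, u) ≠ 0 → fAp (4 * g) (b, a, u) = fAp (4 * g) (a, b, u) := by
    intro a b u h
    obtain ⟨h1, h2, h3, h4, h5, h6⟩ := fAp_ne h
    have := (res_abu h1 h2 h6).2.2 (by omega)
    unfold fAp fA
    simp only
    rw [if_pos h3, if_pos h4, if_pos ⟨h2, h1, h4, by rw [← h6]; ring⟩, if_pos ⟨h1, h2, h3, h6⟩,
      chi_eq this]
  have hdiag : ∀ a u, fAp (4 * g) (a, a, u) = 0 := by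
    intro a u
    by_contra h
    obtain ⟨h1, h2, h3, h4, h5, h6⟩ := fAp_ne h
    have h7 := (res_abu h1 h2 h6).1
    have key := emod8 a u
    rw [h6] at key
    have e1 : a % 8 = 1 ∨ a % 8 = 3 ∨ a % 8 = 5 ∨ a % 8 = 7 := by omega
    have e2 : u % 8 = 1 ∨ u % 8 = 3 ∨ u % 8 = 5 ∨ u % 8 = 7 := by omega
    rcases e1 with e1 | e1 | e1 | e1 <;> rcases e2 with e2 | e2 | e2 | e2 <;>
      rw [e1, e2] at key <;> norm_num at key <;> omega
  have hs1 : Summable (fun p : ℤ × ℤ × ℤ => if p.1 < p.2.1 then fAp (4 * g) p else 0) := by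
    refine summ_box3 (16 * (4 * g)).natAbs fun a b u h => ?_
    simp only at h
    split_ifs at h with hc
    · obtain ⟨_, _, h3, _, h4, h5⟩ := fAp_ne h
      have := bnd_abu h3 h4 h5
      omega
    · exact absurd rfl h
  have hs2 : Summable (fun p : ℤ × ℤ × ℤ => if p.2.1 < p.1 then fAp (4 * g) p else 0) := by
    refine summ_box3 (16 * (4 * g)).natAbs fun a b u h => ?_
    simp only at h
    split_ifs at h with hc
    · obtain ⟨_, _, h3, _, h4, h5⟩ := fAp_ne h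
      have := bnd_abu h3 h4 h5
      omega
    · exact absurd rfl h
  have h1 : ∑' p, fAp (4 * g) p = ∑' p : ℤ × ℤ × ℤ, (if p.1 < p.2.1 then fAp (4 * g) p else 0) +
      ∑' p : ℤ × ℤ × ℤ, (if p.2.1 < p.1 then fAp (4 * g) p else 0) := by
    rw [← hs1.tsum_add hs2]
    refine tsum_congr fun p => ?_
    obtain ⟨a, b, u⟩ := p
    simp only
    rcases lt_trichotomy a b with h | h | h
    · rw [if_pos h, if_neg (by omega), add_zero]
    · subst h
      rw [hdiag]; simp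
    · rw [if_neg (by omega), if_pos h, zero_add]
  have h2 : ∑' p : ℤ × ℤ × ℤ, (if p.2.1 < p.1 then fAp (4 * g) p else 0) =
      ∑' p : ℤ × ℤ × ℤ, (if p.1 < p.2.1 then fAp (4 * g) p else 0) := by
    refine tsum_pb _ _ (fun p => (p.2.1, p.1, p.2.2)) (fun p => (p.2.1, p.1, p.2.2)) ?_ ?_
    · rintro ⟨a, b, u⟩ h
      refine ⟨?_, rfl⟩
      simp only at h ⊢
      split_ifs at h ⊢ with hc
      · exact hsym _ _ _ h
      · exact absurd rfl h
    · rintro ⟨a, b, u⟩ h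
      refine ⟨?_, rfl⟩
      simp only at h ⊢
      split_ifs at h ⊢ with hc
      · exact hsym _ _ _ h
      · exact absurd rfl h
  rw [h1, h2, ← two_mul, show (4 : ℤ) = 2 * 2 by norm_num]
  refine mul_dvd_mul_left 2 (dvd_tsum_int fun p => ?_)
  obtain ⟨a, b, u⟩ := p
  simp only
  split_ifs with hc
  · by_cases h : fAp (4 * g) (a, b, u) = 0
    · rw [show (2 : ℤ) * 2 * g = 4 * g by ring, h]; exact dvd_zero 2
    · obtain ⟨h1, h2, h3, h4, h5, h6⟩ := fAp_ne h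
      have := (res_abu h1 h2 h6).1
      unfold fAp fA
      simp only
      rw [show (2 : ℤ) * 2 * g = 4 * g by ring, if_pos h4, if_pos ⟨h1, h2, h3, h6⟩]
      have : wt u = 2 := by
        unfold wt
        rw [if_pos (by omega)]
      rw [this]
      exact dvd_mul_left _ _
  · exact dvd_zero 2

theorem A_zero2 (g : ℤ) : (2 : ℤ) ∣ A (4 * g) := by
  rw [A_split]
  exact dvd_add fAp_zero2 ((by norm_num : (2 : ℤ) ∣ 4).trans fG_zero)

theorem A_zero4 {g : ℤ} (hg : g % 2 = 1) : (4 : ℤ) ∣ A (4 * g) := by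
  rw [A_split]
  exact dvd_add (fAp_zero4 hg) fG_zero

end Pool.Agent.K3h25.CM
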