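import Pool.Agent.K3h25.CM.Comb4

/-! Transformations of sums over lattice points, V: the class `3`. -/

open PowerSeries Finset Filter Topology
open scoped PowerSeries.WithPiTopology

namespace Pool.Agent.K3h25.CM

/-- summand of `T1` -/
def fT (e : ℤ) (p : ℤ × ℤ × ℤ) : ℤ :=
  if p.2.1 % 2 = 1 ∧ 0 < p.2.1 ∧ 0 < p.2.2 ∧ p.1 ^ 2 + 2 * (p.2.1 * p.2.2) = e then
    chi p.2.1 else 0

/-- sum over `x ^ 2 + 2 d δ = e` of `χ(d)` -/
noncomputable def T1 (e : ℤ) : ℤ := ∑' p, fT e p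

/-- the same in the coordinates `(a, b, u)` -/
def fB (e : ℤ) (p : ℤ × ℤ × ℤ) : ℤ :=
  if p.1 % 2 = 1 ∧ p.2.1 % 2 = 1 ∧ 0 < p.1 ∧ 0 < 2 * p.2.2 + p.1 + p.2.1 ∧
    (p.1 + p.2.1 + p.2.2) ^ 2 - p.1 * p.2.1 = e then chi p.1 else 0

theorem fB_ne {e a b u : ℤ} (h : fB e (a, b, u) ≠ 0) : a % 2 = 1 ∧ b % 2 = 1 ∧ 0 < a ∧
    0 < 2 * u + a + b ∧ (a + b + u) ^ 2 - a * b = e := by
  simp only [fB] at h
  split_ifs at h with hc
  · exact hc
  · exact absurd rfl h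

theorem fT_ne {e x d δ : ℤ} (h : fT e (x, d, δ) ≠ 0) : d % 2 = 1 ∧ 0 < d ∧
    0 < δ ∧ x ^ 2 + 2 * (d * δ) = e := by
  simp only [fT] at h
  split_ifs at h with hc
  · exact hc
  · exact absurd rfl h

theorem bnd_xd {x d δ e : ℤ} (hd : 0 < d) (hδ : 0 < δ) (h : x ^ 2 + 2 * (d * δ) = e) :
    d ≤ e ∧ δ ≤ e ∧ -e ≤ x ∧ x ≤ e ∧ 0 < e := by
  have h1 : 0 < d * δ := by positivity
  have h0 : 0 < e := by nlinarith [sq_nonneg x]
  refine ⟨by nlinarith [sq_nonneg x], by nlinarith [sq_nonneg x], ?_, ?_, h0⟩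
  · by_contra hc; push Not at hc; nlinarith
  · by_contra hc; push Not at hc; nlinarith

theorem summ_fT (e : ℤ) : Summable (fT e) := by
  refine summ_box3 e.natAbs fun x d δ h => ?_
  obtain ⟨_, h2, h3, h4⟩ := fT_ne h
  have := bnd_xd h2 h3 h4
  omega

theorem bnd_B {a b u e : ℤ} (ha2 : a % 2 = 1) (hb2 : b % 2 = 1) (ha : 0 < a)
    (hu : 0 < 2 * u + a + b) (h : (a + b + u) ^ 2 - a * b = e) :
    a ≤ 5 * e ∧ -(5 * e) ≤ b ∧ b ≤ 5 * e ∧ -(5 * e) ≤ u ∧ u ≤ 5 * e ∧ 0 < e := by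
  obtain ⟨δ, hδ⟩ : ∃ δ : ℤ, 2 * u + a + b = 2 * δ := ⟨(2 * u + a + b) / 2, by omega⟩
  have h1 : (b + u) ^ 2 + 2 * (a * δ) = e := by
    have : 2 * (a * δ) = a * (2 * u + a + b) := by rw [hδ]; ring
    rw [this, ← h]; ring
  have := bnd_xd ha (by omega) h1
  omega

theorem summ_fB (e : ℤ) : Summable (fB e) := by
  refine summ_box3 (5 * e).natAbs fun a b u h => ?_
  obtain ⟨h1, h2, h3, h4, h5⟩ := fB_ne h
  have := bnd_B h1 h2 h3 h4 h5
  omega

theorem T1_eq (e : ℤ) : T1 e = ∑' p, fB e p := by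
  unfold T1
  refine tsum_pb _ _ (fun p => (p.2.1, 2 * p.1 + p.2.1 - 2 * p.2.2, 2 * p.2.2 - p.1 - p.2.1))
    (fun p => (p.2.1 + p.2.2, p.1, (2 * p.2.2 + p.1 + p.2.1) / 2)) ?_ ?_
  · rintro ⟨x, d, δ⟩ h
    obtain ⟨h1, h2, h3, h4⟩ := fT_ne h
    constructor
    · unfold fT fB
      simp only
      have h5 : (d + (2 * x + d - 2 * δ) + (2 * δ - x - d)) ^ 2 - d * (2 * x + d - 2 * δ) = e := by
        rw [← h4]; ring
      rw [if_pos ⟨h1, by omega, h2, by omega, h5⟩, if_pos ⟨h1, h2, h3, h4⟩]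
    · simp only
      refine Prod.ext ?_ (Prod.ext ?_ ?_) <;> simp only <;> omega
  · rintro ⟨a, b, u⟩ h
    obtain ⟨h1, h2, h3, h4, h5⟩ := fB_ne h
    obtain ⟨δ, hδ⟩ : ∃ δ : ℤ, 2 * u + a + b = 2 * δ := ⟨(2 * u + a + b) / 2, by omega⟩
    have e1 : (2 * u + a + b) / 2 = δ := by omega
    have e2 : (b + u) ^ 2 + 2 * (a * δ) = e := by
      have : 2 * (a * δ) = a * (2 * u + a + b) := by rw [hδ]; ring
      rw [this, ← h5]; ring
    constructor
    · unfold fT fB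
      simp only
      rw [e1, if_pos ⟨h1, h3, by omega, e2⟩, if_pos ⟨h1, h2, h3, h4, h5⟩]
    · simp only
      rw [e1]
      refine Prod.ext ?_ (Prod.ext ?_ ?_) <;> simp only <;> omega

/-- splitting of `T1` -/
theorem T1_split (e : ℤ) : T1 e = ∑' p : ℤ × ℤ × ℤ, (if 0 < p.2.1 then fB e p else 0) +
    ∑' p, fG (fun p => if 0 < 2 * p.1 - p.2.1 + p.2.2 then 1 else 0) e p := by
  have hs1 : Summable (fun p : ℤ × ℤ × ℤ => if 0 < p.2.1 then fB e p else 0) := by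
    refine summ_box3 (5 * e).natAbs fun a b u h => ?_
    simp only at h
    split_ifs at h with hc
    · obtain ⟨h1, h2, h3, h4, h5⟩ := fB_ne h
      have := bnd_B h1 h2 h3 h4 h5
      omega
    · exact absurd rfl h
  have hs2 : Summable (fun p : ℤ × ℤ × ℤ => if p.2.1 < 0 then fB e p else 0) := by
    refine summ_box3 (5 * e).natAbs fun a b u h => ?_
    simp only at h
    split_ifs at h with hc
    · obtain ⟨h1, h2, h3, h4, h5⟩ := fB_ne h
      have := bnd_B h1 h2 h3 h4 h5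
      omega
    · exact absurd rfl h
  have h1 : T1 e = ∑' p : ℤ × ℤ × ℤ, (if 0 < p.2.1 then fB e p else 0) +
      ∑' p : ℤ × ℤ × ℤ, (if p.2.1 < 0 then fB e p else 0) := by
    rw [T1_eq, ← hs1.tsum_add hs2]
    refine tsum_congr fun p => ?_
    obtain ⟨a, b, u⟩ := p
    simp only
    rcases lt_trichotomy b 0 with h | h | h
    · rw [if_neg (by omega), if_pos h, zero_add]
    · subst h
      simp [fB]
    · rw [if_pos h, if_neg (by omega), add_zero]
  rw [h1]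
  congr 1
  refine tsum_pb _ _ (fun p => (p.1 + p.2.1 + p.2.2, p.1, -p.2.1))
    (fun p => (p.2.1, -p.2.2, p.1 - p.2.1 + p.2.2)) ?_ ?_
  · rintro ⟨a, b, u⟩ h
    simp only at h
    split_ifs at h with hc
    · obtain ⟨h1, h2, h3, h4, h5⟩ := fB_ne h
      simp only
      rw [if_pos hc]
      constructor
      · rw [fG_if h1 (by omega) h3 (by omega) (by rw [← h5]; ring)]
        unfold fB
        simp only
        rw [if_pos (by omega), if_pos ⟨h1, h2, h3, h4, h5⟩, mul_one]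
      · refine Prod.ext ?_ (Prod.ext ?_ ?_) <;> simp only <;> ring
    · exact absurd rfl h
  · rintro ⟨t, a, c⟩ h
    obtain ⟨h1, h2, h3, h4, h5, h6⟩ := fG_ne h
    simp only at h6
    have h7 : 0 < 2 * t - a + c := by
      by_contra hc
      exact h6 (if_neg hc)
    simp only
    rw [if_pos (by omega), fG_if h1 h2 h3 h4 h5]
    constructor
    · unfold fB
      simp only
      rw [if_pos, if_pos h7, mul_one]
      exact ⟨h1, by omega, h3, by omega, by rw [← h5]; ring⟩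
    · refine Prod.ext ?_ (Prod.ext ?_ ?_) <;> simp only <;> ring

/-- the summand of `φ(-q) LL` -/
def fL (n : ℤ) (q : ℤ × ℕ × ℕ) : ℤ :=
  if q.1 ^ 2 + (3 * ((q.2.1 : ℤ) * (q.2.1 + 1)) + (2 * q.2.1 + 1) * q.2.2) = n then
      sgz q.1 * ((-1) ^ q.2.1 * (-1) ^ q.2.2 * wtN q.2.2) else 0

theorem fL_ne {n v : ℤ} {j u : ℕ} (h : fL n (v, j, u) ≠ 0) :
    v ^ 2 + (3 * ((j : ℤ) * (j + 1)) + (2 * j + 1) * u) = n := by
  simp only [fL] at h
  split_ifs at h with hc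
  · exact hc
  · exact absurd rfl h

theorem bnd_L {n v : ℤ} {j u : ℕ} (h : v ^ 2 + (3 * ((j : ℤ) * (j + 1)) + (2 * j + 1) * u) = n) :
    v.natAbs ≤ n.natAbs ∧ j ≤ n.natAbs ∧ u ≤ n.natAbs := by
  have h2 := bound_aux 3 n (v ^ 2) j u (by norm_num) (sq_nonneg v) (by linarith) (by norm_num)
  have h3 : (v.natAbs : ℤ) ≤ n := by
    rw [Int.natCast_natAbs, abs_le]
    constructor <;> nlinarith [h2.1]
  omega

theorem summ_fL (n : ℤ) (P : ℤ × ℕ × ℕ → Prop) [DecidablePred P] :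
    Summable (fun q => if P q then fL n q else 0) := by
  refine summ_box n.natAbs fun v j u h => ?_
  split_ifs at h with hc
  · exact bnd_L (fL_ne h)
  · exact absurd rfl h

theorem phm_LL' (n : ℕ) : coeff n (phm * LL) =
    ∑' q : ℤ × ℕ × ℕ, (if (2 * q.1 < 2 * q.2.1 + 1 + 2 * q.2.2 ∧
      -(2 * q.1) < 2 * q.2.1 + 1 + 2 * q.2.2) then fL n q else 0) +
    (∑' q : ℤ × ℕ × ℕ, (if (2 * (q.2.1 : ℤ) + 1 + 2 * q.2.2 < 2 * q.1) then fL n q else 0) +
    ∑' q : ℤ × ℕ × ℕ, (if (2 * (q.2.1 : ℤ) + 1 + 2 * q.2.2 < -(2 * q.1)) then fL n q else 0)) := by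
  rw [phm_LL]
  rw [← (summ_fL n _).tsum_add (summ_fL n _), ← (summ_fL n _).tsum_add]
  · refine tsum_congr fun q => ?_
    obtain ⟨v, j, u⟩ := q
    change fL n (v, j, u) = _
    simp only
    rcases lt_trichotomy (2 * v) (2 * j + 1 + 2 * u) with h | h | h
    · rcases lt_trichotomy (-(2 * v)) (2 * j + 1 + 2 * u) with h' | h' | h'
      · rw [if_pos ⟨h, h'⟩, if_neg (by omega), if_neg (by omega)]; ring
      · omega
      · rw [if_neg (by omega), if_neg (by omega), if_pos (by omega)]; ring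
    · omega
    · rw [if_neg (by omega), if_pos (by omega), if_neg (by omega)]; ring
  · exact (summ_fL n _).add (summ_fL n _)

theorem sgz_eq (v : ℤ) : sgz v = if v % 2 = 0 then 1 else -1 := by
  unfold sgz
  split_ifs with h
  · exact Even.neg_one_pow (by rw [Int.natAbs_even]; exact Int.even_iff.2 h)
  · exact Odd.neg_one_pow (by rw [Int.natAbs_odd]; exact Int.odd_iff.2 (by omega))

theorem chi_sgz (v : ℤ) (j u : ℕ) : chi (2 * (v + j + u) + 1) = sgz v * ((-1) ^ j * (-1) ^ u) := by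
  have h1 : ((-1 : ℤ) ^ j) = sgz j := by unfold sgz; rw [Int.natAbs_natCast]
  have h2 : ((-1 : ℤ) ^ u) = sgz u := by unfold sgz; rw [Int.natAbs_natCast]
  rw [h1, h2, sgz_eq, sgz_eq, sgz_eq]
  unfold chi
  split_ifs <;> omega

theorem wt_two (u : ℕ) : wt (2 * (u : ℤ)) = wtN u := by
  unfold wt wtN
  split_ifs <;> omega

/-- the difference of the positive parts -/
theorem pos_part (n : ℕ) : 2 * ∑' p : ℤ × ℤ × ℤ, (if 0 < p.2.1 then fB (4 * n + 3) p else 0) -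
    ∑' p, fAp (4 * n + 3) p = ∑' q : ℤ × ℕ × ℕ, (if (2 * q.1 < 2 * q.2.1 + 1 + 2 * q.2.2 ∧
      -(2 * q.1) < 2 * q.2.1 + 1 + 2 * q.2.2) then fL n q else 0) := by
  have hs1 : Summable (fun p : ℤ × ℤ × ℤ => if 0 < p.2.1 then fB (4 * n + 3) p else 0) := by
    refine summ_box3 (5 * (4 * (n : ℤ) + 3)).natAbs fun a b u h => ?_
    simp only at h
    split_ifs at h with hc
    · obtain ⟨h1, h2, h3, h4, h5⟩ := fB_ne h
      have := bnd_B h1 h2 h3 h4 h5
      omega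
    · exact absurd rfl h
  rw [← hs1.tsum_mul_left, ← (hs1.mul_left 2).tsum_sub (summ_fAp _)]
  have hval : ∀ a b u : ℤ, 2 * (if 0 < b then fB (4 * n + 3) (a, b, u) else 0) -
      fAp (4 * n + 3) (a, b, u) = if a % 2 = 1 ∧ b % 2 = 1 ∧ 0 < a ∧ 0 < b ∧ 0 < 2 * u + a + b ∧
        (a + b + u) ^ 2 - a * b = 4 * n + 3 then chi a * wt (-u) else 0 := by
    intro a b u
    have hwt := wt_add_neg u
    unfold fAp fB fA
    simp only
    by_cases hb : 0 < b
    · rw [if_pos hb, if_pos hb]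
      by_cases hu : 0 < 2 * u + a + b
      · by_cases hr : a % 2 = 1 ∧ b % 2 = 1 ∧ 0 < a ∧ (a + b + u) ^ 2 - a * b = 4 * n + 3
        · rw [if_pos ⟨hr.1, hr.2.1, hr.2.2.1, hu, hr.2.2.2⟩, if_pos hr,
            if_pos ⟨hr.1, hr.2.1, hr.2.2.1, hb, hu, hr.2.2.2⟩]
          linear_combination (-chi a) * hwt
        · rw [if_neg (fun h => hr ⟨h.1, h.2.1, h.2.2.1, h.2.2.2.2⟩), if_neg hr,
            if_neg (fun h => hr ⟨h.1, h.2.1, h.2.2.1, h.2.2.2.2.2⟩)]
          ring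
      · rw [if_neg (fun h => hu h.2.2.2.1), if_neg (c := _ ∧ _ ∧ _ ∧ _ ∧ 0 < 2 * u + a + b ∧ _)
          (fun h => hu h.2.2.2.2.1)]
        by_cases hr : a % 2 = 1 ∧ b % 2 = 1 ∧ 0 < a ∧ (a + b + u) ^ 2 - a * b = 4 * n + 3
        · rw [if_pos hr]
          have : wt u = 0 := by
            unfold wt
            rw [if_neg (by omega), if_neg (by omega)]
          rw [this]; ring
        · rw [if_neg hr]; ring
    · rw [if_neg hb, if_neg hb, if_neg (fun h => hb h.2.2.2.1)]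
      ring
  refine tsum_pb _ _ (fun p => ((p.1 - p.2.1) / 4, (((p.1 + p.2.1) / 2 + p.2.2 - 1) / 2).toNat,
      (-p.2.2 / 2).toNat))
    (fun q => (2 * q.2.1 + 1 + 2 * q.2.2 + 2 * q.1, 2 * q.2.1 + 1 + 2 * q.2.2 - 2 * q.1,
      -(2 * (q.2.2 : ℤ)))) ?_ ?_
  · rintro ⟨a, b, u⟩ h
    simp only at h ⊢
    rw [hval] at h ⊢
    have hc : a % 2 = 1 ∧ b % 2 = 1 ∧ 0 < a ∧ 0 < b ∧ 0 < 2 * u + a + b ∧
        (a + b + u) ^ 2 - a * b = 4 * n + 3 := by
      by_contra hc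
      exact h (if_neg hc)
    rw [if_pos hc] at h ⊢
    obtain ⟨h1, h2, h3, h4, h5, h6⟩ := hc
    have h7 := wt_ne (right_ne_zero_of_mul h)
    have hres := res_abu h1 h2 h6
    have hr1 := hres.1
    have hr2 := hres.2.2 (by omega)
    obtain ⟨U, hU⟩ : ∃ U : ℕ, u = -(2 * (U : ℤ)) := ⟨(-u / 2).toNat, by omega⟩
    obtain ⟨j, hj⟩ : ∃ j : ℕ, (a + b) / 2 + u = 2 * j + 1 := ⟨(((a + b) / 2 + u - 1) / 2).toNat, by omega⟩
    obtain ⟨v, hv⟩ : ∃ v : ℤ, a - b = 4 * v := ⟨(a - b) / 4, by omega⟩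
    have ea : a = 2 * j + 1 + 2 * U + 2 * v := by omega
    have eb : b = 2 * j + 1 + 2 * U - 2 * v := by omega
    have e1 : (a - b) / 4 = v := by omega
    have e2 : (((a + b) / 2 + u - 1) / 2).toNat = j := by omega
    have e3 : (-u / 2).toNat = U := by omega
    rw [e1, e2, e3]
    constructor
    · rw [if_pos (by omega)]
      unfold fL
      simp only
      rw [if_pos]
      · rw [hU, neg_neg, wt_two, ea, show 2 * (j : ℤ) + 1 + 2 * U + 2 * v = 2 * (v + j + U) + 1 by ring,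
          chi_sgz]
        ring
      · rw [ea, eb, hU] at h6
        nlinarith [h6]
    · refine Prod.ext ?_ (Prod.ext ?_ ?_) <;> simp only <;> omega
  · rintro ⟨v, j, u⟩ h
    simp only at h ⊢
    have hc : 2 * v < 2 * j + 1 + 2 * u ∧ -(2 * v) < 2 * j + 1 + 2 * u := by
      by_contra hc
      exact h (if_neg hc)
    rw [if_pos hc] at h ⊢
    have h5 := fL_ne h
    rw [hval]
    constructor
    · rw [if_pos]
      · unfold fL
        simp only
        rw [if_pos h5, neg_neg, wt_two,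
          show 2 * (j : ℤ) + 1 + 2 * u + 2 * v = 2 * (v + j + u) + 1 by ring, chi_sgz]
        ring
      · refine ⟨by omega, by omega, by omega, by omega, by omega, ?_⟩
        nlinarith [h5]
    · refine Prod.ext ?_ (Prod.ext ?_ ?_) <;> simp only <;> omega

end Pool.Agent.K3h25.CM
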