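import Pool.Agent.K3h25.CM.Comb5

/-! Transformations of sums over lattice points, VI: the class `3`, conclusion. -/

open PowerSeries Finset Filter Topology
open scoped PowerSeries.WithPiTopology

namespace Pool.Agent.K3h25.CM

theorem fG_sub (w w' : ℤ × ℤ × ℤ → ℤ) (e : ℤ) :
    ∑' p, fG w e p - ∑' p, fG w' e p = ∑' p, fG (fun p => w p - w' p) e p := by
  rw [← (summ_fG w e).tsum_sub (summ_fG w' e)]
  refine tsum_congr fun p => ?_
  unfold fG
  split_ifs <;> ring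

/-- the first half of the antisymmetrised weight -/
def Gp (p : ℤ × ℤ × ℤ) : ℤ :=
  if 0 < 2 * p.1 - p.2.1 + p.2.2 ∧ 0 < p.1 then wt (-(p.1 - p.2.1 + p.2.2)) else 0

/-- the second half of the antisymmetrised weight -/
def Gm (p : ℤ × ℤ × ℤ) : ℤ :=
  if 2 * p.1 - p.2.1 + p.2.2 < 0 ∧ p.1 < 0 then -wt (p.1 - p.2.1 + p.2.2) else 0

theorem neg_part_aux (n : ℕ) :
    2 * ∑' p, fG (fun p => if 0 < 2 * p.1 - p.2.1 + p.2.2 then 1 else 0) (4 * n + 3) p -
    ∑' p, fG (fun p => wt (p.1 - p.2.1 + p.2.2)) (4 * n + 3) p =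
    ∑' p, fG Gp (4 * n + 3) p + ∑' p, fG Gm (4 * n + 3) p := by
  set w : ℤ × ℤ × ℤ → ℤ := fun p => 2 * (if 0 < 2 * p.1 - p.2.1 + p.2.2 then 1 else 0) -
    wt (p.1 - p.2.1 + p.2.2) with hw
  have h1 := fG_const (fun p => if 0 < 2 * p.1 - p.2.1 + p.2.2 then 1 else 0) 2 (4 * n + 3)
  rw [← h1, fG_sub]
  change ∑' p, fG w (4 * n + 3) p = _
  have h2 := fG_refl' (w := w) (e := 4 * n + 3) (by omega)
  have h3 : 2 * ∑' p, fG w (4 * n + 3) p =
      ∑' p, fG (fun p => w p - w (-p.1, p.2.2, p.2.1)) (4 * n + 3) p := by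
    have h3' := fG_sub w (fun p => w (-p.1, p.2.2, p.2.1)) (4 * n + 3)
    linarith
  have h4 : 2 * (∑' p, fG Gp (4 * n + 3) p + ∑' p, fG Gm (4 * n + 3) p) =
      ∑' p, fG (fun p => w p - w (-p.1, p.2.2, p.2.1)) (4 * n + 3) p := by
    rw [fG_add, ← fG_const]
    refine fG_congr fun t a c h1 h2 h3 h4 h5 => ?_
    have hr1 := (res_tac h1 h2 h5).1
    have hr2 := (res_tac h1 h2 h5).2.2 (by omega)
    simp only [hw, Gp, Gm]
    unfold wt
    split_ifs <;> omega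
  linarith

theorem Gp_ne {t a c : ℤ} (h : Gp (t, a, c) ≠ 0) : 0 < 2 * t - a + c ∧ 0 < t ∧
    0 ≤ -(t - a + c) := by
  simp only [Gp] at h
  split_ifs at h with hc
  · exact ⟨hc.1, hc.2, wt_ne h⟩
  · exact absurd rfl h

theorem Gm_ne {t a c : ℤ} (h : Gm (t, a, c) ≠ 0) : 2 * t - a + c < 0 ∧ t < 0 ∧
    0 ≤ t - a + c := by
  simp only [Gm] at h
  split_ifs at h with hc
  · exact ⟨hc.1, hc.2, wt_ne (by intro h'; rw [h'] at h; exact h neg_zero)⟩
  · exact absurd rfl h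

theorem fG_Gp (n : ℕ) : ∑' p, fG Gp (4 * n + 3) p =
    ∑' q : ℤ × ℕ × ℕ, (if (2 * (q.2.1 : ℤ) + 1 + 2 * q.2.2 < 2 * q.1) then fL n q else 0) := by
  refine tsum_pb _ _ (fun p => ((p.2.1 + p.2.2) / 4,
      (((2 * p.1 - p.2.1 + p.2.2) / 2 - 1) / 2).toNat, (-(p.1 - p.2.1 + p.2.2) / 2).toNat))
    (fun q => (2 * (2 * q.2.1 + 1) + 2 * q.2.2, 2 * q.1 + (2 * q.2.1 + 1 + 2 * q.2.2),
      2 * q.1 - (2 * q.2.1 + 1 + 2 * q.2.2))) ?_ ?_
  · rintro ⟨t, a, c⟩ h
    obtain ⟨h1, h2, h3, h4, h5, h6⟩ := fG_ne h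
    have h7 := Gp_ne h6
    have hr1 := (res_tac h1 h2 h5).1
    have hr2 := (res_tac h1 h2 h5).2.2 (by omega)
    obtain ⟨U, hU⟩ : ∃ U : ℕ, t - a + c = -(2 * (U : ℤ)) := ⟨(-(t - a + c) / 2).toNat, by omega⟩
    obtain ⟨j, hj⟩ : ∃ j : ℕ, 2 * t - a + c = 2 * (2 * (j : ℤ) + 1) :=
      ⟨(((2 * t - a + c) / 2 - 1) / 2).toNat, by omega⟩
    obtain ⟨v, hv⟩ : ∃ v : ℤ, a + c = 4 * v := ⟨(a + c) / 4, by omega⟩
    have et : t = 2 * (2 * j + 1) + 2 * U := by omega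
    have ea : a = 2 * v + (2 * j + 1 + 2 * U) := by omega
    have ec : c = 2 * v - (2 * j + 1 + 2 * U) := by omega
    have e1 : (a + c) / 4 = v := by omega
    have e2 : (((2 * t - a + c) / 2 - 1) / 2).toNat = j := by omega
    have e3 : (-(t - a + c) / 2).toNat = U := by omega
    simp only [e1, e2, e3]
    constructor
    · rw [if_pos (by omega), fG_if h1 h2 h3 h4 h5]
      unfold fL Gp
      simp only
      rw [if_pos, if_pos ⟨h7.1, h7.2.1⟩, hU, neg_neg, wt_two, ea,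
        show 2 * v + (2 * (j : ℤ) + 1 + 2 * U) = 2 * (v + j + U) + 1 by ring, chi_sgz]
      · ring
      · rw [et, ea, ec] at h5
        nlinarith [h5]
    · refine Prod.ext ?_ (Prod.ext ?_ ?_) <;> simp only <;> omega
  · rintro ⟨v, j, u⟩ h
    simp only at h ⊢
    have hc : 2 * (j : ℤ) + 1 + 2 * u < 2 * v := by
      by_contra hc
      exact h (if_neg hc)
    rw [if_pos hc] at h ⊢
    have h5 := fL_ne h
    constructor
    · rw [fG_if (by omega) (by omega) (by omega) (by omega) (by nlinarith [h5])]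
      unfold fL Gp
      simp only
      rw [if_pos h5, if_pos (by omega),
        show -(2 * (2 * (j : ℤ) + 1) + 2 * u - (2 * v + (2 * j + 1 + 2 * u)) +
          (2 * v - (2 * j + 1 + 2 * u))) = 2 * u by ring, wt_two,
        show 2 * v + (2 * (j : ℤ) + 1 + 2 * u) = 2 * (v + j + u) + 1 by ring, chi_sgz]
      ring
    · refine Prod.ext ?_ (Prod.ext ?_ ?_) <;> simp only <;> omega

theorem fG_Gm (n : ℕ) : ∑' p, fG Gm (4 * n + 3) p =
    ∑' q : ℤ × ℕ × ℕ, (if (2 * (q.2.1 : ℤ) + 1 + 2 * q.2.2 < -(2 * q.1)) then fL n q else 0) := by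
  refine tsum_pb _ _ (fun p => (-((p.2.1 + p.2.2) / 4),
      ((-(2 * p.1 - p.2.1 + p.2.2) / 2 - 1) / 2).toNat, ((p.1 - p.2.1 + p.2.2) / 2).toNat))
    (fun q => (-(2 * (2 * q.2.1 + 1) + 2 * q.2.2), -(2 * q.1) - (2 * q.2.1 + 1 + 2 * q.2.2),
      -(2 * q.1) + (2 * q.2.1 + 1 + 2 * q.2.2))) ?_ ?_
  · rintro ⟨t, a, c⟩ h
    obtain ⟨h1, h2, h3, h4, h5, h6⟩ := fG_ne h
    have h7 := Gm_ne h6
    have hr1 := (res_tac h1 h2 h5).1
    have hr2 := (res_tac h1 h2 h5).2.2 (by omega)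
    obtain ⟨U, hU⟩ : ∃ U : ℕ, t - a + c = 2 * (U : ℤ) := ⟨((t - a + c) / 2).toNat, by omega⟩
    obtain ⟨j, hj⟩ : ∃ j : ℕ, 2 * t - a + c = -(2 * (2 * (j : ℤ) + 1)) :=
      ⟨((-(2 * t - a + c) / 2 - 1) / 2).toNat, by omega⟩
    obtain ⟨v, hv⟩ : ∃ v : ℤ, a + c = -(4 * v) := ⟨-((a + c) / 4), by omega⟩
    have et : t = -(2 * (2 * j + 1) + 2 * U) := by omega
    have ea : a = -(2 * v) - (2 * j + 1 + 2 * U) := by omega
    have ec : c = -(2 * v) + (2 * j + 1 + 2 * U) := by omega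
    have e1 : -((a + c) / 4) = v := by omega
    have e2 : ((-(2 * t - a + c) / 2 - 1) / 2).toNat = j := by omega
    have e3 : ((t - a + c) / 2).toNat = U := by omega
    simp only [e1, e2, e3]
    constructor
    · rw [if_pos (by omega), fG_if h1 h2 h3 h4 h5]
      have e5 := chi_neg (b := 2 * (v + j + U) + 1) h1 (by rw [ea]; omega)
      rw [chi_sgz] at e5
      unfold fL Gm
      simp only
      rw [if_pos, if_pos ⟨h7.1, h7.2.1⟩, hU, wt_two]
      · linear_combination wtN U * e5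
      · rw [et, ea, ec] at h5
        nlinarith [h5]
    · refine Prod.ext ?_ (Prod.ext ?_ ?_) <;> simp only <;> omega
  · rintro ⟨v, j, u⟩ h
    simp only at h ⊢
    have hc : 2 * (j : ℤ) + 1 + 2 * u < -(2 * v) := by
      by_contra hc
      exact h (if_neg hc)
    rw [if_pos hc] at h ⊢
    have h5 := fL_ne h
    constructor
    · have ho : (-(2 * v) - (2 * (j : ℤ) + 1 + 2 * u)) % 2 = 1 := by omega
      have e5 := chi_neg (b := 2 * (v + j + u) + 1) ho (by omega)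
      rw [chi_sgz] at e5
      rw [fG_if (by omega) (by omega) (by omega) (by omega) (by nlinarith [h5])]
      unfold fL Gm
      simp only
      rw [if_pos h5, if_pos (by omega),
        show (-(2 * (2 * (j : ℤ) + 1) + 2 * u) - (-(2 * v) - (2 * j + 1 + 2 * u)) +
          (-(2 * v) + (2 * j + 1 + 2 * u))) = 2 * u by ring, wt_two]
      linear_combination (-wtN u) * e5
    · refine Prod.ext ?_ (Prod.ext ?_ ?_) <;> simp only <;> omega

/-- class `3` modulo four -/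
theorem A_three (n : ℕ) : A (4 * n + 3) + coeff n (phm * LL) = 2 * T1 (4 * n + 3) := by
  have h1 := neg_part_aux n
  have h2 := pos_part n
  rw [fG_Gp, fG_Gm] at h1
  rw [phm_LL', T1_split, A_split]
  linarith

end Pool.Agent.K3h25.CM
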