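import Pool.Agent.K3h25.CM.Comb6

/-! Transformations of sums over lattice points, VII: `T1` modulo four. -/

open PowerSeries Finset Filter Topology
open scoped PowerSeries.WithPiTopology

namespace Pool.Agent.K3h25.CM

/-- summand with weight in the coordinates `(x, d, δ)` -/
def fS (w : ℤ × ℤ × ℤ → ℤ) (e : ℤ) (p : ℤ × ℤ × ℤ) : ℤ :=
  if p.2.1 % 2 = 1 ∧ p.2.2 % 2 = 1 ∧ 0 < p.2.1 ∧ 0 < p.2.2 ∧ p.1 ^ 2 + 2 * (p.2.1 * p.2.2) = e
    then w p else 0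

theorem fS_ne {w : ℤ × ℤ × ℤ → ℤ} {e t a c : ℤ} (h : fS w e (t, a, c) ≠ 0) :
    a % 2 = 1 ∧ c % 2 = 1 ∧ 0 < a ∧ 0 < c ∧ t ^ 2 + 2 * (a * c) = e ∧ w (t, a, c) ≠ 0 := by
  simp only [fS] at h
  split_ifs at h with hc
  · exact ⟨hc.1, hc.2.1, hc.2.2.1, hc.2.2.2.1, hc.2.2.2.2, h⟩
  · exact absurd rfl h

theorem summ_fS (w : ℤ × ℤ × ℤ → ℤ) (e : ℤ) : Summable (fS w e) := by
  refine summ_box3 e.natAbs fun t a c h => ?_
  obtain ⟨_, _, h3, h4, h5, _⟩ := fS_ne h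
  have := bnd_xd h3 h4 h5
  omega

theorem fS_add (w w' : ℤ × ℤ × ℤ → ℤ) (e : ℤ) :
    ∑' p, fS w e p + ∑' p, fS w' e p = ∑' p, fS (fun p => w p + w' p) e p := by
  rw [← (summ_fS w e).tsum_add (summ_fS w' e)]
  refine tsum_congr fun p => ?_
  unfold fS
  split_ifs <;> ring

theorem fS_congr {w w' : ℤ × ℤ × ℤ → ℤ} {e : ℤ} (h : ∀ t a c : ℤ, a % 2 = 1 → c % 2 = 1 → 0 < a →
    0 < c → t ^ 2 + 2 * (a * c) = e → w (t, a, c) = w' (t, a, c)) :
    ∑' p, fS w e p = ∑' p, fS w' e p := by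
  refine tsum_congr fun p => ?_
  obtain ⟨t, a, c⟩ := p
  unfold fS
  split_ifs with hc
  · rw [h t a c hc.1 hc.2.1 hc.2.2.1 hc.2.2.2.1 hc.2.2.2.2]
  · rfl

theorem fS_if {w : ℤ × ℤ × ℤ → ℤ} {e t a c : ℤ} (ha : a % 2 = 1) (hc : c % 2 = 1) (ha0 : 0 < a)
    (hc0 : 0 < c) (h : t ^ 2 + 2 * (a * c) = e) : fS w e (t, a, c) = w (t, a, c) := by
  unfold fS
  exact if_pos ⟨ha, hc, ha0, hc0, h⟩

theorem fS_neg (w : ℤ × ℤ × ℤ → ℤ) (e : ℤ) :
    ∑' p, fS w e p = ∑' p, fS (fun p => w (-p.1, p.2.1, p.2.2)) e p := by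
  refine tsum_pb _ _ (fun p => (-p.1, p.2.1, p.2.2)) (fun p => (-p.1, p.2.1, p.2.2)) ?_ ?_
  · rintro ⟨t, a, c⟩ h
    obtain ⟨h1, h2, h3, h4, h5, _⟩ := fS_ne h
    refine ⟨?_, by simp⟩
    simp only
    rw [fS_if h1 h2 h3 h4 h5, fS_if h1 h2 h3 h4 (by rw [← h5]; ring)]
    simp only [neg_neg]
  · rintro ⟨t, a, c⟩ h
    obtain ⟨h1, h2, h3, h4, h5, _⟩ := fS_ne h
    refine ⟨?_, by simp⟩
    simp only
    rw [fS_if h1 h2 h3 h4 h5, fS_if h1 h2 h3 h4 (by rw [← h5]; ring)]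

theorem fS_swap (w : ℤ × ℤ × ℤ → ℤ) (e : ℤ) :
    ∑' p, fS w e p = ∑' p, fS (fun p => w (p.1, p.2.2, p.2.1)) e p := by
  refine tsum_pb _ _ (fun p => (p.1, p.2.2, p.2.1)) (fun p => (p.1, p.2.2, p.2.1)) ?_ ?_
  · rintro ⟨t, a, c⟩ h
    obtain ⟨h1, h2, h3, h4, h5, _⟩ := fS_ne h
    refine ⟨?_, by simp⟩
    simp only
    rw [fS_if h1 h2 h3 h4 h5, fS_if h2 h1 h4 h3 (by rw [← h5]; ring)]
  · rintro ⟨t, a, c⟩ h
    obtain ⟨h1, h2, h3, h4, h5, _⟩ := fS_ne h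
    refine ⟨?_, by simp⟩
    simp only
    rw [fS_if h1 h2 h3 h4 h5, fS_if h2 h1 h4 h3 (by rw [← h5]; ring)]

theorem emod_key6 (x d δ : ℤ) : (x ^ 2 + 2 * (d * δ)) % 4 =
    ((x % 4) ^ 2 + 2 * ((d % 4) * (δ % 4))) % 4 := by
  have hx : x % 4 ≡ x [ZMOD 4] := Int.mod_modEq x 4
  have hd : d % 4 ≡ d [ZMOD 4] := Int.mod_modEq d 4
  have hδ : δ % 4 ≡ δ [ZMOD 4] := Int.mod_modEq δ 4
  exact ((hx.pow 2).add ((hd.mul hδ).mul_left 2)).symm

theorem res_xd {x d δ n : ℤ} (h : x ^ 2 + 2 * (d * δ) = 4 * n + 3) : x % 2 = 1 ∧ δ % 2 = 1 := by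
  have key := emod_key6 x d δ
  rw [h] at key
  have h1 : x % 4 = 0 ∨ x % 4 = 1 ∨ x % 4 = 2 ∨ x % 4 = 3 := by omega
  have h2 : d % 4 = 0 ∨ d % 4 = 1 ∨ d % 4 = 2 ∨ d % 4 = 3 := by omega
  have h3 : δ % 4 = 0 ∨ δ % 4 = 1 ∨ δ % 4 = 2 ∨ δ % 4 = 3 := by omega
  rcases h1 with h1 | h1 | h1 | h1 <;> rcases h2 with h2 | h2 | h2 | h2 <;>
    rcases h3 with h3 | h3 | h3 | h3 <;>
    rw [h1, h2, h3] at key <;> norm_num at key <;> omega

/-- half of `T1` -/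
noncomputable def T2 (e : ℤ) : ℤ := ∑' p, fS (fun p => if 0 < p.1 then chi p.2.1 else 0) e p

theorem T1_T2 (n : ℕ) : T1 (4 * n + 3) = 2 * T2 (4 * n + 3) := by
  have h1 : T1 (4 * n + 3) = ∑' p, fS (fun p => chi p.2.1) (4 * n + 3) p := by
    unfold T1
    refine tsum_congr fun p => ?_
    obtain ⟨x, d, δ⟩ := p
    unfold fT fS
    simp only
    split_ifs with h1 h2 h2
    · rfl
    · exact absurd ⟨h1.1, (res_xd h1.2.2.2).2, h1.2.1, h1.2.2.1, h1.2.2.2⟩ h2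
    · exact absurd ⟨h2.1, h2.2.2.1, h2.2.2.2.1, h2.2.2.2.2⟩ h1
    · rfl
  have h2 := fS_neg (fun p => if 0 < p.1 then chi p.2.1 else 0) (4 * n + 3)
  have h3 := fS_add (fun p => if 0 < p.1 then chi p.2.1 else 0)
    (fun p => if 0 < -p.1 then chi p.2.1 else 0) (4 * n + 3)
  have h4 : ∑' p, fS (fun p => chi p.2.1) (4 * n + 3) p =
      ∑' p, fS (fun p => (if 0 < p.1 then chi p.2.1 else 0) + (if 0 < -p.1 then chi p.2.1 else 0))
        (4 * n + 3) p := by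
    refine fS_congr fun x d δ h1 h2 h3 h4 h5 => ?_
    have := res_xd h5
    simp only
    split_ifs <;> omega
  unfold T2
  simp only at h2
  linarith

/-- `ψ(q^4)` -/
noncomputable def psi4 : R := ∑' k : ℕ, X ^ (2 * (k * (k + 1)))

theorem cf_psi4 (m : ℤ) : cf psi4 m = ∑' k : ℕ, if 2 * ((k : ℤ) * (k + 1)) = m then 1 else 0 := by
  unfold cf
  split_ifs with h
  · unfold psi4
    rw [coeff_tsum (summ fun k => pow_dvd_pow _ (by nlinarith))]
    refine tsum_congr fun k => ?_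
    rw [coeff_X_pow]
    refine if_congr ?_ rfl rfl
    constructor
    · intro h1
      have h2 : (m.toNat : ℤ) = ((2 * (k * (k + 1)) : ℕ) : ℤ) := by rw [h1]
      rw [Int.toNat_of_nonneg h] at h2
      push_cast at h2
      exact h2.symm
    · intro h1
      have h2 : (m.toNat : ℤ) = ((2 * (k * (k + 1)) : ℕ) : ℤ) := by
        rw [Int.toNat_of_nonneg h, ← h1]
        push_cast
        rfl
      exact_mod_cast h2
  · symm
    have : ∀ k : ℕ, (if 2 * ((k : ℤ) * (k + 1)) = m then 1 else 0 : ℤ) = 0 := by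
      intro k
      rw [if_neg]
      intro h1
      apply h
      rw [← h1]
      positivity
    rw [tsum_congr this, tsum_zero]

theorem bnd_ik {i k n : ℕ} (h : (i : ℤ) * (i + 1) + 2 * ((k : ℤ) * (k + 1)) = n) :
    i ≤ n ∧ k ≤ n := by
  constructor
  · have : (i : ℤ) ≤ n := by nlinarith [Int.natCast_nonneg i, Int.natCast_nonneg k]
    exact_mod_cast this
  · have : (k : ℤ) ≤ n := by nlinarith [Int.natCast_nonneg i, Int.natCast_nonneg k]
    exact_mod_cast this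

theorem psi2_psi4 (n : ℕ) : coeff n (psi2 * psi4) = ∑' q : ℕ × ℕ,
    if (q.1 : ℤ) * (q.1 + 1) + 2 * ((q.2 : ℤ) * (q.2 + 1)) = n then 1 else 0 := by
  rw [psi2_coeff]
  simp only [cf_psi4]
  have hs : Summable (fun q : ℕ × ℕ => if (q.1 : ℤ) * (q.1 + 1) + 2 * ((q.2 : ℤ) * (q.2 + 1)) = n
      then (1 : ℤ) else 0) := by
    refine summable_of_ne_finset_zero (s := range (n + 1) ×ˢ range (n + 1)) fun p hp => ?_
    rw [if_neg]
    intro h
    apply hp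
    have := bnd_ik h
    simp only [Finset.mem_product, Finset.mem_range]
    omega
  symm
  rw [hs.tsum_prod']
  · refine tsum_congr fun r => ?_
    refine tsum_congr fun p => ?_
    refine if_congr ?_ rfl rfl
    push_cast
    constructor <;> intro h <;> linarith
  · intro r
    refine summable_of_ne_finset_zero (s := range (n + 1)) fun p hp => ?_
    rw [if_neg]
    intro h
    apply hp
    have := bnd_ik h
    simp only [Finset.mem_range]
    omega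

/-- the diagonal part -/
theorem diag_eq (n : ℕ) : ∑' p, fS (fun p => if 0 < p.1 ∧ p.2.1 = p.2.2 then 1 else 0) (4 * n + 3) p
    = coeff n (psi2 * psi4) := by
  rw [psi2_psi4]
  refine tsum_pb _ _ (fun p => (((p.1 - 1) / 2).toNat, ((p.2.1 - 1) / 2).toNat))
    (fun q => (2 * q.1 + 1, 2 * q.2 + 1, 2 * q.2 + 1)) ?_ ?_
  · rintro ⟨x, d, δ⟩ h
    obtain ⟨h1, h2, h3, h4, h5, h6⟩ := fS_ne h
    have h7 : 0 < x ∧ d = δ := by
      by_contra hc
      exact h6 (if_neg hc)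
    have hx := (res_xd h5).1
    obtain ⟨i, hi⟩ : ∃ i : ℕ, x = 2 * i + 1 := ⟨((x - 1) / 2).toNat, by omega⟩
    obtain ⟨k, hk⟩ : ∃ k : ℕ, d = 2 * k + 1 := ⟨((d - 1) / 2).toNat, by omega⟩
    have e1 : ((x - 1) / 2).toNat = i := by omega
    have e2 : ((d - 1) / 2).toNat = k := by omega
    simp only [e1, e2]
    constructor
    · rw [fS_if h1 h2 h3 h4 h5, if_pos h7, if_pos]
      rw [← h7.2, hi, hk] at h5
      nlinarith [h5]
    · refine Prod.ext ?_ (Prod.ext ?_ ?_) <;> simp only <;> omega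
  · rintro ⟨i, k⟩ h
    simp only at h ⊢
    have h5 : (i : ℤ) * (i + 1) + 2 * ((k : ℤ) * (k + 1)) = n := by
      by_contra hc
      exact h (if_neg hc)
    rw [if_pos h5]
    constructor
    · rw [fS_if (by omega) (by omega) (by omega) (by omega) (by nlinarith [h5]), if_pos]
      exact ⟨by positivity, rfl⟩
    · refine Prod.ext ?_ ?_ <;> simp only <;> omega

theorem T2_mod (n : ℕ) : (2 : ℤ) ∣ T2 (4 * n + 3) - coeff n (psi2 * psi4) := by
  have h1 : (2 : ℤ) ∣ T2 (4 * n + 3) - ∑' p, fS (fun p => if 0 < p.1 then 1 else 0) (4 * n + 3) p := by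
    unfold T2
    rw [← (summ_fS _ _).tsum_sub (summ_fS _ _)]
    refine dvd_tsum_int fun p => ?_
    unfold fS
    split_ifs with hc
    · simp only
      split_ifs with hx
      · exact chi_mod2 hc.1
      · simp
    · simp
  have h2 : ∑' p, fS (fun p => if 0 < p.1 then 1 else 0) (4 * n + 3) p =
      2 * ∑' p, fS (fun p => if 0 < p.1 ∧ p.2.1 < p.2.2 then 1 else 0) (4 * n + 3) p +
      ∑' p, fS (fun p => if 0 < p.1 ∧ p.2.1 = p.2.2 then 1 else 0) (4 * n + 3) p := by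
    have e1 := fS_swap (fun p => if 0 < p.1 ∧ p.2.1 < p.2.2 then 1 else 0) (4 * n + 3)
    simp only at e1
    rw [two_mul]
    nth_rw 2 [e1]
    rw [fS_add, fS_add]
    refine fS_congr fun x d δ h1 h2 h3 h4 h5 => ?_
    simp only
    split_ifs <;> omega
  rw [h2, diag_eq] at h1
  omega

end Pool.Agent.K3h25.CM
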