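import Pool.Agent.K3h25.CM.Lerch2

/-! The two theta identities of Gauss. -/

open PowerSeries Finset Filter Topology
open scoped PowerSeries.WithPiTopology

namespace Pool.Agent.K3h25.CM

/-- Euler's series -/
theorem euler {a : R} (ha : (X : R) ∣ a) :
    Q (X ^ 2) * Q (-a) = ∑' m : ℕ, a ^ m * (X ^ (m * (m - 1)) * Q (X ^ (2 * m + 2))) := by
  have hs : ∀ a : R, (X : R) ∣ a →
      Summable fun m : ℕ => a ^ m * (X ^ (m * (m - 1)) * Q (X ^ (2 * m + 2))) :=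
    fun a ha => summ fun k => pow_dvd_of ha k _
  have hrec : ∀ a : R, (X : R) ∣ a →
      ∑' m : ℕ, a ^ m * (X ^ (m * (m - 1)) * Q (X ^ (2 * m + 2))) =
      (1 + a) * ∑' m : ℕ, (a * X ^ 2) ^ m * (X ^ (m * (m - 1)) * Q (X ^ (2 * m + 2))) := by
    intro a ha
    have ha2 : (X : R) ∣ a * X ^ 2 := Dvd.dvd.mul_right ha _
    rw [add_mul, one_mul, ← sub_eq_iff_eq_add', ← (hs a ha).tsum_sub (hs _ ha2)]
    have hs3 := (hs a ha).sub (hs _ ha2)
    rw [hs3.tsum_eq_zero_add, ← (hs _ ha2).tsum_mul_left]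
    simp only [pow_zero, sub_self, zero_add]
    refine tsum_congr fun m => ?_
    rw [Nat.add_sub_cancel, show 2 * (m + 1) + 2 = 2 * m + 2 + 2 by ring]
    have h1 := Q_X (2 * m + 2)
    rw [h1]
    have e : (a * X ^ 2) ^ (m + 1) = a ^ (m + 1) * X ^ (2 * m + 2) := by
      rw [mul_pow, ← pow_mul]; congr 2
    have e2 : (a * X ^ 2) ^ m = a ^ m * X ^ (2 * m) := by
      rw [mul_pow, ← pow_mul]
    have e3 : (m + 1) * m = m * (m - 1) + 2 * m := by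
      rcases m with _ | m
      · rfl
      · rw [Nat.add_sub_cancel]; ring
    rw [e, e2, e3]
    ring
  refine ext_dvd fun N => ?_
  have key : ∀ M : ℕ, ∀ a : R, (X : R) ∣ a → (X : R) ^ N ∣ (Q (X ^ 2) * Q (-(a * X ^ (2 * M))) -
      ∑' m : ℕ, (a * X ^ (2 * M)) ^ m * (X ^ (m * (m - 1)) * Q (X ^ (2 * m + 2)))) →
      (X : R) ^ N ∣ (Q (X ^ 2) * Q (-a) -
        ∑' m : ℕ, a ^ m * (X ^ (m * (m - 1)) * Q (X ^ (2 * m + 2)))) := by
    intro M
    induction M with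
    | zero => intro a _ h; simpa using h
    | succ M ih =>
      intro a ha h
      have ha2 : (X : R) ∣ a * X ^ 2 := Dvd.dvd.mul_right ha _
      have h2 := ih (a * X ^ 2) ha2 (by
        rw [mul_assoc a, ← pow_add, show 2 + 2 * M = 2 * (M + 1) by ring]
        exact h)
      rw [hrec a ha, Q_succ (-a), sub_neg_eq_add, neg_mul]
      have : Q (X ^ 2) * ((1 + a) * Q (-(a * X ^ 2))) - (1 + a) *
          ∑' m : ℕ, (a * X ^ 2) ^ m * (X ^ (m * (m - 1)) * Q (X ^ (2 * m + 2))) =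
          (1 + a) * (Q (X ^ 2) * Q (-(a * X ^ 2)) -
          ∑' m : ℕ, (a * X ^ 2) ^ m * (X ^ (m * (m - 1)) * Q (X ^ (2 * m + 2)))) := by ring
      rw [this]
      exact Dvd.dvd.mul_left h2 _
  refine key N a ha ?_
  have ha2 : (X : R) ∣ a * X ^ (2 * N) := Dvd.dvd.mul_right ha _
  have hb : (X : R) ^ N ∣ a * X ^ (2 * N) := Dvd.dvd.mul_left (pow_dvd_pow _ (by omega)) _
  rw [(hs _ ha2).tsum_eq_zero_add]
  simp only [pow_zero, zero_mul, mul_zero, zero_add, one_mul]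
  have h1 : (X : R) ^ N ∣ Q (-(a * X ^ (2 * N))) - 1 := Q_small (by rw [dvd_neg]; exact hb)
  have h2 : (X : R) ^ N ∣ ∑' m : ℕ, (a * X ^ (2 * N)) ^ (m + 1) *
      (X ^ ((m + 1) * (m + 1 - 1)) * Q (X ^ (2 * (m + 1) + 2))) := by
    refine tsum_small (fun m => ?_) fun m => ?_
    · exact (pow_dvd_pow _ (Nat.le_succ m)).trans (pow_dvd_of ha2 (m + 1) _)
    · exact Dvd.dvd.mul_right (hb.trans (dvd_pow_self _ (Nat.succ_ne_zero m))) _
  have : Q (X ^ 2) * Q (-(a * X ^ (2 * N))) - (Q (X ^ 2) + ∑' m : ℕ, (a * X ^ (2 * N)) ^ (m + 1) *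
      (X ^ ((m + 1) * (m + 1 - 1)) * Q (X ^ (2 * (m + 1) + 2)))) =
      Q (X ^ 2) * (Q (-(a * X ^ (2 * N))) - 1) - ∑' m : ℕ, (a * X ^ (2 * N)) ^ (m + 1) *
      (X ^ ((m + 1) * (m + 1 - 1)) * Q (X ^ (2 * (m + 1) + 2))) := by ring
  rw [this]
  exact dvd_sub (Dvd.dvd.mul_left h1 _) h2

theorem fin_symm (f : ℕ → ℕ → R) (hsym : ∀ m n, f m n = f n m) (N : ℕ) :
    ∑ m ∈ range N, ∑ n ∈ range N, f m n =
      ∑ n ∈ range N, f n n + 2 * ∑ m ∈ range N, ∑ n ∈ range m, f m n := by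
  induction N with
  | zero => simp
  | succ N ih =>
    rw [Finset.sum_range_succ, Finset.sum_congr rfl (fun m _ => Finset.sum_range_succ _ N),
      Finset.sum_add_distrib, ih, Finset.sum_range_succ (fun n => f n n),
      Finset.sum_range_succ (fun m => ∑ n ∈ range m, f m n), Finset.sum_range_succ (fun n => f N n),
      Finset.sum_congr rfl (fun m _ => hsym m N)]
    ring

theorem symm_sum {f : ℕ → ℕ → R} (hf : ∀ i j, (X : R) ^ (i + j) ∣ f i j)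
    (hsym : ∀ m n, f m n = f n m) :
    ∑' m, ∑' n, f m n = ∑' n, f n n + 2 * ∑' r, ∑' n, f (n + r + 1) n := by
  have h1 : ∑' r, ∑' n, f (n + r + 1) n = ∑' m, ∑ n ∈ range m, f m n := by
    have hs : ∀ m, (X : R) ^ m ∣ ∑ n ∈ range m, f m n := fun m =>
      Finset.dvd_sum fun n _ => (pow_dvd_pow _ (Nat.le_add_right m n)).trans (hf m n)
    rw [(summ hs).tsum_eq_zero_add, Finset.sum_range_zero, zero_add]
    rw [← swap (f := fun n r => f (n + r + 1) n) (fun n r =>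
      (pow_dvd_pow _ (by omega)).trans (hf (n + r + 1) n))]
    refine tsum_congr fun k => ?_
    rw [Finset.Nat.sum_antidiagonal_eq_sum_range_succ (fun n r => f (n + r + 1) n)]
    refine Finset.sum_congr rfl fun n hn => ?_
    rw [Finset.mem_range] at hn
    congr 1
    omega
  rw [h1]
  refine ext_dvd fun N => ?_
  have a1 : ∀ m, (X : R) ^ m ∣ ∑' n, f m n := fun m => by
    refine tsum_small (fun n => ?_) fun n => ?_
    · exact (pow_dvd_pow _ (Nat.le_add_left n m)).trans (hf m n)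
    · exact (pow_dvd_pow _ (Nat.le_add_right m n)).trans (hf m n)
  have a2 := tsum_dvd a1 N
  have a3 : (X : R) ^ N ∣ ∑ m ∈ range N, ∑' n, f m n - ∑ m ∈ range N, ∑ n ∈ range N, f m n := by
    rw [← Finset.sum_sub_distrib]
    refine Finset.dvd_sum fun m _ => tsum_dvd (fun n => ?_) N
    exact (pow_dvd_pow _ (Nat.le_add_left n m)).trans (hf m n)
  have b1 := tsum_dvd (f := fun n => f n n) (fun n => (pow_dvd_pow _ (by omega)).trans (hf n n)) N
  have b2 := tsum_dvd (f := fun m => ∑ n ∈ range m, f m n) (fun m =>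
      Finset.dvd_sum fun n _ => (pow_dvd_pow _ (Nat.le_add_right m n)).trans (hf m n)) N
  rw [fin_symm f hsym N] at a3
  have : ∑' m, ∑' n, f m n - (∑' n, f n n + 2 * ∑' m, ∑ n ∈ range m, f m n) =
    (∑' m, ∑' n, f m n - ∑ m ∈ range N, ∑' n, f m n) +
    (∑ m ∈ range N, ∑' n, f m n - (∑ n ∈ range N, f n n + 2 * ∑ m ∈ range N, ∑ n ∈ range m, f m n))
    - (∑' n, f n n - ∑ n ∈ range N, f n n) -
    2 * (∑' m, ∑ n ∈ range m, f m n - ∑ m ∈ range N, ∑ n ∈ range m, f m n) := by ring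
  rw [this]
  exact dvd_sub (dvd_sub (dvd_add a2 a3) b1) (Dvd.dvd.mul_left b2 _)

theorem sq_tsum {e : ℕ → R} (he : ∀ m, (X : R) ^ m ∣ e m) :
    (∑' m, e m) ^ 2 = ∑' n, e n * e n + 2 * ∑' r, ∑' n, e (n + r + 1) * e n := by
  rw [← symm_sum (f := fun m n => e m * e n) (fun i j => by
    rw [pow_add]; exact mul_dvd_mul (he i) (he j)) (fun m n => mul_comm _ _)]
  rw [sq, ← (summ he).tsum_mul_right]
  refine tsum_congr fun m => ?_
  rw [(summ he).tsum_mul_left]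

theorem QX2_ne : (Q (X ^ 2) : R) ≠ 0 := by
  intro h
  have := Q_cc (a := (X : R) ^ 2) (X_dvd_pow 1)
  rw [h, map_zero] at this
  exact zero_ne_one this

/-- `φ(-q)` -/
noncomputable def phm : R := 1 + 2 * ∑' r : ℕ, (-1) ^ (r + 1) * X ^ ((r + 1) ^ 2)

/-- `ψ(q^2)` -/
noncomputable def psi2 : R := ∑' r : ℕ, X ^ (r * (r + 1))

theorem gauss_phi : Q (X ^ 2) * Q X ^ 2 = phm := by
  refine mul_left_cancel₀ QX2_ne ?_
  have h := euler X_dvd_negX
  rw [neg_neg] at h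
  have h1 := sq_tsum (e := fun m : ℕ => (-X : R) ^ m * (X ^ (m * (m - 1)) * Q (X ^ (2 * m + 2))))
    (fun k => pow_dvd_of X_dvd_negX k _)
  rw [← h] at h1
  have h2 : ∀ r n : ℕ, ((-X : R) ^ (n + r + 1) * (X ^ ((n + r + 1) * (n + r + 1 - 1)) *
      Q (X ^ (2 * (n + r + 1) + 2)))) * ((-X : R) ^ n * (X ^ (n * (n - 1)) * Q (X ^ (2 * n + 2)))) =
      ((-1) ^ (r + 1) * X ^ ((r + 1) ^ 2)) * (X ^ (2 * n ^ 2 + 2 * (r + 1) * n) *
        (Q (X ^ (2 * n + 2)) * Q (X ^ (2 * n + 2 * (r + 1) + 2)))) := by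
    intro r n
    have e1 : (-X : R) ^ (n + r + 1) = (-1) ^ n * (-1) ^ (r + 1) * X ^ (n + r + 1) := by
      rw [neg_pow, ← pow_add]; ring
    have e2 : (-X : R) ^ n = (-1) ^ n * X ^ n := neg_pow _ _
    have e3 : ((-1 : R) ^ n) * (-1) ^ n = 1 := by
      rw [← mul_pow, neg_one_mul, neg_neg, one_pow]
    have e4 : (n + r + 1) + (n + r + 1) * (n + r + 1 - 1) + n + n * (n - 1) =
        (r + 1) ^ 2 + (2 * n ^ 2 + 2 * (r + 1) * n) := by
      rcases n with _ | n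
      · rw [Nat.add_sub_cancel]; ring
      · rw [Nat.add_sub_cancel, Nat.add_sub_cancel]; ring
    rw [e1, e2, show 2 * (n + r + 1) + 2 = 2 * n + 2 * (r + 1) + 2 by ring]
    have e5 : X ^ (n + r + 1) * X ^ ((n + r + 1) * (n + r + 1 - 1)) * X ^ n * X ^ (n * (n - 1)) =
        (X : R) ^ ((r + 1) ^ 2) * X ^ (2 * n ^ 2 + 2 * (r + 1) * n) := by
      rw [← pow_add, ← pow_add, ← pow_add, ← pow_add, e4]
    linear_combination (((-1 : R) ^ n) * (-1) ^ n * (-1) ^ (r + 1) * Q (X ^ (2 * n + 2)) *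
      Q (X ^ (2 * n + 2 * (r + 1) + 2))) * e5 + ((-1) ^ (r + 1) * X ^ ((r + 1) ^ 2) *
      X ^ (2 * n ^ 2 + 2 * (r + 1) * n) * Q (X ^ (2 * n + 2)) *
      Q (X ^ (2 * n + 2 * (r + 1) + 2))) * e3
  have h3 : ∀ r : ℕ, ∑' n : ℕ, ((-X : R) ^ (n + r + 1) * (X ^ ((n + r + 1) * (n + r + 1 - 1)) *
      Q (X ^ (2 * (n + r + 1) + 2)))) * ((-X : R) ^ n * (X ^ (n * (n - 1)) * Q (X ^ (2 * n + 2)))) =
      ((-1) ^ (r + 1) * X ^ ((r + 1) ^ 2)) * Q (X ^ 2) := by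
    intro r
    rw [tsum_congr (h2 r)]
    have hs : Summable fun n : ℕ => (X : R) ^ (2 * n ^ 2 + 2 * (r + 1) * n) *
        (Q (X ^ (2 * n + 2)) * Q (X ^ (2 * n + 2 * (r + 1) + 2))) :=
      summ fun n => Dvd.dvd.mul_right (pow_dvd_pow _ (by nlinarith [Nat.zero_le (r * n)])) _
    rw [hs.tsum_mul_left, durfee (r + 1)]
  have h4 : ∑' n : ℕ, ((-X : R) ^ n * (X ^ (n * (n - 1)) * Q (X ^ (2 * n + 2)))) *
      ((-X : R) ^ n * (X ^ (n * (n - 1)) * Q (X ^ (2 * n + 2)))) = Q (X ^ 2) := by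
    rw [← durfee 0]
    refine tsum_congr fun n => ?_
    have e1 : (-X : R) ^ n * (-X) ^ n = X ^ n * X ^ n := by
      rw [← mul_pow, ← mul_pow, neg_mul_neg]
    have e4 : n + n + n * (n - 1) + n * (n - 1) = 2 * n ^ 2 + 2 * 0 * n := by
      rcases n with _ | n
      · rfl
      · rw [Nat.add_sub_cancel]; ring
    have e5 : X ^ n * X ^ n * X ^ (n * (n - 1)) * X ^ (n * (n - 1)) =
        (X : R) ^ (2 * n ^ 2 + 2 * 0 * n) := by
      rw [← pow_add, ← pow_add, ← pow_add, e4]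
    rw [show 2 * n + 2 * 0 + 2 = 2 * n + 2 by ring]
    linear_combination (X ^ (n * (n - 1)) * X ^ (n * (n - 1)) * Q (X ^ (2 * n + 2)) ^ 2) * e1 +
      (Q (X ^ (2 * n + 2)) ^ 2) * e5
  have hs : Summable fun r : ℕ => ((-1) ^ (r + 1) * (X : R) ^ ((r + 1) ^ 2)) :=
    summ fun r => Dvd.dvd.mul_left (pow_dvd_pow _ (by nlinarith)) _
  rw [h4, tsum_congr h3, hs.tsum_mul_right] at h1
  unfold phm
  linear_combination h1

theorem gauss_psi : Q (X ^ 2) * Q (-X ^ 2) ^ 2 = psi2 := by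
  refine mul_left_cancel₀ QX2_ne ?_
  have hX : (X : R) ∣ X ^ 2 := X_dvd_pow 1
  have h := euler hX
  have h1 := sq_tsum (e := fun m : ℕ => ((X : R) ^ 2) ^ m * (X ^ (m * (m - 1)) *
    Q (X ^ (2 * m + 2)))) (fun k => pow_dvd_of hX k _)
  rw [← h] at h1
  -- the auxiliary sums
  have hs : ∀ r : ℕ, ∀ n : ℕ, (X : R) ^ n ∣ (X : R) ^ (2 * n ^ 2 + 2 * (r + 1) * n) *
        (Q (X ^ (2 * n + 2)) * Q (X ^ (2 * n + 2 * r + 2))) :=
    fun r n => Dvd.dvd.mul_right (pow_dvd_pow _ (by nlinarith [Nat.zero_le (r * n)])) _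
  let S : ℕ → R := fun r => ∑' n : ℕ, (X : R) ^ (2 * n ^ 2 + 2 * (r + 1) * n) *
        (Q (X ^ (2 * n + 2)) * Q (X ^ (2 * n + 2 * r + 2)))
  have hS : ∀ r, S r = Q (X ^ 2) - X ^ (2 * r + 2) * S (r + 1) := by
    intro r
    rw [← durfee (r + 1)]
    have hs2 : Summable fun n : ℕ => (X : R) ^ (2 * n ^ 2 + 2 * (r + 1) * n) *
        (Q (X ^ (2 * n + 2)) * Q (X ^ (2 * n + 2 * (r + 1) + 2))) :=
      summ fun n => Dvd.dvd.mul_right (pow_dvd_pow _ (by nlinarith [Nat.zero_le (r * n)])) _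
    simp only [S]
    rw [← (summ (hs (r + 1))).tsum_mul_left, ← hs2.tsum_sub ((summ (hs (r + 1))).mul_left _)]
    refine tsum_congr fun n => ?_
    rw [Q_X (2 * n + 2 * r + 2), show 2 * n + 2 * (r + 1) + 2 = 2 * n + 2 * r + 2 + 2 by ring,
      show 2 * n ^ 2 + 2 * (r + 1 + 1) * n = 2 * n ^ 2 + 2 * (r + 1) * n + 2 * n by ring]
    ring
  have hT : ∀ r : ℕ, X ^ (r * (r + 1)) * S r + X ^ ((r + 1) * (r + 2)) * S (r + 1) =
      X ^ (r * (r + 1)) * Q (X ^ 2) := by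
    intro r
    rw [hS r, show (r + 1) * (r + 2) = r * (r + 1) + (2 * r + 2) by ring]
    ring
  have h2 : ∀ r n : ℕ, (((X : R) ^ 2) ^ (n + r + 1) * (X ^ ((n + r + 1) * (n + r + 1 - 1)) *
      Q (X ^ (2 * (n + r + 1) + 2)))) * (((X : R) ^ 2) ^ n * (X ^ (n * (n - 1)) *
      Q (X ^ (2 * n + 2)))) =
      X ^ ((r + 1) * (r + 2)) * (X ^ (2 * n ^ 2 + 2 * (r + 1 + 1) * n) *
        (Q (X ^ (2 * n + 2)) * Q (X ^ (2 * n + 2 * (r + 1) + 2)))) := by
    intro r n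
    have e4 : 2 * (n + r + 1) + (n + r + 1) * (n + r + 1 - 1) + 2 * n + n * (n - 1) =
        (r + 1) * (r + 2) + (2 * n ^ 2 + 2 * (r + 1 + 1) * n) := by
      rcases n with _ | n
      · rw [Nat.add_sub_cancel]; ring
      · rw [Nat.add_sub_cancel, Nat.add_sub_cancel]; ring
    rw [show 2 * (n + r + 1) + 2 = 2 * n + 2 * (r + 1) + 2 by ring, ← pow_mul, ← pow_mul]
    have e5 : X ^ (2 * (n + r + 1)) * X ^ ((n + r + 1) * (n + r + 1 - 1)) * X ^ (2 * n) *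
        X ^ (n * (n - 1)) =
        (X : R) ^ ((r + 1) * (r + 2)) * X ^ (2 * n ^ 2 + 2 * (r + 1 + 1) * n) := by
      rw [← pow_add, ← pow_add, ← pow_add, ← pow_add, e4]
    linear_combination (Q (X ^ (2 * n + 2)) * Q (X ^ (2 * n + 2 * (r + 1) + 2))) * e5
  have h3 : ∀ r : ℕ, ∑' n : ℕ, (((X : R) ^ 2) ^ (n + r + 1) * (X ^ ((n + r + 1) *
      (n + r + 1 - 1)) * Q (X ^ (2 * (n + r + 1) + 2)))) * (((X : R) ^ 2) ^ n * (X ^ (n * (n - 1)) *
      Q (X ^ (2 * n + 2)))) = X ^ ((r + 1) * (r + 2)) * S (r + 1) := by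
    intro r
    rw [tsum_congr (h2 r), (summ (hs (r + 1))).tsum_mul_left]
  have h4 : ∑' n : ℕ, (((X : R) ^ 2) ^ n * (X ^ (n * (n - 1)) * Q (X ^ (2 * n + 2)))) *
      (((X : R) ^ 2) ^ n * (X ^ (n * (n - 1)) * Q (X ^ (2 * n + 2)))) = S 0 := by
    refine tsum_congr fun n => ?_
    have e4 : 2 * n + n * (n - 1) + 2 * n + n * (n - 1) = 2 * n ^ 2 + 2 * (0 + 1) * n := by
      rcases n with _ | n
      · rfl
      · rw [Nat.add_sub_cancel]; ring
    rw [← pow_mul, show 2 * n + 2 * 0 + 2 = 2 * n + 2 by ring, ← e4]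
    ring
  have hsT : Summable fun r : ℕ => X ^ (r * (r + 1)) * S r :=
    summ fun r => Dvd.dvd.mul_right (pow_dvd_pow _ (by nlinarith)) _
  have hsT1 : Summable fun r : ℕ => X ^ ((r + 1) * (r + 2)) * S (r + 1) :=
    summ fun r => Dvd.dvd.mul_right (pow_dvd_pow _ (by nlinarith)) _
  have h5 : ∑' r : ℕ, X ^ (r * (r + 1)) * S r = S 0 + ∑' r : ℕ, X ^ ((r + 1) * (r + 2)) *
      S (r + 1) := by
    rw [hsT.tsum_eq_zero_add]
    simp only [zero_mul, pow_zero, one_mul]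
  have h6 : S 0 + 2 * ∑' r : ℕ, X ^ ((r + 1) * (r + 2)) * S (r + 1) = psi2 * Q (X ^ 2) := by
    unfold psi2
    have hs7 : Summable fun r : ℕ => (X : R) ^ (r * (r + 1)) :=
      summ fun r => pow_dvd_pow _ (by nlinarith)
    rw [← hs7.tsum_mul_right, ← tsum_congr hT, hsT.tsum_add hsT1, h5]
    ring
  rw [h4, tsum_congr h3, h6] at h1
  linear_combination h1

end Pool.Agent.K3h25.CM
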