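import Pool.Agent.K3h25.CM.CId

/-! The Lerch sum form of `ω(-q)`. -/

open PowerSeries Finset Filter Topology
open scoped PowerSeries.WithPiTopology

namespace Pool.Agent.K3h25.CM

theorem pow_dvd_of {x : R} (hx : (X : R) ∣ x) (k : ℕ) (a : R) : (X : R) ^ k ∣ x ^ k * a :=
  Dvd.dvd.mul_right (pow_dvd_pow_of_dvd hx k) _

/-- first form -/
noncomputable def Ph (x : R) : R := ∑' k : ℕ, x ^ k * (I x * Q (x * X ^ (2 * k + 2)))

/-- second form -/
noncomputable def Ps (x : R) : R :=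
  ∑' n : ℕ, x ^ n * (x ^ n * X ^ (2 * n ^ 2) * (I x * Q (x * X ^ (2 * n + 2))) ^ 2)

theorem IQ_succ {x : R} (hx : (X : R) ∣ x) (k : ℕ) :
    (1 - x) * (I x * Q (x * X ^ (2 * k + 2 + 2))) = I (x * X ^ 2) * Q (x * X ^ 2 * X ^ (2 * k + 2)) := by
  rw [← I_succ hx, mul_assoc x, ← pow_add, show 2 + (2 * k + 2) = 2 * k + 2 + 2 by ring]
  ring

theorem Ph_rec {x : R} (hx : (X : R) ∣ x) :
    (1 - x) ^ 2 * Ph x = 1 + x ^ 2 * X ^ 2 * Ph (x * X ^ 2) := by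
  have hx2 : (X : R) ∣ x * X ^ 2 := Dvd.dvd.mul_right hx _
  unfold Ph
  have hs : ∀ y : R, (X : R) ∣ y → Summable fun k : ℕ => y ^ k * (I y * Q (y * X ^ (2 * k + 2))) :=
    fun y hy => summ fun k => pow_dvd_of hy k _
  rw [← (hs x hx).tsum_mul_left, ← (hs _ hx2).tsum_mul_left, ← sub_eq_iff_eq_add,
    ← ((hs x hx).mul_left _).tsum_sub ((hs _ hx2).mul_left _)]
  rw [tele (V := fun k => (1 - x) * (x ^ k * (I x * Q (x * X ^ (2 * k + 2))))) (L := 0)]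
  · have h1 := Q_mul_I hx
    have h2 := Q_succ x
    rw [h2] at h1
    simp only [mul_zero, zero_add, pow_zero, one_mul, sub_zero]
    linear_combination h1
  · intro k
    have h2 : Q (x * X ^ (2 * k + 2)) = (1 - x * X ^ (2 * k + 2)) * Q (x * X ^ (2 * k + 2 + 2)) := by
      rw [Q_succ, mul_assoc x, ← pow_add]
    rw [← IQ_succ hx k, show 2 * (k + 1) + 2 = 2 * k + 2 + 2 by ring, h2]
    have : (x * X ^ 2) ^ k = x ^ k * X ^ (2 * k) := by rw [mul_pow, ← pow_mul]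
    rw [this]
    ring
  · intro k
    rw [sub_zero]
    exact Dvd.dvd.mul_left (pow_dvd_of hx k _) _

theorem Ps_rec {x : R} (hx : (X : R) ∣ x) :
    (1 - x) ^ 2 * Ps x = 1 + x ^ 2 * X ^ 2 * Ps (x * X ^ 2) := by
  have hx2 : (X : R) ∣ x * X ^ 2 := Dvd.dvd.mul_right hx _
  unfold Ps
  have hs : ∀ y : R, (X : R) ∣ y → Summable fun n : ℕ =>
    y ^ n * (y ^ n * X ^ (2 * n ^ 2) * (I y * Q (y * X ^ (2 * n + 2))) ^ 2) :=
    fun y hy => summ fun k => pow_dvd_of hy k _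
  rw [(hs x hx).tsum_eq_zero_add, mul_add, ← (hs _ hx2).tsum_mul_left]
  have hs1 := (summable_nat_add_iff 1).2 (hs x hx)
  rw [← hs1.tsum_mul_left]
  congr 1
  · have h1 := Q_mul_I hx
    have h2 := Q_succ x
    rw [h2] at h1
    simp only [mul_zero, zero_add, pow_zero, one_mul, ne_eq, OfNat.ofNat_ne_zero,
      not_false_eq_true, zero_pow]
    calc (1 - x) ^ 2 * (I x * Q (x * X ^ 2)) ^ 2 = ((1 - x) * Q (x * X ^ 2) * I x) ^ 2 := by ring
      _ = 1 := by rw [h1, one_pow]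
  · refine tsum_congr fun n => ?_
    rw [← IQ_succ hx n, show 2 * (n + 1) + 2 = 2 * n + 2 + 2 by ring]
    have : (x * X ^ 2) ^ n = x ^ n * X ^ (2 * n) := by rw [mul_pow, ← pow_mul]
    rw [this, show 2 * (n + 1) ^ 2 = 2 * n ^ 2 + (2 * n + 2 * n + 2) by ring]
    ring

theorem Ph_eq_Ps {x : R} (hx : (X : R) ∣ x) : Ph x = Ps x := by
  refine ext_dvd fun N => ?_
  induction N generalizing x with
  | zero => simp
  | succ N ih =>
    have hx2 : (X : R) ∣ x * X ^ 2 := Dvd.dvd.mul_right hx _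
    obtain ⟨w, hw⟩ := ih hx2
    have hc : constantCoeff (1 - x) = 1 := by
      rw [map_sub, map_one, X_dvd_iff.1 hx, sub_zero]
    have h1 := mul_Iv hc
    refine ⟨Iv (1 - x) ^ 2 * (x ^ 2 * X * w), ?_⟩
    have e : (1 - x) ^ 2 * (Ph x - Ps x) = x ^ 2 * X ^ 2 * (X ^ N * w) := by
      rw [← hw]
      linear_combination Ph_rec hx - Ps_rec hx
    calc Ph x - Ps x = ((1 - x) * Iv (1 - x)) ^ 2 * (Ph x - Ps x) := by
          rw [h1]; ring
      _ = Iv (1 - x) ^ 2 * ((1 - x) ^ 2 * (Ph x - Ps x)) := by ring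
      _ = _ := by rw [e]; ring

theorem X_dvd_negX : (X : R) ∣ -X := by rw [dvd_neg]

theorem W_eq : W = Ps (-X) := by
  rw [← Ph_eq_Ps X_dvd_negX]
  unfold W G Ph
  refine tsum_congr fun k => ?_
  rw [zero_add, mul_one, mul_zero, zero_add, pow_one]
  congr 3
  ring

/-! ### The Bailey pair -/

/-- coefficients of the Lerch sum; `x` is `X` or `-X` -/
noncomputable def al (x : R) (j : ℕ) : R :=
  (-1) ^ j * X ^ (j * (j + 1)) * ((1 + x * X ^ (2 * j)) * Iv (1 - x * X ^ (2 * j)))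

theorem one_sub_cc {x : R} (hx : (X : R) ∣ x) (j : ℕ) : constantCoeff (1 - x * X ^ (2 * j) : R) = 1 := by
  rw [map_sub, map_one, map_mul, X_dvd_iff.1 hx, zero_mul, sub_zero]

theorem al_mul {x : R} (hx : (X : R) ∣ x) (j : ℕ) : al x j * (1 - x * X ^ (2 * j)) =
    (-1) ^ j * X ^ (j * (j + 1)) * (1 + x * X ^ (2 * j)) := by
  unfold al
  have := mul_Iv (one_sub_cc hx j)
  linear_combination ((-1) ^ j * X ^ (j * (j + 1)) * (1 + x * X ^ (2 * j))) * this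

/-- the Bailey sum -/
noncomputable def AA (x : R) (n : ℕ) : R :=
  ∑ p ∈ antidiagonal n, al x p.2 * (Q (X ^ (2 * p.1 + 2)) * Q (X ^ (2 * p.1 + 4 * p.2 + 4)))

theorem Q_one : Q (1 : R) = 0 := by
  rw [Q_succ, sub_self, zero_mul]

theorem Q_X (n : ℕ) : Q (X ^ n : R) = (1 - X ^ n) * Q (X ^ (n + 2)) := by
  rw [Q_succ, ← pow_add]

theorem AA_shift (x : R) (n : ℕ) : AA x n =
    ∑ p ∈ antidiagonal (n + 1), al x p.2 * (Q (X ^ (2 * p.1)) * Q (X ^ (2 * p.1 + 4 * p.2 + 2))) := by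
  rw [Finset.Nat.sum_antidiagonal_succ]
  simp only [mul_zero, pow_zero, Q_one, zero_mul, zero_add]
  unfold AA
  refine Finset.sum_congr rfl fun p _ => ?_
  rw [show 2 * (p.1 + 1) = 2 * p.1 + 2 by ring,
    show 2 * p.1 + 2 + 4 * p.2 + 2 = 2 * p.1 + 4 * p.2 + 4 by ring]

theorem anti_tele (F : ℕ → ℕ → R) (M : ℕ) :
    ∑ p ∈ antidiagonal M, (F (p.1 + 1) p.2 - F p.1 (p.2 + 1)) = F (M + 1) 0 - F 0 (M + 1) := by
  have h1 := Finset.Nat.sum_antidiagonal_succ (n := M) (f := fun p => F p.1 p.2)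
  have h2 := Finset.Nat.sum_antidiagonal_succ' (n := M) (f := fun p => F p.1 p.2)
  rw [Finset.sum_sub_distrib]
  simp only at h1 h2
  rw [h1] at h2
  linear_combination h2

theorem zero_sum {M : ℕ} (hM : 0 < M) :
    ∑ p ∈ antidiagonal M, (-1) ^ p.2 * X ^ (p.2 * (p.2 + 1) + 2 * p.1) * (1 - X ^ (4 * p.2 + 2)) *
      (Q (X ^ (2 * p.1 + 2)) * Q (X ^ (2 * p.1 + 4 * p.2 + 4) : R)) = 0 := by
  have key := anti_tele (fun i j => (-1) ^ j * X ^ (j * (j - 1)) * (1 - X ^ (2 * j)) *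
    (Q (X ^ (2 * i)) * Q (X ^ (2 * i + 4 * j))) * X ^ (2 * M)) M
  simp only [mul_zero, pow_zero, Q_one, zero_mul, sub_self] at key
  have hne : (1 - X ^ (2 * M) : R) ≠ 0 := by
    intro h
    have := congrArg (constantCoeff (R := ℤ)) h
    rw [map_sub, map_one, map_pow, constantCoeff_X, zero_pow (by omega), sub_zero, map_zero] at this
    exact one_ne_zero this
  refine (mul_eq_zero.1 ?_).resolve_left hne
  rw [Finset.mul_sum, ← key]
  refine Finset.sum_congr rfl fun p hp => ?_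
  obtain ⟨i, j⟩ := p
  rw [HasAntidiagonal.mem_antidiagonal] at hp
  simp only at hp ⊢
  subst hp
  rw [show 2 * (i + 1) = 2 * i + 2 by ring, show 2 * i + 2 + 4 * j = 2 * i + 4 * j + 2 by ring,
    show 2 * i + 4 * (j + 1) = 2 * i + 4 * j + 4 by ring, show 2 * (j + 1) = 2 * j + 2 by ring,
    Q_X (2 * i), Q_X (2 * i + 4 * j + 2), show 2 * i + 4 * j + 2 + 2 = 2 * i + 4 * j + 4 by ring]
  rcases j with _ | j
  · simp only [mul_zero, add_zero, zero_add, pow_zero, sub_self, zero_mul, Nat.zero_sub]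
    ring
  · rw [show (j + 1) * (j + 1 - 1) = j * (j + 1) by rw [Nat.add_sub_cancel]; ring,
      show (j + 1 + 1) * (j + 1 + 1 - 1) = j * (j + 1) + 2 * j + 2 by
        rw [Nat.add_sub_cancel]; ring]
    ring

theorem AA_rec {x : R} (hx : (X : R) ∣ x) (hx2 : x ^ 2 = X ^ 2) (n : ℕ) :
    AA x n = (1 - x * X ^ (2 * n + 2)) ^ 2 * AA x (n + 1) := by
  rw [← sub_eq_zero]
  have h := zero_sum (Nat.succ_pos n)
  rw [AA_shift, AA, Finset.mul_sum, ← Finset.sum_sub_distrib]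
  rw [← neg_eq_zero, ← Finset.sum_neg_distrib]
  rw [← h]
  refine Finset.sum_congr rfl fun p hp => ?_
  obtain ⟨i, j⟩ := p
  rw [HasAntidiagonal.mem_antidiagonal] at hp
  simp only at hp ⊢
  rw [Q_X (2 * i), Q_X (2 * i + 4 * j + 2), show 2 * i + 4 * j + 2 + 2 = 2 * i + 4 * j + 4 by ring,
    show 2 * n + 2 = 2 * i + 2 * j by omega]
  have h1 := al_mul hx j
  have e : al x j * ((1 - x * X ^ (2 * j)) * (1 - x * X ^ (2 * j))) =
    (-1) ^ j * X ^ (j * (j + 1)) * (1 + x * X ^ (2 * j)) * (1 - x * X ^ (2 * j)) := by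
    rw [← h1]; ring
  linear_combination (X ^ (2 * i) * Q (X ^ (2 * i + 2)) * Q (X ^ (2 * i + 4 * j + 4))) * e +
    (-(-1) ^ j * X ^ (j * (j + 1)) * X ^ (4 * j) *
      (X ^ (2 * i) * Q (X ^ (2 * i + 2)) * Q (X ^ (2 * i + 4 * j + 4))) +
    al x j * Q (X ^ (2 * i + 2)) * Q (X ^ (2 * i + 4 * j + 4)) *
      (X ^ (4 * i + 4 * j) - X ^ (2 * i + 4 * j))) * hx2

theorem bailey {x : R} (hx : (X : R) ∣ x) (hx2 : x ^ 2 = X ^ 2) (n : ℕ) :
    (I x * Q (x * X ^ (2 * n + 2))) ^ 2 * Q (X ^ 2) ^ 2 = AA x n := by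
  induction n with
  | zero =>
    have h1 : (1 - x) * Q (x * X ^ 2) * I x = (1 : R) := by
      have := Q_mul_I hx
      rw [Q_succ] at this
      exact this
    have h2 := mul_Iv (one_sub_cc hx 0)
    have h3 : I x * Q (x * X ^ 2) = Iv (1 - x : R) := by
      simp only [mul_zero, pow_zero, mul_one] at h2
      calc I x * Q (x * X ^ 2) = ((1 - x) * Iv (1 - x)) * (I x * Q (x * X ^ 2)) := by
            rw [h2, one_mul]
        _ = Iv (1 - x) * ((1 - x) * Q (x * X ^ 2) * I x) := by ring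
        _ = _ := by rw [h1, mul_one]
    unfold AA
    simp only [mul_zero, zero_add, Finset.Nat.antidiagonal_zero, Finset.sum_singleton]
    rw [h3]
    unfold al
    simp only [mul_zero, zero_add, mul_one, pow_zero, zero_mul, one_mul] at h2 ⊢
    rw [Q_X 2]
    linear_combination ((1 + x) * Iv (1 - x) * (1 - X ^ 2) * Q (X ^ (2 + 2)) ^ 2) * h2 +
      (Iv (1 - x) ^ 2 * (1 - X ^ 2) * Q (X ^ (2 + 2)) ^ 2) * hx2
  | succ n ih =>
    have h1 : Q (x * X ^ (2 * n + 2) : R) = (1 - x * X ^ (2 * n + 2)) *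
        Q (x * X ^ (2 * (n + 1) + 2)) := by
      rw [Q_succ, mul_assoc x, ← pow_add]
      congr 2
    rw [AA_rec hx hx2, h1] at ih
    have hne : ((1 - x * X ^ (2 * n + 2)) ^ 2 : R) ≠ 0 := by
      intro h
      have := congrArg (constantCoeff (R := ℤ)) h
      simp at this
    refine mul_left_cancel₀ hne ?_
    linear_combination ih

/-- Durfee rectangles -/
theorem durfee (r : ℕ) :
    ∑' m : ℕ, (X : R) ^ (2 * m ^ 2 + 2 * r * m) * (Q (X ^ (2 * m + 2)) * Q (X ^ (2 * m + 2 * r + 2)))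
      = Q (X ^ 2) := by
  have hd : ∀ r m : ℕ, m ≤ 2 * m ^ 2 + 2 * r * m := fun r m => by nlinarith [Nat.zero_le (r * m)]
  have hs : ∀ r, ∀ m : ℕ, (X : R) ^ m ∣ (X : R) ^ (2 * m ^ 2 + 2 * r * m) *
      (Q (X ^ (2 * m + 2)) * Q (X ^ (2 * m + 2 * r + 2))) :=
    fun r m => Dvd.dvd.mul_right (pow_dvd_pow _ (hd r m)) _
  have hstep : ∀ r, ∑' m : ℕ, (X : R) ^ (2 * m ^ 2 + 2 * r * m) * (Q (X ^ (2 * m + 2)) *
      Q (X ^ (2 * m + 2 * r + 2))) = ∑' m : ℕ, (X : R) ^ (2 * m ^ 2 + 2 * (r + 1) * m) *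
      (Q (X ^ (2 * m + 2)) * Q (X ^ (2 * m + 2 * (r + 1) + 2))) := by
    intro r
    rw [← sub_eq_zero, ← (summ (hs r)).tsum_sub (summ (hs (r + 1)))]
    rw [tele (V := fun m => X ^ (2 * m ^ 2 + 2 * r * m) * (Q (X ^ (2 * m)) *
      Q (X ^ (2 * m + 2 * r + 2)))) (L := 0)]
    · simp only [mul_zero, pow_zero, Q_one]
      ring
    · intro m
      rw [show 2 * m + 2 * (r + 1) + 2 = 2 * m + 2 * r + 2 + 2 by ring,
        show 2 * (m + 1) + 2 * r + 2 = 2 * m + 2 * r + 2 + 2 by ring,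
        show 2 * (m + 1) = 2 * m + 2 by ring, Q_X (2 * m), Q_X (2 * m + 2 * r + 2),
        show 2 * (m + 1) ^ 2 + 2 * r * (m + 1) = (2 * m ^ 2 + 2 * r * m) + (4 * m + 2 * r + 2) by ring,
        show 2 * m ^ 2 + 2 * (r + 1) * m = (2 * m ^ 2 + 2 * r * m) + 2 * m by ring]
      ring
    · intro m
      rw [sub_zero]
      exact Dvd.dvd.mul_right (pow_dvd_pow _ (hd r m)) _
  have hall : ∀ N, ∑' m : ℕ, (X : R) ^ (2 * m ^ 2 + 2 * r * m) * (Q (X ^ (2 * m + 2)) *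
      Q (X ^ (2 * m + 2 * r + 2))) = ∑' m : ℕ, (X : R) ^ (2 * m ^ 2 + 2 * (r + N) * m) *
      (Q (X ^ (2 * m + 2)) * Q (X ^ (2 * m + 2 * (r + N) + 2))) := by
    intro N
    induction N with
    | zero => rfl
    | succ N ih => rw [ih, hstep]; rfl
  refine ext_dvd fun N => ?_
  rw [hall N, (summ (hs (r + N))).tsum_eq_zero_add]
  simp only [ne_eq, OfNat.ofNat_ne_zero, not_false_eq_true, zero_pow, mul_zero, add_zero, pow_zero,
    zero_add, one_mul]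
  have h1 : (X : R) ^ N ∣ Q (X ^ (2 * (r + N) + 2)) - 1 := Q_small (pow_dvd_pow _ (by omega))
  have h2 : (X : R) ^ N ∣ ∑' b : ℕ, (X : R) ^ (2 * (b + 1) ^ 2 + 2 * (r + N) * (b + 1)) *
      (Q (X ^ (2 * (b + 1) + 2)) * Q (X ^ (2 * (b + 1) + 2 * (r + N) + 2))) := by
    refine tsum_small (fun m => ?_) fun m => ?_
    · exact Dvd.dvd.mul_right (pow_dvd_pow _ (by nlinarith [Nat.zero_le ((r + N) * m)])) _
    · exact Dvd.dvd.mul_right (pow_dvd_pow _ (by nlinarith [Nat.zero_le ((r + N) * m)])) _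
  have : Q (X ^ 2) * Q (X ^ (2 * (r + N) + 2)) + ∑' b : ℕ, (X : R) ^ (2 * (b + 1) ^ 2 +
      2 * (r + N) * (b + 1)) * (Q (X ^ (2 * (b + 1) + 2)) * Q (X ^ (2 * (b + 1) + 2 * (r + N) + 2)))
      - Q (X ^ 2) = Q (X ^ 2) * (Q (X ^ (2 * (r + N) + 2)) - 1) + ∑' b : ℕ, (X : R) ^
        (2 * (b + 1) ^ 2 + 2 * (r + N) * (b + 1)) *
        (Q (X ^ (2 * (b + 1) + 2)) * Q (X ^ (2 * (b + 1) + 2 * (r + N) + 2))) := by ring
  rw [this]
  exact dvd_add (Dvd.dvd.mul_left h1 _) h2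

end Pool.Agent.K3h25.CM
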