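import Pool.Agent.K3h25.CM.Lerch

/-! The Lerch sum form of `ω(-q)`, continued. -/

open PowerSeries Finset Filter Topology
open scoped PowerSeries.WithPiTopology

namespace Pool.Agent.K3h25.CM

theorem summ2 {f : ℕ → ℕ → R} (hf : ∀ i j, (X : R) ^ (i + j) ∣ f i j) :
    Summable (fun p : ℕ × ℕ => f p.1 p.2) := by
  rw [WithPiTopology.summable_iff_summable_coeff]
  intro d
  refine summable_of_ne_finset_zero (s := range (d + 1) ×ˢ range (d + 1)) fun p hp => ?_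
  refine (X_pow_dvd_iff.1 (hf p.1 p.2)) d ?_
  by_contra hcon
  apply hp
  rw [Finset.mem_product, Finset.mem_range, Finset.mem_range]
  omega

theorem swap {f : ℕ → ℕ → R} (hf : ∀ i j, (X : R) ^ (i + j) ∣ f i j) :
    ∑' n, ∑ p ∈ HasAntidiagonal.antidiagonal n, f p.1 p.2 = ∑' j, ∑' i, f i j := by
  have hs := summ2 hf
  have h1 : ∑' n, ∑ p ∈ HasAntidiagonal.antidiagonal n, f p.1 p.2 =
      ∑' p : ℕ × ℕ, f p.1 p.2 := by
    conv_lhs => congr; ext; rw [← Finset.sum_finset_coe, ← tsum_fintype (L := .unconditional _)]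
    rw [← HasAntidiagonal.sigmaAntidiagonalEquivProd.tsum_eq (fun p : ℕ × ℕ => f p.1 p.2)]
    exact ((HasAntidiagonal.sigmaAntidiagonalEquivProd.summable_iff.mpr hs).tsum_sigma' fun n ↦
      (hasSum_fintype _).summable).symm
  have h2 : ∑' p : ℕ × ℕ, f p.1 p.2 = ∑' p : ℕ × ℕ, f p.2 p.1 :=
    ((Equiv.prodComm ℕ ℕ).tsum_eq (fun p : ℕ × ℕ => f p.1 p.2)).symm
  have hs2 : Summable (fun p : ℕ × ℕ => f p.2 p.1) := (Equiv.prodComm ℕ ℕ).summable_iff.2 hs
  rw [h1, h2]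
  exact hs2.tsum_prod' fun j => summ fun i => (pow_dvd_pow _ (Nat.le_add_right i j)).trans (hf i j)

theorem al_dvd (x : R) (j : ℕ) : (X : R) ^ j ∣ al x j := by
  unfold al
  refine Dvd.dvd.mul_right (Dvd.dvd.mul_left (pow_dvd_pow _ ?_) _) _
  nlinarith [Nat.zero_le (j * j)]

/-- Watson's formula for the third order mock theta function `ω(-q)` -/
theorem lerch : Q (X ^ 2) * W = ∑' j : ℕ, X ^ (2 * (j * (j + 1))) * al (-X) j := by
  have hne : (Q (X ^ 2) : R) ≠ 0 := by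
    intro h
    have := Q_cc (a := (X : R) ^ 2) (X_dvd_pow 1)
    rw [h, map_zero] at this
    exact zero_ne_one this
  refine mul_left_cancel₀ hne ?_
  have h1 : Q (X ^ 2) * (Q (X ^ 2) * W) =
      ∑' n : ℕ, ∑ p ∈ HasAntidiagonal.antidiagonal n, X ^ (2 * (p.2 * (p.2 + 1))) * al (-X) p.2 *
        (X ^ (2 * p.1 ^ 2 + 2 * (2 * p.2 + 1) * p.1) *
          (Q (X ^ (2 * p.1 + 2)) * Q (X ^ (2 * p.1 + 2 * (2 * p.2 + 1) + 2)))) := by
    rw [← mul_assoc, W_eq]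
    unfold Ps
    have hs : Summable fun n : ℕ => (-X : R) ^ n * ((-X) ^ n * X ^ (2 * n ^ 2) *
        (I (-X) * Q (-X * X ^ (2 * n + 2))) ^ 2) := summ fun k => pow_dvd_of X_dvd_negX k _
    rw [← hs.tsum_mul_left]
    refine tsum_congr fun n => ?_
    have hb := bailey X_dvd_negX (neg_sq X) n
    have h3 : Q (X ^ 2) * Q (X ^ 2) * ((-X : R) ^ n * ((-X) ^ n * X ^ (2 * n ^ 2) *
        (I (-X) * Q (-X * X ^ (2 * n + 2))) ^ 2)) = X ^ (2 * n + 2 * n ^ 2) * AA (-X) n := by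
      rw [← hb]
      have : (-X : R) ^ n * (-X) ^ n = X ^ (2 * n) := by
        rw [← pow_add, ← two_mul, Even.neg_pow ⟨n, two_mul n⟩]
      rw [pow_add X (2 * n) (2 * n ^ 2)]
      linear_combination (Q (X ^ 2) * Q (X ^ 2) * X ^ (2 * n ^ 2) *
        (I (-X) * Q (-X * X ^ (2 * n + 2))) ^ 2) * this
    rw [h3]
    unfold AA
    rw [Finset.mul_sum]
    refine Finset.sum_congr rfl fun p hp => ?_
    rw [HasAntidiagonal.mem_antidiagonal] at hp
    rw [show 2 * p.1 + 2 * (2 * p.2 + 1) + 2 = 2 * p.1 + 4 * p.2 + 4 by ring, ← hp,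
      show 2 * (p.1 + p.2) + 2 * (p.1 + p.2) ^ 2 =
        2 * (p.2 * (p.2 + 1)) + (2 * p.1 ^ 2 + 2 * (2 * p.2 + 1) * p.1) by ring, pow_add]
    ring
  have hd : ∀ i j : ℕ, i + j ≤ 2 * (j * (j + 1)) + (2 * i ^ 2 + 2 * (2 * j + 1) * i) := by
    intro i j
    nlinarith [Nat.zero_le (j * j), Nat.zero_le (i * i), Nat.zero_le (i * j)]
  rw [h1, swap (f := fun i j => X ^ (2 * (j * (j + 1))) * al (-X) j *
        (X ^ (2 * i ^ 2 + 2 * (2 * j + 1) * i) *
          (Q (X ^ (2 * i + 2)) * Q (X ^ (2 * i + 2 * (2 * j + 1) + 2)))))]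
  · have hs : Summable fun j : ℕ => (X : R) ^ (2 * (j * (j + 1))) * al (-X) j :=
      summ fun j => Dvd.dvd.mul_left (al_dvd _ j) _
    rw [mul_comm, ← hs.tsum_mul_right]
    refine tsum_congr fun j => ?_
    have hs2 : Summable fun i : ℕ => (X : R) ^ (2 * i ^ 2 + 2 * (2 * j + 1) * i) *
          (Q (X ^ (2 * i + 2)) * Q (X ^ (2 * i + 2 * (2 * j + 1) + 2))) :=
      summ fun i => Dvd.dvd.mul_right (pow_dvd_pow _ (by nlinarith [Nat.zero_le (i * j)])) _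
    rw [hs2.tsum_mul_left, durfee (2 * j + 1)]
  · intro i j
    have h2 : (X : R) ^ (2 * (j * (j + 1)) + (2 * i ^ 2 + 2 * (2 * j + 1) * i)) ∣
        X ^ (2 * (j * (j + 1))) * al (-X) j *
        (X ^ (2 * i ^ 2 + 2 * (2 * j + 1) * i) *
          (Q (X ^ (2 * i + 2)) * Q (X ^ (2 * i + 2 * (2 * j + 1) + 2)))) := by
      rw [pow_add]
      exact mul_dvd_mul (dvd_mul_right _ _) (dvd_mul_right _ _)
    exact (pow_dvd_pow _ (hd i j)).trans h2

/-- limit of the Bailey sums -/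
theorem lambert {x : R} (hx : (X : R) ∣ x) (hx2 : x ^ 2 = X ^ 2) :
    I x ^ 2 * Q (X ^ 2) ^ 2 = ∑' j : ℕ, al x j := by
  refine ext_dvd fun n => ?_
  have h1 := bailey hx hx2 n
  have h2 : (X : R) ^ n ∣ Q (x * X ^ (2 * n + 2)) - 1 :=
    Q_small (Dvd.dvd.mul_left (pow_dvd_pow _ (by omega)) _)
  have h3 : (X : R) ^ n ∣ AA x n - ∑ j ∈ range n, al x j := by
    unfold AA
    rw [Finset.Nat.sum_antidiagonal_eq_sum_range_succ (fun i j => al x j * (Q (X ^ (2 * i + 2)) *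
      Q (X ^ (2 * i + 4 * j + 4))))]
    rw [← Finset.sum_range_reflect]
    have e : ∀ j ∈ range (n + 1), (fun k => al x (n - k) * (Q (X ^ (2 * k + 2)) *
      Q (X ^ (2 * k + 4 * (n - k) + 4)))) (n.succ - 1 - j) =
      al x j * (Q (X ^ (2 * (n - j) + 2)) * Q (X ^ (2 * (n - j) + 4 * j + 4))) := by
      intro j hj
      rw [Finset.mem_range] at hj
      simp only [Nat.succ_sub_one]
      rw [show n - (n - j) = j by omega]
    rw [Finset.sum_congr rfl e, Finset.sum_range_succ, add_sub_right_comm,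
      ← Finset.sum_sub_distrib]
    refine dvd_add (Finset.dvd_sum fun j hj => ?_) (Dvd.dvd.mul_right (al_dvd x n) _)
    rw [Finset.mem_range] at hj
    have h4 : (X : R) ^ (n - j) ∣ Q (X ^ (2 * (n - j) + 2)) - 1 :=
      Q_small (pow_dvd_pow _ (by omega))
    have h5 : (X : R) ^ (n - j) ∣ Q (X ^ (2 * (n - j) + 4 * j + 4)) - 1 :=
      Q_small (pow_dvd_pow _ (by omega))
    have h6 : (X : R) ^ (n - j) ∣ Q (X ^ (2 * (n - j) + 2)) * Q (X ^ (2 * (n - j) + 4 * j + 4)) - 1 := by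
      have : Q (X ^ (2 * (n - j) + 2)) * Q (X ^ (2 * (n - j) + 4 * j + 4)) - 1 =
        (Q (X ^ (2 * (n - j) + 2)) - 1) * Q (X ^ (2 * (n - j) + 4 * j + 4)) +
          (Q (X ^ (2 * (n - j) + 4 * j + 4) : R) - 1) := by ring
      rw [this]
      exact dvd_add (Dvd.dvd.mul_right h4 _) h5
    have h7 := mul_dvd_mul (al_dvd x j) h6
    rw [← pow_add, show j + (n - j) = n by omega] at h7
    have : al x j * (Q (X ^ (2 * (n - j) + 2)) * Q (X ^ (2 * (n - j) + 4 * j + 4))) - al x j =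
      al x j * (Q (X ^ (2 * (n - j) + 2)) * Q (X ^ (2 * (n - j) + 4 * j + 4)) - 1) := by ring
    rw [this]
    exact h7
  have h4 := tsum_dvd (al_dvd x) n
  have : I x ^ 2 * Q (X ^ 2) ^ 2 - ∑' j : ℕ, al x j =
      (AA x n - ∑ j ∈ range n, al x j) - (∑' j : ℕ, al x j - ∑ j ∈ range n, al x j) -
      I x ^ 2 * Q (X ^ 2) ^ 2 * (Q (x * X ^ (2 * n + 2)) + 1) * (Q (x * X ^ (2 * n + 2)) - 1) := by
    rw [← h1]; ring
  rw [this]
  exact dvd_sub (dvd_sub h3 h4) (Dvd.dvd.mul_left h2 _)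

end Pool.Agent.K3h25.CM
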