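import Pool.Agent.K3h25.CM.BFin

/-! The congruences. -/

open PowerSeries Finset Filter Topology
open scoped PowerSeries.WithPiTopology

namespace Pool.Agent.K3h25.CM

/-- the coefficients in terms of the two parts -/
theorem cc_coeff (n : ℕ) : coeff (n + 1) (CC 0) = - w n + 2 * coeff (n + 1) dd := by
  rw [CC_zero, map_add, map_neg, coeff_succ_X_mul, coeff_nat2]
  rfl

/-- the first family for `w` -/
theorem w_fam1 (m0 : ℕ) (h0 : (4 : ℤ) ∣ w m0) (k m : ℕ) (hm : 3 * m + 2 = 4 ^ k * (3 * m0 + 2)) :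
    (4 : ℤ) ∣ w m := by
  induction k generalizing m with
  | zero =>
    have : m = m0 := by omega
    rw [this]; exact h0
  | succ k ih =>
    have hm2 : 3 * m + 2 = 4 * (4 ^ k * (3 * m0 + 2)) := by rw [hm, pow_succ]; ring
    obtain ⟨m', rfl⟩ : ∃ m', m = 4 * m' + 2 := by
      refine ⟨(m - 2) / 4, ?_⟩
      omega
    have h1 := ih m' (by omega)
    obtain ⟨s, hs, _⟩ := w_rec m'
    omega

/-- the second family for `w` -/
theorem w_fam2 (m0 : ℕ) (h0 : (8 : ℤ) ∣ w m0) (h4 : ¬ 4 ∣ m0) (k m : ℕ)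
    (hm : 3 * m + 2 = 4 ^ k * (3 * m0 + 2)) : (8 : ℤ) ∣ w m ∧ ¬ 4 ∣ m := by
  induction k generalizing m with
  | zero =>
    have : m = m0 := by omega
    rw [this]; exact ⟨h0, h4⟩
  | succ k ih =>
    have hm2 : 3 * m + 2 = 4 * (4 ^ k * (3 * m0 + 2)) := by rw [hm, pow_succ]; ring
    obtain ⟨m', rfl⟩ : ∃ m', m = 4 * m' + 2 := by
      refine ⟨(m - 2) / 4, ?_⟩
      omega
    have h1 := ih m' (by omega)
    obtain ⟨s, hs, hs2⟩ := w_rec m'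
    have h2 := hs2 h1.2
    have h3 := h1.1
    omega

theorem four_pow_mod (k : ℕ) : ∃ t : ℕ, 4 ^ k = 3 * t + 1 := by
  induction k with
  | zero => exact ⟨0, by norm_num⟩
  | succ k ih =>
    obtain ⟨t, ht⟩ := ih
    exact ⟨4 * t + 1, by rw [pow_succ, ht]; ring⟩

theorem fam1 {k : ℕ} (hk : 1 ≤ k) (n : ℕ) :
    (4 : ℤ) ∣ coeff (2 ^ (2 * k + 3) * n + (11 * 4 ^ k + 1) / 3) (CC 0) := by
  obtain ⟨j, rfl⟩ : ∃ j, k = j + 1 := ⟨k - 1, by omega⟩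
  obtain ⟨t, ht⟩ := four_pow_mod j
  have e1 : 2 ^ (2 * (j + 1) + 3) * n + (11 * 4 ^ (j + 1) + 1) / 3 =
      (4 * (8 * 4 ^ j * n + (11 * t + 3)) + 2) + 1 := by
    rw [show 2 ^ (2 * (j + 1) + 3) = 32 * 4 ^ j by
      rw [show 2 * (j + 1) + 3 = 2 * j + 5 by ring, pow_add, pow_mul]; norm_num; ring,
      pow_succ, ht]
    have : (11 * ((3 * t + 1) * 4) + 1) / 3 = 44 * t + 15 := by omega
    rw [this]
    ring
  rw [e1, cc_coeff]
  have h1 := w_fam1 (8 * n + 3) (w_three n) (j + 1) (4 * (8 * 4 ^ j * n + (11 * t + 3)) + 2) (by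
    rw [pow_succ, ht]; ring)
  have h2 := dd_three (8 * 4 ^ j * n + (11 * t + 3))
  rw [show 4 * (8 * 4 ^ j * n + (11 * t + 3)) + 2 + 1 =
    4 * (8 * 4 ^ j * n + (11 * t + 3)) + 3 by ring]
  omega

theorem fam2 {k : ℕ} (hk : 1 ≤ k) (n : ℕ) :
    (8 : ℤ) ∣ coeff (2 ^ (2 * k + 3) * n + (17 * 4 ^ k + 1) / 3) (CC 0) := by
  obtain ⟨j, rfl⟩ : ∃ j, k = j + 1 := ⟨k - 1, by omega⟩
  obtain ⟨t, ht⟩ := four_pow_mod j
  have e1 : 2 ^ (2 * (j + 1) + 3) * n + (17 * 4 ^ (j + 1) + 1) / 3 =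
      (4 * (8 * 4 ^ j * n + (17 * t + 5)) + 2) + 1 := by
    rw [show 2 ^ (2 * (j + 1) + 3) = 32 * 4 ^ j by
      rw [show 2 * (j + 1) + 3 = 2 * j + 5 by ring, pow_add, pow_mul]; norm_num; ring,
      pow_succ, ht]
    have : (17 * ((3 * t + 1) * 4) + 1) / 3 = 68 * t + 23 := by omega
    rw [this]
    ring
  rw [e1, cc_coeff]
  have h1 := (w_fam2 (8 * n + 5) (w_five n) (by omega) (j + 1)
    (4 * (8 * 4 ^ j * n + (17 * t + 5)) + 2) (by rw [pow_succ, ht]; ring)).1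
  have h2 := dd_three (8 * 4 ^ j * n + (17 * t + 5))
  rw [show 4 * (8 * 4 ^ j * n + (17 * t + 5)) + 2 + 1 =
    4 * (8 * 4 ^ j * n + (17 * t + 5)) + 3 by ring]
  omega

theorem fam3 {k : ℕ} (hk : 1 ≤ k) (n : ℕ) :
    (4 : ℤ) ∣ coeff (2 ^ (2 * k + 4) * n + (38 * 4 ^ k + 1) / 3) (CC 0) := by
  obtain ⟨j, rfl⟩ : ∃ j, k = j + 1 := ⟨k - 1, by omega⟩
  obtain ⟨t, ht⟩ := four_pow_mod j
  have e1 : 2 ^ (2 * (j + 1) + 4) * n + (38 * 4 ^ (j + 1) + 1) / 3 =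
      (4 * (16 * 4 ^ j * n + (38 * t + 12)) + 2) + 1 := by
    rw [show 2 ^ (2 * (j + 1) + 4) = 64 * 4 ^ j by
      rw [show 2 * (j + 1) + 4 = 2 * j + 6 by ring, pow_add, pow_mul]; norm_num; ring,
      pow_succ, ht]
    have : (38 * ((3 * t + 1) * 4) + 1) / 3 = 152 * t + 51 := by omega
    rw [this]
    ring
  rw [e1, cc_coeff]
  have h1 := w_fam1 (16 * n + 12) (w_twelve n) (j + 1)
    (4 * (16 * 4 ^ j * n + (38 * t + 12)) + 2) (by rw [pow_succ, ht]; ring)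
  have h2 := dd_three (16 * 4 ^ j * n + (38 * t + 12))
  rw [show 4 * (16 * 4 ^ j * n + (38 * t + 12)) + 2 + 1 =
    4 * (16 * 4 ^ j * n + (38 * t + 12)) + 3 by ring]
  omega

end Pool.Agent.K3h25.CM
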