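import Pool.Agent.K3h25.CM.Ser

/-! The four sections of `ω(-q)`. -/

open PowerSeries Finset Filter Topology
open scoped PowerSeries.WithPiTopology

namespace Pool.Agent.K3h25.CM

/-- coefficients of `ω(-q)` -/
noncomputable def w (n : ℕ) : ℤ := coeff n W

theorem LL_eq : LL = Q (X ^ 2) * W := by
  rw [lerch]; rfl

theorem PS_eq : PS = I X ^ 2 * Q (X ^ 2) ^ 2 := by
  rw [lambert (dvd_refl _) rfl]; rfl

theorem phm_eq : phm = Q (X ^ 2) * Q X ^ 2 := gauss_phi.symm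

theorem psi2_eq : psi2 = Q (X ^ 2) * Q (-X ^ 2) ^ 2 := gauss_psi.symm

theorem E1_sq : E1 ^ 2 = phm * Q (X ^ 2) := by
  rw [phm_eq]; unfold E1; ring

theorem phm_PS : phm * PS = Q (X ^ 2) ^ 3 := by
  have h := Q_mul_I (a := (X : R)) (dvd_refl _)
  rw [phm_eq, PS_eq]
  linear_combination (Q (X ^ 2) ^ 3 * (Q X * I X + 1)) * h

theorem W_master : ex4 (E1 ^ 2) * W = psi2 * LL := by
  rw [map_pow, ex4_E1, psi2_eq, LL_eq]
  unfold E4
  ring

theorem W_sect {r : ℕ} (hr : r < 4) : E1 ^ 2 * sect r W = sect r (psi2 * LL) := by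
  rw [← W_master, sect_mul hr]

/-- `φ(-q)^2 = 1 + 4 κ` -/
theorem phm_sq : ∃ κ : R, phm ^ 2 = 1 + 4 * κ := by
  refine ⟨(∑' r : ℕ, (-1) ^ (r + 1) * X ^ ((r + 1) ^ 2)) +
    (∑' r : ℕ, (-1) ^ (r + 1) * X ^ ((r + 1) ^ 2)) ^ 2, ?_⟩
  unfold phm
  ring

theorem coeff_int_mul (c : ℤ) (F : R) (n : ℕ) : coeff n ((c : R) * F) = c * coeff n F := by
  rw [← map_intCast (C (R := ℤ)) c, Int.cast_id, coeff_C_mul]

theorem coeff_nat2 (F : R) (n : ℕ) : coeff n (2 * F) = 2 * coeff n F := by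
  have := coeff_int_mul 2 F n
  exact_mod_cast this

theorem coeff_nat4 (F : R) (n : ℕ) : coeff n (4 * F) = 4 * coeff n F := by
  have := coeff_int_mul 4 F n
  exact_mod_cast this

theorem coeff_nat8 (F : R) (n : ℕ) : coeff n (8 * F) = 8 * coeff n F := by
  have := coeff_int_mul 8 F n
  exact_mod_cast this

theorem S1_eq : phm ^ 2 * sect 1 W = -(2 * (psi2 * Q (X ^ 2) ^ 2)) := by
  have h1 : E1 ^ 2 * sect 1 W = -(2 * (psi2 * PS)) := by
    rw [W_sect (by norm_num)]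
    ext m
    rw [coeff_sect, coeff_A, map_neg, coeff_nat2]
    have h2 := A_two m
    have h3 : ((-1 : ℤ)) ^ (4 * m + 1) = -1 := by
      rw [pow_succ, pow_mul]; norm_num
    rw [h3, show (((4 * m + 1 : ℕ) : ℤ) + 1) = 4 * m + 2 by push_cast; ring, h2]
    ring
  rw [E1_sq] at h1
  have h2 := phm_PS
  refine mul_left_cancel₀ QX2_ne ?_
  linear_combination phm * h1 - 2 * psi2 * h2

theorem S0_eq : phm ^ 2 * sect 0 W = php * Q (X ^ 2) ^ 2 := by
  have h1 : E1 ^ 2 * sect 0 W = php * PS := by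
    rw [W_sect (by norm_num)]
    ext m
    rw [coeff_sect, coeff_A]
    have h2 := A_one m
    have h3 : ((-1 : ℤ)) ^ (4 * m + 0) = 1 := by
      rw [add_zero, pow_mul]; norm_num
    rw [h3, show (((4 * m + 0 : ℕ) : ℤ) + 1) = 4 * m + 1 by push_cast; ring, h2]
    ring
  rw [E1_sq] at h1
  have h2 := phm_PS
  refine mul_left_cancel₀ QX2_ne ?_
  linear_combination phm * h1 + php * h2

/-- `w(8N+5)` -/
theorem w_five (N : ℕ) : (8 : ℤ) ∣ w (8 * N + 5) := by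
  obtain ⟨κ, hκ⟩ := phm_sq
  have h1 := S1_eq
  rw [hκ] at h1
  have h2 : sect 1 W = -(2 * (psi2 * Q (X ^ 2) ^ 2)) + 8 * (κ * (psi2 * Q (X ^ 2) ^ 2) +
      2 * κ ^ 2 * sect 1 W) := by
    linear_combination (1 - 4 * κ) * h1
  have h3 := congrArg (coeff (2 * N + 1)) h2
  rw [coeff_sect, map_add, map_neg, coeff_nat2, coeff_nat8] at h3
  have h4 : coeff (2 * N + 1) (psi2 * Q (X ^ 2) ^ 2) = 0 := by
    have := ((Sp_psi2 0).mul ((Sp_QX2 0).mul (Sp_QX2 0))) (2 * N + 1) (by omega)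
    rw [← pow_two] at this
    exact zero_dvd_iff.1 this
  rw [h4] at h3
  unfold w
  rw [show 8 * N + 5 = 4 * (2 * N + 1) + 1 by ring, h3]
  simp

theorem php_eq : ∃ θ : R, php = 1 + 2 * θ ∧ ∀ n, n % 4 = 2 ∨ n % 4 = 3 → coeff n θ = 0 := by
  refine ⟨_, rfl, fun n hn => ?_⟩
  rw [coeff_tsum (summ fun k => pow_dvd_pow _ (by nlinarith))]
  rw [tsum_congr (g := fun _ => (0 : ℤ)), tsum_zero]
  intro k
  rw [coeff_X_pow, if_neg]
  intro h
  rw [h, pow_two] at hn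
  have h2 := Nat.mod_add_div (k + 1) 4
  have h3 : (k + 1) % 4 = 0 ∨ (k + 1) % 4 = 1 ∨ (k + 1) % 4 = 2 ∨ (k + 1) % 4 = 3 := by omega
  rcases h3 with h3 | h3 | h3 | h3 <;> rw [Nat.mul_mod, h3] at hn <;> norm_num at hn

/-- `w(16N+12)` -/
theorem w_twelve (N : ℕ) : (4 : ℤ) ∣ w (16 * N + 12) := by
  obtain ⟨κ, hκ⟩ := phm_sq
  obtain ⟨θ, hθ, hθ2⟩ := php_eq
  have h1 := S0_eq
  rw [hκ, hθ] at h1
  have h2 : sect 0 W = Q (X ^ 2) ^ 2 + (2 * (θ * Q (X ^ 2) ^ 2) + 4 * (-κ * sect 0 W)) := by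
    linear_combination h1
  have h3 := congrArg (coeff (4 * N + 3)) h2
  rw [coeff_sect, map_add, map_add, coeff_nat2, coeff_nat4] at h3
  have h4 : coeff (4 * N + 3) (Q (X ^ 2) ^ 2 : R) = 0 := by
    have := (((Sp_QX2 0).mul (Sp_QX2 0))) (4 * N + 3) (by omega)
    rw [← pow_two] at this
    exact zero_dvd_iff.1 this
  have h5 : (2 : ℤ) ∣ coeff (4 * N + 3) (θ * Q (X ^ 2) ^ 2) := by
    rw [coeff_mul]
    refine Finset.dvd_sum fun p hp => ?_
    rw [HasAntidiagonal.mem_antidiagonal] at hp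
    by_cases h : 4 ∣ p.2
    · rw [hθ2 _ (by omega), zero_mul]; exact dvd_zero 2
    · exact Dvd.dvd.mul_left ((Sp.sq (k := 2) (Sp_QX2 2)) _ h) _
  obtain ⟨c, hc⟩ := h5
  rw [h4, hc] at h3
  unfold w
  rw [show 16 * N + 12 = 4 * (4 * N + 3) + 0 by ring, h3]
  exact ⟨c + coeff (4 * N + 3) (-κ * sect 0 W), by ring⟩

/-- `1 / E1^2` -/
noncomputable def I1 : R := Iv (E1 ^ 2)

theorem E1_cc : constantCoeff (E1 ^ 2) = 1 := by
  unfold E1
  rw [map_pow, map_mul, Q_cc (dvd_refl _), Q_cc (X_dvd_pow 1)]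
  norm_num

theorem E1_I1 : E1 ^ 2 * I1 = 1 := mul_Iv E1_cc

theorem Sp_any (F : R) : Sp 1 2 F := fun n hn => absurd (one_dvd n) hn

theorem Sp_I1 : Sp 2 2 I1 := Sp.inv E1_cc E1_I1 (Sp.sq (k := 1) (Sp_any E1))

/-- `w(8N+3)` -/
theorem w_three (N : ℕ) : (4 : ℤ) ∣ w (8 * N + 3) := by
  have h1 := W_sect (r := 3) (by norm_num)
  have h2 : sect 3 W = I1 * sect 3 (psi2 * LL) := by
    have h3 := E1_I1
    linear_combination I1 * h1 - sect 3 W * h3
  have h3 := congrArg (coeff (2 * N)) h2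
  rw [coeff_sect, coeff_mul] at h3
  unfold w
  rw [show 8 * N + 3 = 4 * (2 * N) + 3 by ring, h3]
  refine Finset.dvd_sum fun p hp => ?_
  rw [HasAntidiagonal.mem_antidiagonal] at hp
  rw [coeff_sect, coeff_A, show ((4 * p.2 + 3 : ℕ) : ℤ) + 1 = 4 * ((p.2 : ℤ) + 1) by push_cast; ring]
  by_cases h : 2 ∣ p.2
  · have := A_zero4 (g := (p.2 : ℤ) + 1) (by omega)
    exact Dvd.dvd.mul_left (Dvd.dvd.mul_left this _) _
  · have h4 := A_zero2 ((p.2 : ℤ) + 1)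
    have h5 := Sp_I1 p.1 (by omega)
    rw [show (4 : ℤ) = 2 * 2 by norm_num]
    exact mul_dvd_mul h5 (Dvd.dvd.mul_left h4 _)

/-- the series of `T2` -/
noncomputable def Tm : R := PowerSeries.mk fun m => T2 (4 * m + 3)

theorem S2_eq : sect 2 W + W = 4 * (I1 * Tm) := by
  have h1 : E1 ^ 2 * (sect 2 W + W) = 4 * Tm := by
    rw [mul_add, W_sect (by norm_num)]
    have h2 : E1 ^ 2 * W = phm * LL := by
      rw [E1_sq, LL_eq]; ring
    rw [h2]
    ext m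
    rw [map_add, coeff_sect, coeff_A, coeff_nat4]
    unfold Tm
    rw [coeff_mk]
    have h3 := A_three m
    rw [T1_T2] at h3
    have h4 : ((-1 : ℤ)) ^ (4 * m + 2) = 1 := by
      rw [pow_add, pow_mul]; norm_num
    rw [h4, show (((4 * m + 2 : ℕ) : ℤ) + 1) = 4 * m + 3 by push_cast; ring]
    linarith
  have h3 := E1_I1
  linear_combination I1 * h1 - (sect 2 W + W) * h3

theorem phm_mod2 : ∃ κ : R, phm = 1 + 2 * κ := ⟨_, rfl⟩

theorem Sp_s : Sp 4 2 (I1 * Tm) := by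
  have h1 : Sp 4 2 (I1 * psi2) := by
    obtain ⟨κ, hκ⟩ := phm_mod2
    have h2 : phm * (I1 * psi2) = Q (-X ^ 2) ^ 2 := by
      have h3 := E1_I1
      rw [E1_sq] at h3
      rw [psi2_eq]
      linear_combination Q (-X ^ 2) ^ 2 * h3
    rw [hκ] at h2
    have h3 : I1 * psi2 = Q (-X ^ 2) ^ 2 + 2 * (-κ * (I1 * psi2)) := by
      linear_combination h2
    intro n hn
    rw [h3, map_add, coeff_nat2]
    exact dvd_add ((Sp.sq (k := 2) (Sp_QnX2 2)) n hn) (dvd_mul_right _ _)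
  have h2 : ∃ H : R, Tm = psi2 * psi4 + 2 * H := by
    choose f hf using fun n : ℕ => T2_mod n
    refine ⟨PowerSeries.mk f, ?_⟩
    ext n
    rw [map_add, coeff_nat2, coeff_mk]
    unfold Tm
    rw [coeff_mk]
    have := hf n
    linarith
  obtain ⟨H, hH⟩ := h2
  intro n hn
  rw [hH, show I1 * (psi2 * psi4 + 2 * H) = (I1 * psi2) * psi4 + 2 * (I1 * H) by ring, map_add,
    coeff_nat2]
  exact dvd_add ((h1.mul (Sp_psi4 2)) n hn) (dvd_mul_right _ _)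

/-- the recursion for the coefficients of `ω(-q)` -/
theorem w_rec (m : ℕ) : ∃ s : ℤ, w (4 * m + 2) + w m = 4 * s ∧ (¬ 4 ∣ m → (2 : ℤ) ∣ s) := by
  refine ⟨coeff m (I1 * Tm), ?_, fun h => Sp_s m h⟩
  have := congrArg (coeff m) S2_eq
  rw [map_add, coeff_sect, coeff_nat4] at this
  exact this

end Pool.Agent.K3h25.CM
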