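import Pool.Agent.K3h25.CM.Comb7

/-! Supports of power series modulo integers; sections modulo four. -/

open PowerSeries Finset Filter Topology
open scoped PowerSeries.WithPiTopology

namespace Pool.Agent.K3h25.CM

/-- modulo `M` the series is supported on the multiples of `k` -/
def Sp (k : ℕ) (M : ℤ) (F : R) : Prop := ∀ n, ¬ k ∣ n → M ∣ coeff n F

theorem Sp.mul {k : ℕ} {M : ℤ} {F G : R} (hF : Sp k M F) (hG : Sp k M G) : Sp k M (F * G) := by
  intro n hn
  rw [coeff_mul]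
  refine Finset.dvd_sum fun p hp => ?_
  rw [HasAntidiagonal.mem_antidiagonal] at hp
  by_cases h1 : k ∣ p.1
  · by_cases h2 : k ∣ p.2
    · exact absurd (hp ▸ dvd_add h1 h2) hn
    · exact Dvd.dvd.mul_left (hG _ h2) _
  · exact Dvd.dvd.mul_right (hF _ h1) _

theorem Sp.add {k : ℕ} {M : ℤ} {F G : R} (hF : Sp k M F) (hG : Sp k M G) : Sp k M (F + G) := by
  intro n hn
  rw [map_add]
  exact dvd_add (hF n hn) (hG n hn)

theorem Sp.mono {k : ℕ} {M M' : ℤ} {F : R} (h : M' ∣ M) (hF : Sp k M F) : Sp k M' F :=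
  fun n hn => h.trans (hF n hn)

theorem Sp.inv {k : ℕ} {M : ℤ} {F G : R} (hc : constantCoeff F = 1) (h : F * G = 1)
    (hF : Sp k M F) : Sp k M G := by
  intro n
  induction n using Nat.strong_induction_on with
  | _ n ih =>
    intro hn
    have h0 : n ≠ 0 := by rintro rfl; exact hn (dvd_zero k)
    have h1 := congrArg (coeff n) h
    rw [coeff_mul, coeff_one, if_neg h0] at h1
    have hmem : ((0, n) : ℕ × ℕ) ∈ HasAntidiagonal.antidiagonal n := by simp
    rw [← Finset.add_sum_erase _ _ hmem] at h1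
    simp only [coeff_zero_eq_constantCoeff, hc, one_mul] at h1
    have h2 : M ∣ ∑ x ∈ (HasAntidiagonal.antidiagonal n).erase (0, n), coeff x.1 F * coeff x.2 G := by
      refine Finset.dvd_sum fun p hp => ?_
      rw [Finset.mem_erase, HasAntidiagonal.mem_antidiagonal] at hp
      by_cases h1 : k ∣ p.1
      · have h3 : ¬ k ∣ p.2 := by
          intro h2
          exact hn (hp.2 ▸ dvd_add h1 h2)
        have h4 : p.1 ≠ 0 := by
          intro h5
          apply hp.1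
          refine Prod.ext h5 ?_
          simp only
          omega
        exact Dvd.dvd.mul_left (ih _ (by omega) h3) _
      · exact Dvd.dvd.mul_right (hF _ h1) _
    have h3 : coeff n G = - ∑ x ∈ (HasAntidiagonal.antidiagonal n).erase (0, n), coeff x.1 F * coeff x.2 G := by
      linarith
    rw [h3, dvd_neg]
    exact h2

theorem Sp.sq {k : ℕ} {F : R} (hF : Sp k 2 F) : Sp (2 * k) 2 (F ^ 2) := by
  intro n hn
  rw [pow_two, coeff_mul]
  have h2 : (((∑ p ∈ HasAntidiagonal.antidiagonal n, coeff p.1 F * coeff p.2 F : ℤ)) : ZMod 2) = 0 := by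
    rw [Int.cast_sum]
    refine Finset.sum_involution (fun a _ => a.swap) ?_ ?_ ?_ ?_
    · intro a _
      push_cast
      rw [Prod.fst_swap, Prod.snd_swap, mul_comm ((coeff a.2 F : ℤ) : ZMod 2)]
      exact CharTwo.add_self_eq_zero _
    · intro a ha h1 h2
      rw [HasAntidiagonal.mem_antidiagonal] at ha
      have h3 : a.2 = a.1 := congrArg Prod.fst h2
      apply h1
      have h4 : ¬ k ∣ a.1 := by
        intro h5
        apply hn
        rw [← ha, h3, ← two_mul]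
        exact Nat.mul_dvd_mul_left 2 h5
      have h5 := hF _ h4
      rw [show (2 : ℤ) = ((2 : ℕ) : ℤ) by norm_num] at h5
      rw [Int.cast_mul, (ZMod.intCast_zmod_eq_zero_iff_dvd _ 2).2 h5, zero_mul]
    · intro a ha
      rw [HasAntidiagonal.mem_antidiagonal] at ha ⊢
      rw [Prod.fst_swap, Prod.snd_swap, add_comm]
      exact ha
    · intro a _
      exact Prod.swap_swap a
  have := (ZMod.intCast_zmod_eq_zero_iff_dvd _ 2).1 h2
  exact_mod_cast this

theorem Sp.lim {k : ℕ} {M : ℤ} {F : R} (h : ∀ N : ℕ, ∃ G, Sp k M G ∧ (X : R) ^ N ∣ F - G) :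
    Sp k M F := by
  intro n hn
  obtain ⟨G, hG, hd⟩ := h (n + 1)
  have := (X_pow_dvd_iff.1 hd) n (Nat.lt_succ_self n)
  rw [map_sub] at this
  have e : coeff n F = coeff n G := by linarith
  rw [e]
  exact hG n hn

theorem Sp_one (k : ℕ) (M : ℤ) : Sp k M 1 := by
  intro n hn
  rw [coeff_one, if_neg]
  · exact dvd_zero _
  · rintro rfl
    exact hn (dvd_zero k)

theorem Sp_Xpow {k m : ℕ} (h : k ∣ m) (M : ℤ) : Sp k M (X ^ m) := by
  intro n hn
  rw [coeff_X_pow, if_neg]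
  · exact dvd_zero _
  · rintro rfl
    exact hn h

theorem Sp_const (k : ℕ) (M c : ℤ) : Sp k M (c : R) := by
  intro n hn
  have h0 : n ≠ 0 := by rintro rfl; exact hn (dvd_zero k)
  rw [← map_intCast (C (R := ℤ)) c, coeff_C, if_neg h0]
  exact dvd_zero _

theorem Sp.tsum {k : ℕ} {M : ℤ} {f : ℕ → R} (hf : ∀ m, (X : R) ^ m ∣ f m)
    (h : ∀ m, Sp k M (f m)) : Sp k M (∑' m, f m) := by
  refine Sp.lim fun N => ⟨_, ?_, tsum_dvd hf N⟩
  induction N with
  | zero =>
    intro n _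
    simp
  | succ N ih =>
    rw [Finset.sum_range_succ]
    exact ih.add (h N)

theorem Sp_Q {k : ℕ} {M s : ℤ} {m : ℕ} (h : k ∣ m) (h2 : k ∣ 2) : Sp k M (Q ((s : R) * X ^ m)) := by
  refine Sp.lim fun N => ⟨_, ?_, Q_dvd _ N⟩
  induction N with
  | zero => rw [Finset.prod_range_zero]; exact Sp_one k M
  | succ N ih =>
    rw [Finset.prod_range_succ]
    refine ih.mul ?_
    have e : (1 : R) - (s : R) * X ^ m * X ^ (2 * N) = 1 + ((-s : ℤ) : R) * X ^ (m + 2 * N) := by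
      push_cast
      ring
    rw [e]
    exact (Sp_one k M).add ((Sp_const k M _).mul (Sp_Xpow (dvd_add h (Dvd.dvd.mul_right h2 _)) M))

theorem Sp_QX2 (M : ℤ) : Sp 2 M (Q (X ^ 2)) := by
  have := Sp_Q (k := 2) (M := M) (s := 1) (m := 2) (dvd_refl 2) (dvd_refl 2)
  simpa using this

theorem Sp_QnX2 (M : ℤ) : Sp 2 M (Q (-X ^ 2)) := by
  have := Sp_Q (k := 2) (M := M) (s := -1) (m := 2) (dvd_refl 2) (dvd_refl 2)
  simpa using this

theorem Sp_psi2 (M : ℤ) : Sp 2 M psi2 := by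
  refine Sp.tsum (fun m => pow_dvd_pow _ (by nlinarith)) fun m => Sp_Xpow ?_ M
  exact (Nat.even_mul_succ_self m).two_dvd

theorem Sp_psi4 (M : ℤ) : Sp 4 M psi4 := by
  refine Sp.tsum (fun m => pow_dvd_pow _ (by nlinarith)) fun m => Sp_Xpow ?_ M
  obtain ⟨c, hc⟩ := (Nat.even_mul_succ_self m).two_dvd
  exact ⟨c, by rw [hc]; ring⟩

/-- expansion by four -/
noncomputable def ex4 : R →ₐ[ℤ] R := PowerSeries.expand 4 (by norm_num)

theorem coeff_ex4 (G : R) (n : ℕ) : coeff n (ex4 G) = if 4 ∣ n then coeff (n / 4) G else 0 :=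
  PowerSeries.coeff_expand 4 (by norm_num) G

theorem ex4_X : ex4 X = X ^ 4 := PowerSeries.expand_X 4 (by norm_num)

/-- section modulo four -/
noncomputable def sect (r : ℕ) (F : R) : R := PowerSeries.mk fun m => coeff (4 * m + r) F

theorem coeff_sect (r : ℕ) (F : R) (m : ℕ) : coeff m (sect r F) = coeff (4 * m + r) F :=
  coeff_mk _ _

theorem sect_mul {r : ℕ} (hr : r < 4) (G F : R) : sect r (ex4 G * F) = G * sect r F := by
  ext m
  rw [coeff_sect, coeff_mul, coeff_mul]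
  symm
  refine Finset.sum_of_injOn (fun p => (4 * p.1, 4 * p.2 + r)) ?_ ?_ ?_ ?_
  · rintro ⟨a, b⟩ _ ⟨c, d⟩ _ h
    simp only [Prod.mk.injEq] at h
    exact Prod.ext (by simp only; omega) (by simp only; omega)
  · rintro ⟨a, b⟩ h
    simp only [Finset.mem_coe, HasAntidiagonal.mem_antidiagonal] at h ⊢
    omega
  · rintro ⟨i, j⟩ h h2
    simp only [HasAntidiagonal.mem_antidiagonal] at h
    rw [coeff_ex4, if_neg, zero_mul]
    rintro ⟨c, rfl⟩
    apply h2
    refine ⟨(c, m - c), ?_, ?_⟩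
    · simp only [Finset.mem_coe, HasAntidiagonal.mem_antidiagonal]
      omega
    · simp only
      refine Prod.ext rfl ?_
      simp only
      omega
  · rintro ⟨a, b⟩ _
    rw [coeff_sect, coeff_ex4, if_pos (dvd_mul_right _ _), Nat.mul_div_cancel_left _ (by norm_num)]

/-- the Euler product -/
noncomputable def E1 : R := Q X * Q (X ^ 2)

/-- the Euler product in `q^4` -/
noncomputable def E4 : R := Q (X ^ 2) * Q (-X ^ 2)

theorem ex4_dvd {F : R} {N : ℕ} (h : (X : R) ^ N ∣ F) : (X : R) ^ N ∣ ex4 F := by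
  obtain ⟨G, rfl⟩ := h
  rw [map_mul, map_pow, ex4_X, ← pow_mul]
  exact Dvd.dvd.mul_right (pow_dvd_pow _ (by omega)) _

theorem mul_sub_dvd {a b c d : R} {N : ℕ} (h1 : (X : R) ^ N ∣ a - c) (h2 : (X : R) ^ N ∣ b - d) :
    (X : R) ^ N ∣ a * b - c * d := by
  have : a * b - c * d = (a - c) * b + c * (b - d) := by ring
  rw [this]
  exact dvd_add (Dvd.dvd.mul_right h1 _) (Dvd.dvd.mul_left h2 _)

theorem ex4_E1 : ex4 E1 = E4 := by
  refine ext_dvd fun N => ?_
  have h1 := ex4_dvd (mul_sub_dvd (Q_dvd X N) (Q_dvd (X ^ 2) N))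
  have h2 : (X : R) ^ N ∣ Q (X ^ 2) * Q (-X ^ 2) -
      (∏ i ∈ range (2 * N), (1 - X ^ 2 * X ^ (2 * i))) *
        ∏ i ∈ range (2 * N), (1 - -X ^ 2 * X ^ (2 * i)) :=
    (pow_dvd_pow (X : R) (by omega : N ≤ 2 * N)).trans
      (mul_sub_dvd (Q_dvd (X ^ 2) (2 * N)) (Q_dvd (-X ^ 2) (2 * N)))
  have h3 : ∀ N : ℕ, ex4 ((∏ i ∈ range N, (1 - X * X ^ (2 * i))) *
      ∏ i ∈ range N, (1 - X ^ 2 * X ^ (2 * i))) =
      (∏ i ∈ range (2 * N), (1 - X ^ 2 * X ^ (2 * i))) *
        ∏ i ∈ range (2 * N), (1 - -X ^ 2 * X ^ (2 * i)) := by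
    intro N
    induction N with
    | zero => simp
    | succ N ih =>
      rw [Finset.prod_range_succ, Finset.prod_range_succ,
        show 2 * (N + 1) = 2 * N + 1 + 1 by ring, Finset.prod_range_succ, Finset.prod_range_succ,
        Finset.prod_range_succ _ (2 * N + 1), Finset.prod_range_succ _ (2 * N)]
      have e : (∏ i ∈ range N, (1 - X * X ^ (2 * i))) * (1 - X * X ^ (2 * N)) *
          ((∏ i ∈ range N, (1 - (X : R) ^ 2 * X ^ (2 * i))) * (1 - X ^ 2 * X ^ (2 * N))) =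
          ((∏ i ∈ range N, (1 - X * X ^ (2 * i))) * ∏ i ∈ range N, (1 - (X : R) ^ 2 * X ^ (2 * i))) *
          ((1 - X * X ^ (2 * N)) * (1 - X ^ 2 * X ^ (2 * N))) := by ring
      rw [e, map_mul, ih]
      simp only [map_mul, map_sub, map_one, map_pow, ex4_X]
      ring
  rw [map_sub, h3 N] at h1
  unfold E1 E4
  have : ex4 (Q X * Q (X ^ 2)) - Q (X ^ 2) * Q (-X ^ 2) =
    (ex4 (Q X * Q (X ^ 2)) - (∏ i ∈ range (2 * N), (1 - X ^ 2 * X ^ (2 * i))) *
        ∏ i ∈ range (2 * N), (1 - -X ^ 2 * X ^ (2 * i))) -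
    (Q (X ^ 2) * Q (-X ^ 2) - (∏ i ∈ range (2 * N), (1 - X ^ 2 * X ^ (2 * i))) *
        ∏ i ∈ range (2 * N), (1 - -X ^ 2 * X ^ (2 * i))) := by ring
  rw [this]
  exact dvd_sub h1 h2

end Pool.Agent.K3h25.CM
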