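import Pool.Agent.K3h25.CM.Theta

/-! Coefficients as sums over lattice points. -/

open PowerSeries Finset Filter Topology
open scoped PowerSeries.WithPiTopology

namespace Pool.Agent.K3h25.CM

theorem cf_al (m : ℕ) {x : R} {s : ℤ} (hx : x = (s : R) * X) (k : ℤ) :
    cf (∑' j : ℕ, X ^ (m * (j * (j + 1))) * al x j) k = ∑' p : ℕ × ℕ,
      if ((m : ℤ) + 1) * ((p.1 : ℤ) * (p.1 + 1)) + (2 * p.1 + 1) * p.2 = k then
        (-1) ^ p.1 * s ^ p.2 * wtN p.2 else 0 := by
  unfold cf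
  split_ifs with h
  · rw [coeff_al m hx]
    refine tsum_congr fun p => ?_
    refine if_congr ?_ rfl rfl
    constructor
    · intro h1
      rw [← Int.toNat_of_nonneg h, ← h1]
      push_cast
      ring
    · intro h1
      have h2 : (((m + 1) * (p.1 * (p.1 + 1)) + (2 * p.1 + 1) * p.2 : ℕ) : ℤ) = (k.toNat : ℤ) := by
        rw [Int.toNat_of_nonneg h, ← h1]
        push_cast
        ring
      exact_mod_cast h2
  · symm
    have : ∀ p : ℕ × ℕ, (if ((m : ℤ) + 1) * ((p.1 : ℤ) * (p.1 + 1)) + (2 * p.1 + 1) * p.2 = k then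
        (-1) ^ p.1 * s ^ p.2 * wtN p.2 else 0) = 0 := by
      intro p
      rw [if_neg]
      intro h1
      apply h
      rw [← h1]
      positivity
    rw [tsum_congr this, tsum_zero]

/-- finite support criterion -/
theorem summ_box {f : ℤ × ℕ × ℕ → ℤ} (B : ℕ)
    (h : ∀ v j u, f (v, j, u) ≠ 0 → v.natAbs ≤ B ∧ j ≤ B ∧ u ≤ B) : Summable f := by
  refine summable_of_ne_finset_zero
    (s := Finset.Icc (-(B : ℤ)) B ×ˢ range (B + 1) ×ˢ range (B + 1)) fun p hp => ?_
  by_contra h1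
  apply hp
  obtain ⟨v, j, u⟩ := p
  have h2 := h v j u h1
  simp only [Finset.mem_product, Finset.mem_range, Finset.mem_Icc]
  omega

theorem summ_box3 {f : ℤ × ℤ × ℤ → ℤ} (B : ℕ)
    (h : ∀ v j u, f (v, j, u) ≠ 0 → v.natAbs ≤ B ∧ j.natAbs ≤ B ∧ u.natAbs ≤ B) : Summable f := by
  refine summable_of_ne_finset_zero
    (s := Finset.Icc (-(B : ℤ)) B ×ˢ Finset.Icc (-(B : ℤ)) B ×ˢ Finset.Icc (-(B : ℤ)) B)
      fun p hp => ?_
  by_contra h1
  apply hp
  obtain ⟨v, j, u⟩ := p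
  have h2 := h v j u h1
  simp only [Finset.mem_product, Finset.mem_Icc]
  omega

theorem tsum_iter {g : ℤ → ℕ × ℕ → ℤ} (B : ℕ)
    (h : ∀ v j u, g v (j, u) ≠ 0 → v.natAbs ≤ B ∧ j ≤ B ∧ u ≤ B) :
    ∑' v, ∑' p, g v p = ∑' q : ℤ × ℕ × ℕ, g q.1 q.2 := by
  have hs : Summable (fun q : ℤ × ℕ × ℕ => g q.1 q.2) := summ_box B h
  symm
  refine hs.tsum_prod' fun v => ?_
  refine summable_of_ne_finset_zero (s := range (B + 1) ×ˢ range (B + 1)) fun p hp => ?_
  by_contra h1
  apply hp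
  obtain ⟨j, u⟩ := p
  have h2 := h v j u h1
  simp only [Finset.mem_product, Finset.mem_range]
  omega

theorem bound_aux (k n v2 : ℤ) (j u : ℕ) (hk : 0 ≤ k) (hv : 0 ≤ v2)
    (h : k * ((j : ℤ) * (j + 1)) + (2 * j + 1) * u = n - v2) (hk1 : 1 ≤ k) :
    v2 ≤ n ∧ (j : ℤ) ≤ n ∧ (u : ℤ) ≤ n := by
  have h1 : 0 ≤ k * ((j : ℤ) * (j + 1)) := by positivity
  have h2 : 0 ≤ (2 * (j : ℤ) + 1) * u := by positivity
  have h3 : (u : ℤ) ≤ (2 * j + 1) * u := by nlinarith [Int.natCast_nonneg j, Int.natCast_nonneg u]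
  have h4 : (j : ℤ) ≤ k * ((j : ℤ) * (j + 1)) := by
    have : (j : ℤ) ≤ (j : ℤ) * (j + 1) := by nlinarith [Int.natCast_nonneg j]
    nlinarith [Int.natCast_nonneg j]
  refine ⟨by linarith, by linarith, by linarith⟩

/-- the Lerch sum of `Q(X^2) W` -/
noncomputable def LL : R := ∑' j : ℕ, X ^ (2 * (j * (j + 1))) * al (-X) j

/-- the square of `ψ(q)` -/
noncomputable def PS : R := ∑' j : ℕ, al X j

theorem cf_LL (k : ℤ) : cf LL k = ∑' p : ℕ × ℕ,
      if 3 * ((p.1 : ℤ) * (p.1 + 1)) + (2 * p.1 + 1) * p.2 = k then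
        (-1) ^ p.1 * (-1) ^ p.2 * wtN p.2 else 0 := by
  have := cf_al 2 (x := -X) (s := -1) (by push_cast; ring) k
  unfold LL
  rw [this]
  norm_num

theorem cf_PS (k : ℤ) : cf PS k = ∑' p : ℕ × ℕ,
      if ((p.1 : ℤ) * (p.1 + 1)) + (2 * p.1 + 1) * p.2 = k then
        (-1) ^ p.1 * wtN p.2 else 0 := by
  have := cf_al 0 (x := X) (s := 1) (by push_cast; ring) k
  have e : PS = ∑' j : ℕ, X ^ (0 * (j * (j + 1))) * al X j := by
    unfold PS
    refine tsum_congr fun j => ?_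
    rw [zero_mul, pow_zero, one_mul]
  rw [e, this]
  simp

theorem phm_LL (n : ℕ) : coeff n (phm * LL) = ∑' q : ℤ × ℕ × ℕ,
    if q.1 ^ 2 + (3 * ((q.2.1 : ℤ) * (q.2.1 + 1)) + (2 * q.2.1 + 1) * q.2.2) = n then
      sgz q.1 * ((-1) ^ q.2.1 * (-1) ^ q.2.2 * wtN q.2.2) else 0 := by
  rw [phm_coeff]
  simp only [cf_LL]
  rw [← tsum_iter (g := fun v p => if v ^ 2 + (3 * ((p.1 : ℤ) * (p.1 + 1)) + (2 * p.1 + 1) * p.2) = n
    then sgz v * ((-1) ^ p.1 * (-1) ^ p.2 * wtN p.2) else 0) n]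
  · refine tsum_congr fun v => ?_
    have hin : Summable (fun p : ℕ × ℕ => if 3 * ((p.1 : ℤ) * (p.1 + 1)) + (2 * p.1 + 1) * p.2 =
        (n : ℤ) - v ^ 2 then ((-1) ^ p.1 * (-1) ^ p.2 * wtN p.2 : ℤ) else 0) := by
      refine summable_of_ne_finset_zero (s := range (n + 1) ×ˢ range (n + 1)) fun p hp => ?_
      rw [if_neg]
      intro h
      apply hp
      have h2 := bound_aux 3 n (v ^ 2) p.1 p.2 (by norm_num) (sq_nonneg v) h (by norm_num)
      simp only [Finset.mem_product, Finset.mem_range]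
      omega
    rw [← hin.tsum_mul_left]
    refine tsum_congr fun p => ?_
    rw [mul_ite, mul_zero]
    refine if_congr ?_ rfl rfl
    constructor <;> intro h <;> linarith
  · intro v j u h
    have h1 : v ^ 2 + (3 * ((j : ℤ) * (j + 1)) + (2 * j + 1) * u) = n := by
      by_contra h2
      exact h (if_neg h2)
    have h2 := bound_aux 3 n (v ^ 2) j u (by norm_num) (sq_nonneg v) (by linarith) (by norm_num)
    have h3 : v.natAbs ≤ n := by
      have : (v.natAbs : ℤ) ≤ n := by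
        rw [Int.natCast_natAbs, abs_le]
        constructor <;> nlinarith [h2.1]
      exact_mod_cast this
    omega

theorem php_PS (n : ℕ) : coeff n (php * PS) = ∑' q : ℤ × ℕ × ℕ,
    if q.1 ^ 2 + (((q.2.1 : ℤ) * (q.2.1 + 1)) + (2 * q.2.1 + 1) * q.2.2) = n then
      (-1) ^ q.2.1 * wtN q.2.2 else 0 := by
  rw [php_coeff]
  simp only [cf_PS]
  rw [← tsum_iter (g := fun v p => if v ^ 2 + (((p.1 : ℤ) * (p.1 + 1)) + (2 * p.1 + 1) * p.2) = n
    then ((-1) ^ p.1 * wtN p.2) else 0) n]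
  · refine tsum_congr fun v => ?_
    refine tsum_congr fun p => ?_
    refine if_congr ?_ rfl rfl
    constructor <;> intro h <;> linarith
  · intro v j u h
    have h1 : v ^ 2 + (((j : ℤ) * (j + 1)) + (2 * j + 1) * u) = n := by
      by_contra h2
      exact h (if_neg h2)
    have h2 := bound_aux 1 n (v ^ 2) j u (by norm_num) (sq_nonneg v) (by linarith) (by norm_num)
    have h3 : v.natAbs ≤ n := by
      have : (v.natAbs : ℤ) ≤ n := by
        rw [Int.natCast_natAbs, abs_le]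
        constructor <;> nlinarith [h2.1]
      exact_mod_cast this
    omega

theorem psi2_PS (n : ℕ) : 2 * coeff n (psi2 * PS) = ∑' q : ℤ × ℕ × ℕ,
    if q.1 * (q.1 + 1) + (((q.2.1 : ℤ) * (q.2.1 + 1)) + (2 * q.2.1 + 1) * q.2.2) = n then
      (-1) ^ q.2.1 * wtN q.2.2 else 0 := by
  rw [psi2_coeff2]
  simp only [cf_PS]
  rw [← tsum_iter (g := fun v p => if v * (v + 1) + (((p.1 : ℤ) * (p.1 + 1)) + (2 * p.1 + 1) * p.2)
    = n then ((-1) ^ p.1 * wtN p.2) else 0) (n + 1)]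
  · refine tsum_congr fun v => ?_
    refine tsum_congr fun p => ?_
    refine if_congr ?_ rfl rfl
    constructor <;> intro h <;> linarith
  · intro v j u h
    have h1 : v * (v + 1) + (((j : ℤ) * (j + 1)) + (2 * j + 1) * u) = n := by
      by_contra h2
      exact h (if_neg h2)
    have hv : 0 ≤ v * (v + 1) := by
      rcases le_or_gt 0 v with h | h
      · positivity
      · nlinarith
    have h2 := bound_aux 1 n (v * (v + 1)) j u (by norm_num) hv (by linarith) (by norm_num)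
    have h3 : v.natAbs ≤ n + 1 := by
      have : (v.natAbs : ℤ) ≤ n + 1 := by
        rw [Int.natCast_natAbs, abs_le]
        constructor
        · by_contra hc
          push Not at hc
          nlinarith [h2.1]
        · by_contra hc
          push Not at hc
          nlinarith [h2.1]
      exact_mod_cast this
    omega

theorem psi2_LL (n : ℕ) : coeff n (psi2 * LL) = ∑' q : ℕ × ℕ × ℕ,
    if (q.1 : ℤ) * (q.1 + 1) + (3 * ((q.2.1 : ℤ) * (q.2.1 + 1)) + (2 * q.2.1 + 1) * q.2.2) = n then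
      (-1) ^ q.2.1 * (-1) ^ q.2.2 * wtN q.2.2 else 0 := by
  rw [psi2_coeff]
  simp only [cf_LL]
  have hb : ∀ i j u : ℕ, (i : ℤ) * (i + 1) + (3 * ((j : ℤ) * (j + 1)) + (2 * j + 1) * u) = n →
      i ≤ n ∧ j ≤ n ∧ u ≤ n := by
    intro i j u h1
    have h2 := bound_aux 3 n (i * (i + 1)) j u (by norm_num) (by positivity) (by linarith)
      (by norm_num)
    have h3 : (i : ℤ) ≤ n := by nlinarith [h2.1, Int.natCast_nonneg i]
    omega
  have hs : Summable (fun q : ℕ × ℕ × ℕ => if (q.1 : ℤ) * (q.1 + 1) + (3 * ((q.2.1 : ℤ) *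
      (q.2.1 + 1)) + (2 * q.2.1 + 1) * q.2.2) = n then
      ((-1) ^ q.2.1 * (-1) ^ q.2.2 * wtN q.2.2 : ℤ) else 0) := by
    refine summable_of_ne_finset_zero (s := range (n + 1) ×ˢ range (n + 1) ×ˢ range (n + 1))
      fun p hp => ?_
    rw [if_neg]
    intro h
    apply hp
    have := hb _ _ _ h
    simp only [Finset.mem_product, Finset.mem_range]
    omega
  symm
  rw [hs.tsum_prod']
  · refine tsum_congr fun r => ?_
    refine tsum_congr fun p => ?_
    refine if_congr ?_ rfl rfl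
    push_cast
    constructor <;> intro h <;> linarith
  · intro r
    refine summable_of_ne_finset_zero (s := range (n + 1) ×ˢ range (n + 1)) fun p hp => ?_
    rw [if_neg]
    intro h
    apply hp
    have := hb _ _ _ h
    simp only at this
    simp only [Finset.mem_product, Finset.mem_range]
    omega

end Pool.Agent.K3h25.CM
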