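import Pool.Agent.K3h25.CM.Coef

/-! Coefficients of products with theta series. -/

open PowerSeries Finset Filter Topology
open scoped PowerSeries.WithPiTopology

namespace Pool.Agent.K3h25.CM

/-- coefficient with an integer index -/
noncomputable def cf (F : R) (k : ℤ) : ℤ := if 0 ≤ k then coeff k.toNat F else 0

theorem cf_neg (F : R) {k : ℤ} (h : k < 0) : cf F k = 0 := if_neg (by omega)

theorem cf_nat (F : R) (n : ℕ) : cf F n = coeff n F := by
  unfold cf; rw [if_pos (by omega), Int.toNat_natCast]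

theorem theta_coeff (w : ℕ → ℕ) (hw : ∀ r, r ≤ w r) (c : ℕ → ℤ) (F : R) (n : ℕ) :
    coeff n ((∑' r, X ^ (w r) * (c r : R)) * F) = ∑' r : ℕ, c r * cf F ((n : ℤ) - w r) := by
  have hs : Summable fun r => X ^ (w r) * (c r : R) :=
    summ fun r => Dvd.dvd.mul_right (pow_dvd_pow _ (hw r)) _
  rw [← hs.tsum_mul_right, coeff_tsum (hs.mul_right _)]
  refine tsum_congr fun r => ?_
  rw [mul_assoc, coeff_X_pow_mul']
  have e : ∀ k, coeff k ((c r : R) * F) = c r * coeff k F := by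
    intro k
    rw [← map_intCast (C (R := ℤ)) (c r), Int.cast_id, coeff_C_mul]
  split_ifs with h
  · rw [e, show ((n : ℤ) - w r) = ((n - w r : ℕ) : ℤ) by omega, cf_nat]
  · rw [cf_neg _ (by omega), mul_zero]

/-- sign -/
def sgz (v : ℤ) : ℤ := (-1) ^ v.natAbs

theorem summable_theta (n : ℕ) (w : ℕ → ℕ) (hw : ∀ r, r ≤ w r) (c : ℕ → ℤ) (F : R) :
    Summable fun r : ℕ => c r * cf F ((n : ℤ) - w r) := by
  refine summable_of_ne_finset_zero (s := range (n + 1)) fun r hr => ?_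
  rw [Finset.mem_range] at hr
  have := hw r
  rw [cf_neg _ (by omega), mul_zero]

theorem phm_coeff (F : R) (n : ℕ) :
    coeff n (phm * F) = ∑' v : ℤ, sgz v * cf F (n - v ^ 2) := by
  have h0 := theta_coeff (fun r => (r + 1) ^ 2) (fun r => by nlinarith) (fun r => (-1) ^ (r + 1)) F n
  have hs := summable_theta n (fun r => (r + 1) ^ 2) (fun r => by nlinarith)
    (fun r => (-1) ^ (r + 1)) F
  have hs1 := summable_theta n (fun r => r ^ 2) (fun r => by nlinarith) (fun r => (-1) ^ r) F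
  have e1 : ∀ r : ℕ, sgz (r : ℤ) * cf F (n - (r : ℤ) ^ 2) = (-1) ^ r * cf F ((n : ℤ) - (r ^ 2 : ℕ)) := by
    intro r; unfold sgz; push_cast; rfl
  have e2 : ∀ r : ℕ, sgz (-((r : ℤ) + 1)) * cf F (n - (-((r : ℤ) + 1)) ^ 2) =
      (-1) ^ (r + 1) * cf F ((n : ℤ) - ((r + 1) ^ 2 : ℕ)) := by
    intro r
    unfold sgz
    rw [Int.natAbs_neg, neg_sq, show ((r : ℤ) + 1).natAbs = r + 1 by omega]
    push_cast
    rfl
  rw [tsum_of_nat_of_neg_add_one (by simp only [e1]; exact hs1) (by simp only [e2]; exact hs)]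
  simp only [e1, e2]
  rw [hs1.tsum_eq_zero_add]
  have e3 : phm = 1 + 2 * ∑' r : ℕ, X ^ ((r + 1) ^ 2) * (((-1) ^ (r + 1) : ℤ) : R) := by
    unfold phm
    congr 2
    refine tsum_congr fun r => ?_
    push_cast; ring
  rw [e3, add_mul, one_mul, mul_assoc, map_add]
  have e4 : ∀ G : R, coeff n (2 * G) = 2 * coeff n G := by
    intro G; rw [two_mul, two_mul, map_add]
  rw [e4, h0]
  simp only [ne_eq, OfNat.ofNat_ne_zero, not_false_eq_true, zero_pow, Nat.cast_zero, sub_zero,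
    pow_zero, one_mul, cf_nat]
  ring

/-- `φ(q)` -/
noncomputable def php : R := 1 + 2 * ∑' r : ℕ, X ^ ((r + 1) ^ 2)

theorem php_coeff (F : R) (n : ℕ) :
    coeff n (php * F) = ∑' v : ℤ, cf F (n - v ^ 2) := by
  have h0 := theta_coeff (fun r => (r + 1) ^ 2) (fun r => by nlinarith) (fun _ => 1) F n
  have hs := summable_theta n (fun r => (r + 1) ^ 2) (fun r => by nlinarith) (fun _ => 1) F
  have hs1 := summable_theta n (fun r => r ^ 2) (fun r => by nlinarith) (fun _ => 1) F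
  simp only [one_mul] at h0 hs hs1
  have e1 : ∀ r : ℕ, cf F (n - (r : ℤ) ^ 2) = cf F ((n : ℤ) - (r ^ 2 : ℕ)) := by
    intro r; push_cast; rfl
  have e2 : ∀ r : ℕ, cf F (n - (-((r : ℤ) + 1)) ^ 2) = cf F ((n : ℤ) - ((r + 1) ^ 2 : ℕ)) := by
    intro r
    rw [neg_sq]
    push_cast
    rfl
  rw [tsum_of_nat_of_neg_add_one (by simp only [e1]; exact hs1) (by simp only [e2]; exact hs)]
  simp only [e1, e2]
  rw [hs1.tsum_eq_zero_add]
  have e3 : php = 1 + 2 * ∑' r : ℕ, X ^ ((r + 1) ^ 2) * ((1 : ℤ) : R) := by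
    unfold php
    congr 2
    refine tsum_congr fun r => ?_
    push_cast; ring
  rw [e3, add_mul, one_mul, mul_assoc, map_add]
  have e4 : ∀ G : R, coeff n (2 * G) = 2 * coeff n G := by
    intro G; rw [two_mul, two_mul, map_add]
  rw [e4, h0]
  simp only [ne_eq, OfNat.ofNat_ne_zero, not_false_eq_true, zero_pow, Nat.cast_zero, sub_zero,
    cf_nat]
  ring

theorem psi2_coeff (F : R) (n : ℕ) :
    coeff n (psi2 * F) = ∑' r : ℕ, cf F (n - (r * (r + 1) : ℕ)) := by
  have h0 := theta_coeff (fun r => r * (r + 1)) (fun r => by nlinarith) (fun _ => 1) F n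
  have e3 : psi2 = ∑' r : ℕ, X ^ (r * (r + 1)) * ((1 : ℤ) : R) := by
    unfold psi2
    refine tsum_congr fun r => ?_
    push_cast; ring
  rw [e3, h0]
  simp only [one_mul]

theorem psi2_coeff2 (F : R) (n : ℕ) :
    2 * coeff n (psi2 * F) = ∑' v : ℤ, cf F (n - v * (v + 1)) := by
  have hs1 := summable_theta n (fun r => r * (r + 1)) (fun r => by nlinarith) (fun _ => 1) F
  simp only [one_mul] at hs1
  have e1 : ∀ r : ℕ, cf F (n - (r : ℤ) * ((r : ℤ) + 1)) = cf F ((n : ℤ) - (r * (r + 1) : ℕ)) := by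
    intro r; push_cast; rfl
  have e2 : ∀ r : ℕ, cf F (n - (-((r : ℤ) + 1)) * (-((r : ℤ) + 1) + 1)) =
      cf F ((n : ℤ) - (r * (r + 1) : ℕ)) := by
    intro r
    congr 1
    push_cast
    ring
  rw [tsum_of_nat_of_neg_add_one (by simp only [e1]; exact hs1) (by simp only [e2]; exact hs1)]
  simp only [e1, e2]
  rw [psi2_coeff]
  ring

end Pool.Agent.K3h25.CM
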